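import Mathlib

/-!
# A register language with oracle reads, and the compilation of primitive recursive functions
-/

set_option autoImplicit false

namespace Pool.Agent.H81.ITTM

/-- Basic instructions. `td j`: test register `j`, and decrement it if it is positive;
`rdC j`: read bit number (register `j`) of the tape `C`; `wr j b`: write the bit `b` at
position (register `j`) of the tape `C'`; `rdY`: read bit number (register `S`) of the input;
`incS`, `rstS`: increment and reset the register `S`. -/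
inductive Instr
  | inc (j : ℕ)
  | td (j : ℕ)
  | rdC (j : ℕ)
  | wr (j : ℕ) (b : Bool)
  | rdY
  | incS
  | rstS

def Instr.isWr : Instr → Bool
  | .wr _ _ => true
  | _ => false

/-- Environments. -/
@[ext]
structure Env where
  reg : ℕ → ℕ
  sp : ℕ
  cp : ℕ → Bool

/-- Setting a register. -/
def Env.set (e : Env) (j x : ℕ) : Env := ⟨Function.update e.reg j x, e.sp, e.cp⟩

@[simp] theorem Env.set_reg (e : Env) (j x t : ℕ) :
    (e.set j x).reg t = if t = j then x else e.reg t := by
  simp [Env.set, Function.update_apply]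
@[simp] theorem Env.set_sp (e : Env) (j x : ℕ) : (e.set j x).sp = e.sp := rfl
@[simp] theorem Env.set_cp (e : Env) (j x : ℕ) : (e.set j x).cp = e.cp := rfl

theorem Env.eq_of {e e' : Env} (h1 : ∀ t, e.reg t = e'.reg t) (h2 : e.sp = e'.sp)
    (h3 : e.cp = e'.cp) : e = e' := Env.ext (funext h1) h2 h3

/-- Effect of an instruction. -/
def exe : Instr → Env → Env
  | .inc j, e => e.set j (e.reg j + 1)
  | .td j, e => e.set j (e.reg j - 1)
  | .rdC _, e => e
  | .wr j b, e => ⟨e.reg, e.sp, Function.update e.cp (e.reg j) b⟩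
  | .rdY, e => e
  | .incS, e => ⟨e.reg, e.sp + 1, e.cp⟩
  | .rstS, e => ⟨e.reg, 0, e.cp⟩

/-- Exit bit of an instruction. -/
def outb (y C : ℕ → Bool) : Instr → Env → Bool
  | .td j, e => decide (e.reg j ≠ 0)
  | .rdC j, e => C (e.reg j)
  | .rdY, e => y e.sp
  | _, _ => false

/-- Structured statements. -/
inductive Stmt
  | prim (i : Instr)
  | seq (a b : Stmt)
  | cond (i : Instr) (a b : Stmt)
  | loop (j : ℕ) (a : Stmt)

/-- Big step semantics for executions which do not write on `C'`. -/
inductive Big (y C : ℕ → Bool) : Stmt → Env → Env → Prop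
  | prim {i : Instr} {e : Env} (h : i.isWr = false) : Big y C (.prim i) e (exe i e)
  | seq {a b : Stmt} {e e' e'' : Env} (h1 : Big y C a e e') (h2 : Big y C b e' e'') :
      Big y C (.seq a b) e e''
  | condF {i : Instr} {a b : Stmt} {e e' : Env} (h : i.isWr = false)
      (hb : outb y C i e = false) (h1 : Big y C a (exe i e) e') : Big y C (.cond i a b) e e'
  | condT {i : Instr} {a b : Stmt} {e e' : Env} (h : i.isWr = false)
      (hb : outb y C i e = true) (h1 : Big y C b (exe i e) e') : Big y C (.cond i a b) e e'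
  | loop0 {j : ℕ} {a : Stmt} {e : Env} (h : e.reg j = 0) : Big y C (.loop j a) e e
  | loopS {j : ℕ} {a : Stmt} {e e' e'' : Env} (h : e.reg j ≠ 0)
      (h1 : Big y C a (e.set j (e.reg j - 1)) e') (h2 : Big y C (.loop j a) e' e'') :
      Big y C (.loop j a) e e''

/-! ### Flat machines -/

section flat

variable (y C : ℕ → Bool) {Λ : Type} (ins : Λ → Instr) (nxt : Λ → Bool → Λ)

def fstep (s : Λ × Env) : Λ × Env := (nxt s.1 (outb y C (ins s.1) s.2), exe (ins s.1) s.2)

/-- Reachability with an invariant. -/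
def RI (P : Env → Prop) (s t : Λ × Env) : Prop :=
  ∃ n, (fstep y C ins nxt)^[n] s = t ∧ ∀ m ≤ n, P ((fstep y C ins nxt)^[m] s).2

theorem RI.refl {P : Env → Prop} {s : Λ × Env} (h : P s.2) : RI y C ins nxt P s s :=
  ⟨0, rfl, fun m hm => by rw [Nat.le_zero.1 hm]; exact h⟩

theorem RI.one {P : Env → Prop} {s : Λ × Env} (h : P s.2) (h' : P (fstep y C ins nxt s).2) :
    RI y C ins nxt P s (fstep y C ins nxt s) := by
  refine ⟨1, rfl, fun m hm => ?_⟩
  rcases m with _ | m
  · exact h
  · have : m = 0 := by omega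
    subst this
    exact h'

theorem RI.trans {P : Env → Prop} {s t u : Λ × Env} (h1 : RI y C ins nxt P s t)
    (h2 : RI y C ins nxt P t u) : RI y C ins nxt P s u := by
  obtain ⟨n, rfl, hn⟩ := h1
  obtain ⟨m, rfl, hm⟩ := h2
  refine ⟨m + n, by rw [Function.iterate_add_apply], ?_⟩
  intro k hk
  rcases le_total k n with h | h
  · exact hn k h
  · obtain ⟨k', rfl⟩ : ∃ k', k = k' + n := ⟨k - n, by omega⟩
    rw [Function.iterate_add_apply]
    exact hm k' (by omega)

/-- The flat machine contains the code of a statement, with given entry and exit labels. -/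
def Emb : Stmt → Λ → Λ → Prop
  | .prim i, en, ex => ins en = i ∧ ∀ b, nxt en b = ex
  | .seq a b, en, ex => ∃ m, Emb a en m ∧ Emb b m ex
  | .cond i a b, en, ex => ins en = i ∧ Emb a (nxt en false) ex ∧ Emb b (nxt en true) ex
  | .loop j a, en, ex => ins en = .td j ∧ nxt en false = ex ∧ Emb a (nxt en true) en

theorem exe_cp {i : Instr} (h : i.isWr = false) (e : Env) : (exe i e).cp = e.cp := by
  cases i <;> first | rfl | simp [Instr.isWr] at h

theorem emb_big {s : Stmt} {e e' : Env} (h : Big y C s e e') :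
    e'.cp = e.cp ∧ ∀ en ex : Λ, Emb ins nxt s en ex →
      RI y C ins nxt (fun d => d.cp = e.cp) (en, e) (ex, e') := by
  induction h with
  | @prim i e h =>
    refine ⟨exe_cp h e, ?_⟩
    intro en ex hE
    obtain ⟨h1, h2⟩ := hE
    have h3 : fstep y C ins nxt (en, e) = (ex, exe i e) := by
      simp [fstep, h1, h2]
    rw [← h3]
    refine RI.one y C ins nxt rfl ?_
    rw [h3]
    exact exe_cp h e
  | @seq a b e e' e'' _ _ ih1 ih2 =>
    refine ⟨ih2.1.trans ih1.1, ?_⟩
    rintro en ex ⟨m, h1, h2⟩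
    refine RI.trans y C ins nxt (ih1.2 en m h1) ?_
    have := ih2.2 m ex h2
    rw [ih1.1] at this
    exact this
  | @condF i a b e e' h hb _ ih =>
    refine ⟨ih.1.trans (exe_cp h e), ?_⟩
    rintro en ex ⟨h1, h2, _⟩
    have h3 : fstep y C ins nxt (en, e) = (nxt en false, exe i e) := by
      simp [fstep, h1, hb]
    have h4 := ih.2 _ _ h2
    rw [exe_cp h e, ← h3] at h4
    refine RI.trans y C ins nxt (RI.one y C ins nxt rfl ?_) h4
    rw [h3]
    exact exe_cp h e
  | @condT i a b e e' h hb _ ih =>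
    refine ⟨ih.1.trans (exe_cp h e), ?_⟩
    rintro en ex ⟨h1, _, h2⟩
    have h3 : fstep y C ins nxt (en, e) = (nxt en true, exe i e) := by
      simp [fstep, h1, hb]
    have h4 := ih.2 _ _ h2
    rw [exe_cp h e, ← h3] at h4
    refine RI.trans y C ins nxt (RI.one y C ins nxt rfl ?_) h4
    rw [h3]
    exact exe_cp h e
  | @loop0 j a e h =>
    refine ⟨rfl, ?_⟩
    rintro en ex ⟨h1, h2, _⟩
    have h3 : fstep y C ins nxt (en, e) = (ex, e) := by
      have : exe (.td j) e = e := by
        refine Env.eq_of (fun t => ?_) rfl rfl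
        simp only [exe, Env.set_reg]
        split_ifs with ht
        · subst ht; omega
        · rfl
      simp [fstep, h1, outb, h, h2, this]
    have h4 := RI.one (P := fun d => d.cp = e.cp) y C ins nxt (s := (en, e)) rfl
      (by rw [h3])
    rw [h3] at h4
    exact h4
  | @loopS j a e e' e'' h _ _ ih1 ih2 =>
    refine ⟨ih2.1.trans ih1.1, ?_⟩
    rintro en ex ⟨h1, h2, h5⟩
    have h3 : fstep y C ins nxt (en, e) = (nxt en true, e.set j (e.reg j - 1)) := by
      simp [fstep, h1, outb, h, exe]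
    have h4 := ih1.2 _ _ h5
    rw [← h3] at h4
    have h6 := ih2.2 en ex ⟨h1, h2, h5⟩
    rw [ih1.1] at h6
    refine RI.trans y C ins nxt (RI.one y C ins nxt rfl ?_) (RI.trans y C ins nxt h4 h6)
    rw [h3]
    rfl

end flat

/-- Every statement has a finite code fragment. -/
theorem exists_frag (s : Stmt) : ∃ (L : Type) (_ : Fintype L) (en : L) (ins : L → Instr)
    (nxt : L → Bool → Option L), ∀ (Λ : Type) (ins' : Λ → Instr) (nxt' : Λ → Bool → Λ)
    (ι : L → Λ) (ex : Λ), (∀ l, ins' (ι l) = ins l) →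
    (∀ l b, nxt' (ι l) b = ((nxt l b).map ι).getD ex) → Emb ins' nxt' s (ι en) ex := by
  induction s with
  | prim i =>
    refine ⟨Unit, inferInstance, (), fun _ => i, fun _ _ => none, ?_⟩
    intro Λ ins' nxt' ι ex h1 h2
    exact ⟨h1 _, fun b => h2 _ b⟩
  | seq a b iha ihb =>
    obtain ⟨L1, _, en1, ins1, nxt1, H1⟩ := iha
    obtain ⟨L2, _, en2, ins2, nxt2, H2⟩ := ihb
    refine ⟨L1 ⊕ L2, inferInstance, Sum.inl en1, Sum.elim ins1 ins2,
      Sum.elim (fun l b => some (((nxt1 l b).map Sum.inl).getD (Sum.inr en2)))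
        (fun l b => (nxt2 l b).map Sum.inr), ?_⟩
    intro Λ ins' nxt' ι ex h1 h2
    refine ⟨ι (Sum.inr en2), H1 Λ ins' nxt' (fun l => ι (Sum.inl l)) _ (fun l => h1 _) ?_,
      H2 Λ ins' nxt' (fun l => ι (Sum.inr l)) _ (fun l => h1 _) ?_⟩
    · intro l b
      rw [h2]
      simp only [Sum.elim_inl, Option.map_some, Option.getD_some]
      rcases nxt1 l b with _ | l' <;> rfl
    · intro l b
      rw [h2]
      simp only [Sum.elim_inr, Option.map_map]
      rcases nxt2 l b with _ | l' <;> rfl
  | cond i a b iha ihb =>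
    obtain ⟨L1, _, en1, ins1, nxt1, H1⟩ := iha
    obtain ⟨L2, _, en2, ins2, nxt2, H2⟩ := ihb
    refine ⟨Unit ⊕ (L1 ⊕ L2), inferInstance, Sum.inl (),
      Sum.elim (fun _ => i) (Sum.elim ins1 ins2),
      Sum.elim (fun _ b => some (if b then Sum.inr (Sum.inr en2) else Sum.inr (Sum.inl en1)))
        (Sum.elim (fun l b => (nxt1 l b).map (fun l => Sum.inr (Sum.inl l)))
        (fun l b => (nxt2 l b).map (fun l => Sum.inr (Sum.inr l)))), ?_⟩
    intro Λ ins' nxt' ι ex h1 h2
    have e1 : nxt' (ι (Sum.inl ())) false = ι (Sum.inr (Sum.inl en1)) := by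
      rw [h2]; simp
    have e2 : nxt' (ι (Sum.inl ())) true = ι (Sum.inr (Sum.inr en2)) := by
      rw [h2]; simp
    refine ⟨h1 _, ?_, ?_⟩
    · rw [e1]
      refine H1 Λ ins' nxt' (fun l => ι (Sum.inr (Sum.inl l))) _ (fun l => h1 _) ?_
      intro l b
      rw [h2]
      simp only [Sum.elim_inr, Sum.elim_inl, Option.map_map]
      rcases nxt1 l b with _ | l' <;> rfl
    · rw [e2]
      refine H2 Λ ins' nxt' (fun l => ι (Sum.inr (Sum.inr l))) _ (fun l => h1 _) ?_
      intro l b
      rw [h2]
      simp only [Sum.elim_inr, Option.map_map]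
      rcases nxt2 l b with _ | l' <;> rfl
  | loop j a iha =>
    obtain ⟨L1, _, en1, ins1, nxt1, H1⟩ := iha
    refine ⟨Unit ⊕ L1, inferInstance, Sum.inl (), Sum.elim (fun _ => .td j) ins1,
      Sum.elim (fun _ b => if b then some (Sum.inr en1) else none)
        (fun l b => some (((nxt1 l b).map Sum.inr).getD (Sum.inl ()))), ?_⟩
    intro Λ ins' nxt' ι ex h1 h2
    have e1 : nxt' (ι (Sum.inl ())) false = ex := by
      rw [h2]; simp
    have e2 : nxt' (ι (Sum.inl ())) true = ι (Sum.inr en1) := by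
      rw [h2]; simp
    refine ⟨h1 _, e1, ?_⟩
    rw [e2]
    refine H1 Λ ins' nxt' (fun l => ι (Sum.inr l)) _ (fun l => h1 _) ?_
    intro l b
    rw [h2]
    simp only [Sum.elim_inr, Option.map_some, Option.getD_some]
    rcases nxt1 l b with _ | l' <;> rfl

/-- A finite flat machine running a statement forever. -/
theorem exists_flat (s : Stmt) : ∃ (L : Type) (_ : Fintype L) (en : L) (ins : L → Instr)
    (nxt : L → Bool → L), Emb ins nxt s en en := by
  obtain ⟨L, hL, en, ins, nxt, H⟩ := exists_frag s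
  refine ⟨L, hL, en, ins, fun l b => (nxt l b).getD en, ?_⟩
  exact H L ins _ id en (fun _ => rfl) (fun l b => by simp)

end Pool.Agent.H81.ITTM
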