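import Mathlib
import Pool.Agent.H81.ITTM.Reg

/-!
# Compiling primitive recursive functions to the register language
-/

set_option autoImplicit false

namespace Pool.Agent.H81.ITTM

variable {y C : ℕ → Bool}

theorem Big.cast {s : Stmt} {e e' e'' : Env} (h : Big y C s e e') (h' : e' = e'') :
    Big y C s e e'' := h' ▸ h

def nopS : Stmt := .prim .rdY

theorem Big.nop (e : Env) : Big y C nopS e e := Big.prim (i := .rdY) rfl

theorem Big.inc (e : Env) (j : ℕ) : Big y C (.prim (.inc j)) e (e.set j (e.reg j + 1)) :=
  Big.prim (i := .inc j) rfl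

theorem Big.loop_iter {j : ℕ} {a : Stmt} (E : ℕ → Env) (n : ℕ)
    (h0 : ∀ k ≤ n, (E k).reg j = n - k)
    (hs : ∀ k < n, Big y C a ((E k).set j (n - k - 1)) (E (k + 1))) :
    Big y C (.loop j a) (E 0) (E n) := by
  have : ∀ k ≤ n, Big y C (.loop j a) (E (n - k)) (E n) := by
    intro k
    induction k with
    | zero =>
      intro _
      rw [Nat.sub_zero]
      exact Big.loop0 (by rw [h0 n le_rfl]; omega)
    | succ k ih =>
      intro hk
      have h1 := h0 (n - (k + 1)) (by omega)
      refine Big.loopS (e' := E (n - k)) (by rw [h1]; omega) ?_ (ih (by omega))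
      have h2 := hs (n - (k + 1)) (by omega)
      rw [show n - (k + 1) + 1 = n - k by omega] at h2
      rw [h1]
      exact h2
  have h := this n le_rfl
  rw [Nat.sub_self] at h
  exact h

/-- Zero a register. -/
def zeroS (t : ℕ) : Stmt := .loop t nopS

theorem Big.zero (e : Env) (t : ℕ) : Big y C (zeroS t) e (e.set t 0) := by
  have h := Big.loop_iter (y := y) (C := C) (j := t) (a := nopS)
    (fun k => e.set t (e.reg t - k)) (e.reg t) (fun k _ => by simp) (fun k hk => by
      refine (Big.nop _).cast ?_
      refine Env.eq_of (fun s => ?_) rfl rfl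
      simp only [Env.set_reg]
      split_ifs <;> omega)
  have h1 : e.set t (e.reg t - 0) = e := by
    refine Env.eq_of (fun s => ?_) rfl rfl
    simp only [Env.set_reg]
    split_ifs with hs
    · subst hs; omega
    · rfl
  simp only [h1, Nat.sub_self] at h
  exact h

/-- Add register `a` to register `o`, zeroing `a`. -/
def moveS (a o : ℕ) : Stmt := .loop a (.prim (.inc o))

theorem Big.move (e : Env) {a o : ℕ} (h : a ≠ o) :
    Big y C (moveS a o) e ((e.set a 0).set o (e.reg o + e.reg a)) := by
  have h := Big.loop_iter (y := y) (C := C) (j := a) (a := .prim (.inc o))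
    (fun k => (e.set a (e.reg a - k)).set o (e.reg o + k)) (e.reg a)
    (fun k _ => by simp [h]) (fun k hk => by
      refine (Big.inc _ _).cast ?_
      refine Env.eq_of (fun s => ?_) rfl rfl
      have h' : ¬ o = a := fun h2 => h h2.symm
      simp only [Env.set_reg, if_neg h', if_true]
      split_ifs <;> omega)
  have h1 : (e.set a (e.reg a - 0)).set o (e.reg o + 0) = e := by
    refine Env.eq_of (fun s => ?_) rfl rfl
    simp only [Env.set_reg]
    split_ifs with hs hs2
    · subst hs; omega
    · subst hs2; omega
    · rfl
  simp only [h1, Nat.sub_self] at h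
  exact h

/-- Add register `a` to register `o`, using the temporary register `t`. -/
def copyS (a o t : ℕ) : Stmt :=
  .seq (.loop a (.seq (.prim (.inc o)) (.prim (.inc t)))) (moveS t a)

theorem Big.copy (e : Env) {a o t : ℕ} (h1 : a ≠ o) (h2 : a ≠ t) (h3 : o ≠ t)
    (ht : e.reg t = 0) :
    Big y C (copyS a o t) e (e.set o (e.reg o + e.reg a)) := by
  have h := Big.loop_iter (y := y) (C := C) (j := a)
    (a := .seq (.prim (.inc o)) (.prim (.inc t)))
    (fun k => ((e.set a (e.reg a - k)).set o (e.reg o + k)).set t k) (e.reg a)
    (fun k _ => by simp [h1, h2]) (fun k hk => by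
      refine Big.seq (Big.inc _ _) ((Big.inc _ _).cast ?_)
      refine Env.eq_of (fun s => ?_) rfl rfl
      have h1' : ¬ o = a := fun h => h1 h.symm
      have h2' : ¬ t = a := fun h => h2 h.symm
      have h3' : ¬ t = o := fun h => h3 h.symm
      simp only [Env.set_reg, if_neg h1', if_neg h2', if_neg h3', if_neg h3, if_true]
      split_ifs <;> omega)
  have h4 : ((e.set a (e.reg a - 0)).set o (e.reg o + 0)).set t 0 = e := by
    refine Env.eq_of (fun s => ?_) rfl rfl
    simp only [Env.set_reg]
    split_ifs with hs hs2 hs3
    · subst hs; omega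
    · subst hs2; omega
    · subst hs3; omega
    · rfl
  simp only [h4, Nat.sub_self] at h
  refine Big.seq h ((Big.move _ (fun h => h2 h.symm)).cast ?_)
  refine Env.eq_of (fun s => ?_) rfl rfl
  have h1' : ¬ o = a := fun h => h1 h.symm
  have h2' : ¬ t = a := fun h => h2 h.symm
  have h3' : ¬ t = o := fun h => h3 h.symm
  simp only [Env.set_reg, if_neg h1, if_neg h2, if_true]
  by_cases q1 : s = a
  · subst q1
    rw [if_pos rfl, if_neg h1]
    omega
  · by_cases q2 : s = o
    · subst q2
      rw [if_neg h3]
      simp [q1, h3]
    · by_cases q3 : s = t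
      · subst q3
        simp [q1, q2, ht]
      · simp [q1, q2, q3]

/-- The statement `s` computes `f` with inputs in the registers `v i`, output in register `o`,
and temporary registers `≥ b`, which are zero before and after. -/
def Computes {n : ℕ} (s : Stmt) (f : List.Vector ℕ n → ℕ) (v : Fin n → ℕ) (o b : ℕ) : Prop :=
  ∀ (y C : ℕ → Bool) (e : Env), (∀ t, b ≤ t → e.reg t = 0) → e.reg o = 0 →
    Big y C s e (e.set o (f (List.Vector.ofFn fun i => e.reg (v i))))

/-- Sequential composition of a finite family of statements, starting with the last index. -/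
def seqFin (g : ℕ → Stmt) : ℕ → Stmt
  | 0 => nopS
  | n + 1 => .seq (seqFin g n) (g n)

theorem Big.seqFin {g : ℕ → Stmt} (E : ℕ → Env) (n : ℕ)
    (h : ∀ k < n, Big y C (g k) (E k) (E (k + 1))) : Big y C (seqFin g n) (E 0) (E n) := by
  induction n with
  | zero => exact Big.nop _
  | succ n ih => exact Big.seq (ih (fun k hk => h k (by omega))) (h n (by omega))

theorem exists_computes {n : ℕ} {f : List.Vector ℕ n → ℕ} (hf : Nat.Primrec' f) :
    ∀ (v : Fin n → ℕ) (o b : ℕ), (∀ i, v i < b) → o < b → (∀ i, v i ≠ o) →
      ∃ s, Computes s f v o b := by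
  induction hf with
  | zero =>
    intro v o b _ _ _
    refine ⟨nopS, fun y C e _ h2 => (Big.nop e).cast ?_⟩
    refine Env.eq_of (fun s => ?_) rfl rfl
    simp only [Env.set_reg]
    split_ifs with hs
    · subst hs; exact h2
    · rfl
  | succ =>
    intro v o b h1 h2 h3
    refine ⟨.seq (copyS (v 0) o b) (.prim (.inc o)), fun y C e h4 h5 => ?_⟩
    refine Big.seq (Big.copy e (h3 0) (by have := h1 0; omega) (by omega) (h4 b le_rfl)) ?_
    refine (Big.inc _ _).cast ?_
    refine Env.eq_of (fun s => ?_) rfl rfl
    simp only [Env.set_reg, h5, if_true]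
    split_ifs with hs
    · simp [List.Vector.head_ofFn]
    · rfl
  | get i =>
    intro v o b h1 h2 h3
    refine ⟨copyS (v i) o b, fun y C e h4 h5 => ?_⟩
    refine (Big.copy e (h3 i) (by have := h1 i; omega) (by omega) (h4 b le_rfl)).cast ?_
    refine Env.eq_of (fun s => ?_) rfl rfl
    simp only [Env.set_reg, h5]
    split_ifs with hs
    · simp
    · rfl
  | @comp m n f g _ _ ihf ihg =>
    intro v o b h1 h2 h3
    obtain ⟨sf, hsf⟩ := ihf (fun i => b + i) o (b + n) (fun i => by have := i.isLt; omega)
      (by omega) (fun i => by omega)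
    have hg : ∀ i : Fin n, ∃ s, Computes s (g i) v (b + i) (b + n) := fun i =>
      ihg i v (b + i) (b + n) (fun k => by have := h1 k; omega) (by have := i.isLt; omega)
        (fun k => by have := h1 k; omega)
    choose sg hsg using hg
    let gs : ℕ → Stmt := fun k => if h : k < n then sg ⟨k, h⟩ else nopS
    refine ⟨.seq (seqFin gs n) (.seq sf (seqFin (fun k => zeroS (b + k)) n)), ?_⟩
    intro y C e h4 h5
    -- values
    let w : ℕ → ℕ := fun k => if h : k < n then
      g ⟨k, h⟩ (List.Vector.ofFn fun i => e.reg (v i)) else 0
    let E : ℕ → Env := fun k => ⟨fun t => if b ≤ t ∧ t < b + k then w (t - b) else e.reg t,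
      e.sp, e.cp⟩
    have hE0 : E 0 = e := by
      refine Env.eq_of (fun s => ?_) rfl rfl
      have : ¬ (b ≤ s ∧ s < b + 0) := by omega
      show (if b ≤ s ∧ s < b + 0 then w (s - b) else e.reg s) = e.reg s
      rw [if_neg this]
    have hEreg : ∀ k t, (E k).reg t = if b ≤ t ∧ t < b + k then w (t - b) else e.reg t :=
      fun _ _ => rfl
    have hA : Big y C (seqFin gs n) (E 0) (E n) := by
      apply Big.seqFin
      intro k hk
      have hgs : gs k = sg ⟨k, hk⟩ := dif_pos hk
      rw [hgs]
      refine (hsg ⟨k, hk⟩ y C (E k) ?_ ?_).cast ?_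
      · intro t ht
        rw [hEreg, if_neg (by omega)]
        exact h4 t (by omega)
      · show (E k).reg (b + k) = 0
        rw [hEreg, if_neg (by omega)]
        exact h4 _ (by omega)
      · have hv : (fun i => (E k).reg (v i)) = fun i => e.reg (v i) := by
          funext i
          rw [hEreg, if_neg (by have := h1 i; omega)]
        rw [hv]
        refine Env.eq_of (fun s => ?_) rfl rfl
        simp only [Env.set_reg, hEreg]
        by_cases hs : s = b + k
        · rw [if_pos hs, if_pos (by omega), hs]
          have : b + k - b = k := by omega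
          rw [this]
          show _ = w k
          simp only [w]
          rw [dif_pos hk]
        · rw [if_neg hs]
          by_cases hs2 : b ≤ s ∧ s < b + k
          · rw [if_pos hs2, if_pos (by omega)]
          · rw [if_neg hs2, if_neg (by omega)]
    rw [hE0] at hA
    have hB := hsf y C (E n) (fun t ht => by
      rw [hEreg, if_neg (by omega)]; exact h4 t (by omega)) (by
      rw [hEreg, if_neg (by omega)]; exact h5)
    have hval : (List.Vector.ofFn fun i : Fin n => (E n).reg (b + ↑i)) =
        List.Vector.ofFn fun i => g i (List.Vector.ofFn fun i => e.reg (v i)) := by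
      congr 1
      funext i
      rw [hEreg, if_pos (by have := i.isLt; omega)]
      have : b + ↑i - b = (i : ℕ) := by omega
      rw [this]
      simp only [w]
      rw [dif_pos i.isLt]
    rw [hval] at hB
    set r := f (List.Vector.ofFn fun i => g i (List.Vector.ofFn fun i => e.reg (v i))) with hr
    let F : ℕ → Env := fun k => ⟨fun t => if b ≤ t ∧ t < b + k then 0 else
      ((E n).set o r).reg t, e.sp, e.cp⟩
    have hF0 : F 0 = (E n).set o r := by
      refine Env.eq_of (fun s => ?_) rfl rfl
      have : ¬ (b ≤ s ∧ s < b + 0) := by omega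
      show (if b ≤ s ∧ s < b + 0 then 0 else ((E n).set o r).reg s) = _
      rw [if_neg this]
    have hC : Big y C (seqFin (fun k => zeroS (b + k)) n) (F 0) (F n) := by
      apply Big.seqFin
      intro k hk
      refine (Big.zero _ _).cast ?_
      refine Env.eq_of (fun s => ?_) rfl rfl
      simp only [Env.set_reg, F]
      by_cases hs : s = b + k
      · rw [if_pos hs, if_pos (show b ≤ s ∧ s < b + (k + 1) by omega)]
      · rw [if_neg hs]
        by_cases hs2 : b ≤ s ∧ s < b + k
        · rw [if_pos hs2, if_pos (show b ≤ s ∧ s < b + (k + 1) by omega)]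
        · rw [if_neg hs2, if_neg (show ¬ (b ≤ s ∧ s < b + (k + 1)) by omega)]
    rw [hF0] at hC
    refine (Big.seq hA (Big.seq hB hC)).cast ?_
    refine Env.eq_of (fun s => ?_) rfl rfl
    simp only [F, Env.set_reg, hEreg]
    by_cases hs : s = o
    · rw [if_neg (by omega), if_pos hs, if_pos hs]
    · rw [if_neg hs]
      by_cases hs2 : b ≤ s ∧ s < b + n
      · rw [if_pos hs2, if_neg hs]
        exact (h4 s hs2.1).symm
      · rw [if_neg hs2, if_neg hs, if_neg hs2]
  | @prec n f g _ _ ihf ihg =>
    intro v o b h1 h2 h3
    obtain ⟨sf, hsf⟩ := ihf (fun i => v i.succ) b (b + 4) (fun i => by have := h1 i.succ; omega)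
      (by omega) (fun i => by have := h1 i.succ; omega)
    obtain ⟨sg, hsg⟩ := ihg (Fin.cons (b + 1) (Fin.cons b (fun i => v i.succ))) (b + 3) (b + 4)
      (fun i => by
        refine Fin.cases ?_ (fun i => ?_) i
        · simp
        · refine Fin.cases ?_ (fun i => ?_) i
          · simp
          · simp only [Fin.cons_succ]
            have := h1 i.succ; omega)
      (by omega)
      (fun i => by
        refine Fin.cases ?_ (fun i => ?_) i
        · simp
        · refine Fin.cases ?_ (fun i => ?_) i
          · simp
          · simp only [Fin.cons_succ]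
            have := h1 i.succ; omega)
    refine ⟨.seq sf (.seq (copyS (v 0) (b + 2) (b + 3)) (.seq (.loop (b + 2)
      (.seq sg (.seq (zeroS b) (.seq (moveS (b + 3) b) (.prim (.inc (b + 1)))))))
      (.seq (moveS b o) (zeroS (b + 1))))), ?_⟩
    intro y C e h4 h5
    set x := e.reg (v 0) with hx
    set tl : List.Vector ℕ n := List.Vector.ofFn fun i => e.reg (v i.succ) with htl
    let R : ℕ → ℕ := fun k => Nat.rec (f tl) (fun y IH => g (y ::ᵥ IH ::ᵥ tl)) k
    have hv0 := h1 0
    have hA := hsf y C e (fun t ht => h4 t (by omega)) (h4 b (by omega))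
    have hB : Big y C (copyS (v 0) (b + 2) (b + 3)) (e.set b (f tl))
        ((e.set b (f tl)).set (b + 2) x) := by
      refine (Big.copy _ (by omega) (by omega) (by omega) ?_).cast ?_
      · simp only [Env.set_reg]
        rw [if_neg (by omega)]
        exact h4 _ (by omega)
      · refine Env.eq_of (fun s => ?_) rfl rfl
        simp only [Env.set_reg]
        have h6 : e.reg (b + 2) = 0 := h4 _ (by omega)
        rw [if_neg (show ¬ b + 2 = b by omega), if_neg (show ¬ v 0 = b by omega), h6, zero_add]
    let E : ℕ → Env := fun k => ((e.set b (R k)).set (b + 1) k).set (b + 2) (x - k)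
    have hE0 : E 0 = (e.set b (f tl)).set (b + 2) x := by
      refine Env.eq_of (fun s => ?_) rfl rfl
      have h6 : e.reg (b + 1) = 0 := h4 _ (by omega)
      simp only [E, Env.set_reg, Nat.sub_zero, R]
      by_cases hs : s = b + 2
      · rw [if_pos hs, if_pos hs]
      · rw [if_neg hs, if_neg hs]
        by_cases hs2 : s = b + 1
        · rw [if_pos hs2, if_neg (show ¬ s = b by omega), hs2, h6]
        · rw [if_neg hs2]
          rfl
    have hL : Big y C (.loop (b + 2)
        (.seq sg (.seq (zeroS b) (.seq (moveS (b + 3) b) (.prim (.inc (b + 1)))))))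
        (E 0) (E x) := by
      apply Big.loop_iter
      · intro k hk
        simp [E]
      · intro k hk
        set e1 : Env := (E k).set (b + 2) (x - k - 1) with he1
        have hr : ∀ t, e1.reg t = if t = b + 2 then x - k - 1 else if t = b + 1 then k else
            if t = b then R k else e.reg t := by
          intro t
          simp only [he1, E, Env.set_reg]
          by_cases ht : t = b + 2
          · rw [if_pos ht, if_pos ht]
          · rw [if_neg ht, if_neg ht, if_neg ht]
        have hG := hsg y C e1 (fun t ht => by
          rw [hr, if_neg (by omega), if_neg (by omega), if_neg (by omega)]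
          exact h4 t (by omega)) (by
          rw [hr, if_neg (by omega), if_neg (by omega), if_neg (by omega)]
          exact h4 _ (by omega))
        have hval : (List.Vector.ofFn fun i : Fin (n + 2) => e1.reg
            ((Fin.cons (b + 1) (Fin.cons b (fun i => v i.succ)) : Fin (n + 2) → ℕ) i)) =
            k ::ᵥ R k ::ᵥ tl := by
          rw [List.Vector.ofFn, List.Vector.ofFn]
          congr 1
          · simp only [Fin.cons_zero]
            rw [hr, if_neg (by omega), if_pos rfl]
          · congr 1
            · simp only [Fin.cons_succ, Fin.cons_zero]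
              rw [hr, if_neg (by omega), if_neg (by omega), if_pos rfl]
            · rw [htl]
              congr 1
              funext i
              simp only [Fin.cons_succ]
              have := h1 i.succ
              rw [hr, if_neg (by omega), if_neg (by omega), if_neg (by omega)]
        rw [hval] at hG
        have hRs : g (k ::ᵥ R k ::ᵥ tl) = R (k + 1) := rfl
        rw [hRs] at hG
        refine Big.seq hG (Big.seq (Big.zero _ _) (Big.seq (Big.move _ (by omega)) ?_))
        refine (Big.inc _ _).cast ?_
        refine Env.eq_of (fun s => ?_) rfl rfl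
        have h6 : e.reg (b + 3) = 0 := h4 _ (by omega)
        simp only [Env.set_reg, hr, E, if_true]
        rw [if_neg (show ¬ b + 1 = b by omega), if_neg (show ¬ b + 1 = b + 3 by omega),
          if_neg (show ¬ b + 1 = b by omega), if_neg (show ¬ b + 1 = b + 2 by omega),
          if_neg (show ¬ b + 3 = b by omega)]
        by_cases hs : s = b + 1
        · rw [if_pos hs, if_neg (show ¬ s = b + 2 by omega), if_pos hs]
          split_ifs <;> omega
        · rw [if_neg hs]
          by_cases hs2 : s = b
          · rw [if_pos hs2, if_neg (by omega), if_neg (by omega), if_pos hs2]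
            omega
          · rw [if_neg hs2]
            by_cases hs3 : s = b + 3
            · rw [if_pos hs3, if_neg (by omega), if_neg (by omega), if_neg (by omega), hs3, h6]
            · rw [if_neg hs3, if_neg hs2, if_neg hs3]
              by_cases hs4 : s = b + 2
              · rw [if_pos hs4, if_pos hs4]; omega
              · rw [if_neg hs4, if_neg hs4, if_neg hs, if_neg hs, if_neg hs2, if_neg hs2]
    rw [hE0] at hL
    refine Big.seq hA (Big.seq hB (Big.seq hL (Big.seq (Big.move _ (by omega)) ?_)))
    refine (Big.zero _ _).cast ?_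
    refine Env.eq_of (fun s => ?_) rfl rfl
    have h6 : e.reg b = 0 := h4 _ (by omega)
    have h7 : e.reg (b + 1) = 0 := h4 _ (by omega)
    have h8 : e.reg (b + 2) = 0 := h4 _ (by omega)
    have hfin : (List.Vector.ofFn fun i => e.reg (v i)).head.rec (f (List.Vector.ofFn
        fun i => e.reg (v i)).tail) (fun y IH => g (y ::ᵥ IH ::ᵥ (List.Vector.ofFn
        fun i => e.reg (v i)).tail)) = R x := by
      simp only [List.Vector.head_ofFn, List.Vector.tail_ofFn]
      rfl
    beta_reduce
    rw [hfin]
    simp only [Env.set_reg, E, Nat.sub_self]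
    by_cases hs : s = b + 1
    · rw [if_pos hs, if_neg (by omega), hs, h7]
    · rw [if_neg hs]
      by_cases hs2 : s = o
      · rw [if_pos hs2, if_pos hs2, if_neg (by omega), if_neg (by omega), if_neg (by omega), h5,
          if_neg (by omega), if_neg (by omega)]
        simp
      · rw [if_neg hs2, if_neg hs2]
        by_cases hs3 : s = b
        · rw [if_pos hs3, hs3, h6]
        · rw [if_neg hs3]
          by_cases hs4 : s = b + 2
          · rw [if_pos hs4, hs4, h8]
          · rw [if_neg hs4, if_neg hs, if_neg hs3]

end Pool.Agent.H81.ITTM
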