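import Mathlib

/-!
# Infinite time Turing machines (Hamkins and Lewis), recognizable and semi-recognizable reals
-/

set_option autoImplicit false

namespace Pool.Agent.H81.ITTM

open Ordinal

/-- Head moves. Moving left on cell `0` leaves the head on cell `0`. -/
inductive Move
  | left
  | right
  deriving DecidableEq

/-- The new head position after a move. -/
def Move.app : Move → ℕ → ℕ
  | .left, k => k - 1
  | .right, k => k + 1

/-- A three-tape machine (input, scratch, output) with set of states `S`: at a successor stage the
machine in state `s` reads the three bits under the head, then writes three bits, moves the head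
and changes its state, as prescribed by `δ`. -/
structure Machine (S : Type) where
  start : S
  limit : S
  halt : S
  δ : S → Bool × Bool × Bool → S × (Bool × Bool × Bool) × Move

/-- Configurations: state, head position and the contents of the three one-way infinite tapes. -/
structure Config (S : Type) where
  state : S
  head : ℕ
  inp : ℕ → Bool
  scr : ℕ → Bool
  out : ℕ → Bool

/-- The initial configuration on input `y`. -/
def Machine.init {S : Type} (M : Machine S) (y : ℕ → Bool) : Config S :=
  ⟨M.start, 0, y, fun _ => false, fun _ => false⟩

/-- One successor step. -/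
def Machine.step {S : Type} (M : Machine S) (c : Config S) : Config S :=
  let r := M.δ c.state (c.inp c.head, c.scr c.head, c.out c.head)
  ⟨r.1, r.2.2.app c.head, Function.update c.inp c.head r.2.1.1,
    Function.update c.scr c.head r.2.1.2.1, Function.update c.out c.head r.2.1.2.2⟩

open Classical in
/-- `limsup` of a sequence of bits of limit length `o`: it is `1` iff the bit is `1` at cofinally
many stages below `o`. -/
noncomputable def limsupBit (o : Ordinal.{0}) (f : ∀ γ < o, Bool) : Bool :=
  decide (∀ β < o, ∃ γ, ∃ h : γ < o, β ≤ γ ∧ f γ h = true)

/-- The transfinite run of the machine `M` on input `y`: the configuration at every ordinal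
stage. At limit stages the machine is in the limit state, the head is on cell `0`, and each cell
contains the `limsup` of its previous values. -/
noncomputable def Machine.run {S : Type} (M : Machine S) (y : ℕ → Bool) (σ : Ordinal.{0}) :
    Config S :=
  Ordinal.limitRecOn σ (M.init y) (fun _ c => M.step c)
    (fun o _ prev => ⟨M.limit, 0, fun k => limsupBit o (fun γ h => (prev γ h).inp k),
      fun k => limsupBit o (fun γ h => (prev γ h).scr k),
      fun k => limsupBit o (fun γ h => (prev γ h).out k)⟩)

/-- The machine reaches its halting state for the first time at stage `σ`. -/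
def Machine.HaltsAt {S : Type} (M : Machine S) (y : ℕ → Bool) (σ : Ordinal.{0}) : Prop :=
  (M.run y σ).state = M.halt ∧ ∀ τ < σ, (M.run y τ).state ≠ M.halt

/-- The machine halts on input `y`: it reaches the halting state at some ordinal stage. -/
def Machine.Halts {S : Type} (M : Machine S) (y : ℕ → Bool) : Prop :=
  ∃ σ, M.HaltsAt y σ

/-- `x` is recognizable: some program (finite state set `Fin n`) halts on every real `y`, with
output bit (cell `0` of the output tape) `1` if `y = x` and `0` otherwise. -/
def Recognizable (x : ℕ → Bool) : Prop :=
  ∃ (n : ℕ) (P : Machine (Fin n)), ∀ y : ℕ → Bool,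
    ∃ σ, P.HaltsAt y σ ∧ ((P.run y σ).out 0 = true ↔ y = x)

/-- `x` is semi-recognizable: some program halts on `x` and diverges on every real `y ≠ x`. -/
def SemiRecognizable (x : ℕ → Bool) : Prop :=
  ∃ (n : ℕ) (P : Machine (Fin n)), P.Halts x ∧ ∀ y : ℕ → Bool, y ≠ x → ¬ P.Halts y

/-- `x` is anti-recognizable: some program diverges on `x` and halts on every real `y ≠ x`. -/
def AntiRecognizable (x : ℕ → Bool) : Prop :=
  ∃ (n : ℕ) (P : Machine (Fin n)), ¬ P.Halts x ∧ ∀ y : ℕ → Bool, y ≠ x → P.Halts y

end Pool.Agent.H81.ITTM
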