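import Mathlib
import Pool.Agent.H81.ITTM.Defs

/-!
# Transfinite iteration with limsup: basic lemmas
-/

set_option autoImplicit false

namespace Pool.Agent.H81.ITTM

open Ordinal

theorem limsupBit_iff {o : Ordinal.{0}} {f : Ordinal.{0} → Bool} :
    limsupBit o (fun γ _ => f γ) = true ↔ ∀ β < o, ∃ γ < o, β ≤ γ ∧ f γ = true := by
  unfold limsupBit
  rw [@decide_eq_true_iff _ (Classical.propDecidable _)]
  constructor
  · intro h β hβ
    obtain ⟨γ, h1, h2, h3⟩ := h β hβ
    exact ⟨γ, h1, h2, h3⟩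
  · intro h β hβ
    obtain ⟨γ, h1, h2, h3⟩ := h β hβ
    exact ⟨γ, h1, h2, h3⟩

section run

variable {S : Type} (M : Machine S) (y : ℕ → Bool)

theorem run_zero : M.run y 0 = M.init y := by
  unfold Machine.run
  rw [Ordinal.limitRecOn_zero]

theorem run_add_one (σ : Ordinal.{0}) : M.run y (σ + 1) = M.step (M.run y σ) := by
  unfold Machine.run
  rw [Ordinal.limitRecOn_add_one]

theorem run_limit {o : Ordinal.{0}} (ho : Order.IsSuccLimit o) :
    M.run y o = ⟨M.limit, 0, fun k => limsupBit o (fun γ _ => (M.run y γ).inp k),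
      fun k => limsupBit o (fun γ _ => (M.run y γ).scr k),
      fun k => limsupBit o (fun γ _ => (M.run y γ).out k)⟩ := by
  unfold Machine.run
  rw [Ordinal.limitRecOn_limit _ _ _ _ ho]

theorem run_add_nat (σ : Ordinal.{0}) (n : ℕ) :
    M.run y (σ + n) = M.step^[n] (M.run y σ) := by
  induction n with
  | zero => simp
  | succ n ih =>
    rw [Nat.cast_succ, ← add_assoc, run_add_one, ih, Function.iterate_succ_apply']

end run

/-- Transfinite iteration of `F` starting from `c`, taking `limsup` at limits. -/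
noncomputable def it (F : (ℕ → Bool) → (ℕ → Bool)) (c : ℕ → Bool) (σ : Ordinal.{0}) : ℕ → Bool :=
  Ordinal.limitRecOn σ c (fun _ c => F c)
    (fun o _ prev k => limsupBit o (fun γ h => prev γ h k))

section it

variable (F : (ℕ → Bool) → (ℕ → Bool)) (c : ℕ → Bool)

theorem it_zero : it F c 0 = c := by
  unfold it
  rw [Ordinal.limitRecOn_zero]

theorem it_add_one (σ : Ordinal.{0}) : it F c (σ + 1) = F (it F c σ) := by
  unfold it
  rw [Ordinal.limitRecOn_add_one]

theorem it_limit' {o : Ordinal.{0}} (ho : Order.IsSuccLimit o) :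
    it F c o = fun k => limsupBit o (fun γ _ => it F c γ k) := by
  unfold it
  rw [Ordinal.limitRecOn_limit _ _ _ _ ho]

theorem it_limit {o : Ordinal.{0}} (ho : Order.IsSuccLimit o) (k : ℕ) :
    it F c o k = true ↔ ∀ β < o, ∃ γ < o, β ≤ γ ∧ it F c γ k = true := by
  rw [it_limit' F c ho]
  exact limsupBit_iff

theorem it_limit_false {o : Ordinal.{0}} (ho : Order.IsSuccLimit o) (k : ℕ) :
    it F c o k = false ↔ ∃ β < o, ∀ γ < o, β ≤ γ → it F c γ k = false := by
  rw [← Bool.not_eq_true, it_limit F c ho]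
  push Not
  simp

theorem it_add (α β : Ordinal.{0}) : it F c (α + β) = it F (it F c α) β := by
  induction β using Ordinal.limitRecOn with
  | zero => rw [add_zero, it_zero]
  | add_one β ih => rw [← add_assoc, it_add_one, it_add_one, ih]
  | limit o ho ih =>
    funext k
    have hl : Order.IsSuccLimit (α + o) := by
      exact Ordinal.isSuccLimit_add α ho
    rw [Bool.eq_iff_iff, it_limit _ _ hl, it_limit _ _ ho]
    constructor
    · intro h β hβ
      obtain ⟨γ, h1, h2, h3⟩ := h (α + β) (by gcongr)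
      obtain ⟨γ', rfl⟩ : ∃ γ', γ = α + γ' :=
        ⟨γ - α, (Ordinal.add_sub_cancel_of_le (le_trans le_self_add h2)).symm⟩
      have h4 : γ' < o := by simpa using h1
      exact ⟨γ', h4, by simpa using h2, by rw [← ih γ' h4]; exact h3⟩
    · intro h β hβ
      obtain ⟨β', hβ', hb⟩ : ∃ β' < o, β ≤ α + β' := by
        rcases le_total β α with hle | hle
        · exact ⟨0, ho.bot_lt, by simpa using hle⟩
        · obtain ⟨β', rfl⟩ : ∃ β', β = α + β' :=
            ⟨β - α, (Ordinal.add_sub_cancel_of_le hle).symm⟩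
          exact ⟨β', by simpa using hβ, le_rfl⟩
      obtain ⟨γ, h1, h2, h3⟩ := h β' hβ'
      exact ⟨α + γ, by gcongr, hb.trans (by gcongr), by rw [ih γ h1]; exact h3⟩

end it

/-- Every ordinal is the sum of a zero-or-limit ordinal and a natural number. -/
theorem exists_limit_add_nat (β : Ordinal.{0}) :
    ∃ (l : Ordinal.{0}) (m : ℕ), (l = 0 ∨ Order.IsSuccLimit l) ∧ β = l + m := by
  induction β using Ordinal.limitRecOn with
  | zero => exact ⟨0, 0, Or.inl rfl, by simp⟩
  | add_one β ih =>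
    obtain ⟨l, m, hl, rfl⟩ := ih
    exact ⟨l, m + 1, hl, by rw [Nat.cast_succ, add_assoc]⟩
  | limit o ho _ => exact ⟨o, 0, Or.inr ho, by simp⟩

theorem add_nat_lt_limit {o β : Ordinal.{0}} (ho : Order.IsSuccLimit o) (h : β < o) (n : ℕ) :
    β + n < o := by
  induction n with
  | zero => simpa using h
  | succ n ih =>
    rw [Nat.cast_succ, ← add_assoc]
    exact ho.add_one_lt ih

theorem not_isSuccLimit_add_one (σ : Ordinal.{0}) : ¬ Order.IsSuccLimit (σ + 1) := by
  rw [← Order.succ_eq_add_one]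
  exact Order.not_isSuccLimit_succ σ

theorem bool_limit_const {o s : Ordinal.{0}} {f : Ordinal.{0} → Bool}
    {v : Bool} (hs : s < o) (h : ∀ γ, s ≤ γ → γ < o → f γ = v) :
    (v = true ↔ ∀ β < o, ∃ γ < o, β ≤ γ ∧ f γ = true) := by
  constructor
  · rintro rfl β hβ
    refine ⟨max s β, max_lt hs hβ, le_max_right _ _, h _ (le_max_left _ _) (max_lt hs hβ)⟩
  · intro h2
    obtain ⟨γ, h3, h4, h5⟩ := h2 s hs
    rw [← h γ h4 h3, h5]

theorem zero_or_add_one_or_limit (o : Ordinal.{0}) :
    o = 0 ∨ (∃ τ, o = τ + 1) ∨ Order.IsSuccLimit o := by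
  rcases Ordinal.zero_or_succ_or_isSuccLimit o with h | ⟨τ, rfl⟩ | h
  · exact Or.inl h
  · exact Or.inr (Or.inl ⟨τ, rfl⟩)
  · exact Or.inr (Or.inr h)

end Pool.Agent.H81.ITTM
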