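import Mathlib
import Pool.Agent.H81.ITTM.Iter
import Pool.Agent.H81.ITTM.Reg

/-!
# The machine simulating a network: definition and the instruction phase
-/

set_option autoImplicit false

namespace Pool.Agent.H81.ITTM

/-! ### Reachability with an invariant -/

section rch

variable {α : Type} (f : α → α) (Q : α → Prop)

def Rch (s t : α) : Prop := ∃ n, f^[n] s = t ∧ ∀ m ≤ n, Q (f^[m] s)

def RchP (s t : α) : Prop := ∃ n, 1 ≤ n ∧ f^[n] s = t ∧ ∀ m ≤ n, Q (f^[m] s)

variable {f Q}

theorem Rch.refl {s : α} (h : Q s) : Rch f Q s s :=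
  ⟨0, rfl, fun m hm => by rw [Nat.le_zero.1 hm]; exact h⟩

theorem RchP.one {s : α} (h : Q s) (h' : Q (f s)) : RchP f Q s (f s) := by
  refine ⟨1, le_rfl, rfl, fun m hm => ?_⟩
  rcases m with _ | m
  · exact h
  · have : m = 0 := by omega
    subst this
    exact h'

theorem RchP.rch {s t : α} (h : RchP f Q s t) : Rch f Q s t := by
  obtain ⟨n, _, h1, h2⟩ := h
  exact ⟨n, h1, h2⟩

theorem Rch.one {s : α} (h : Q s) (h' : Q (f s)) : Rch f Q s (f s) := (RchP.one h h').rch

theorem Rch.trans {s t u : α} (h1 : Rch f Q s t) (h2 : Rch f Q t u) : Rch f Q s u := by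
  obtain ⟨n, rfl, hn⟩ := h1
  obtain ⟨m, rfl, hm⟩ := h2
  refine ⟨m + n, by rw [Function.iterate_add_apply], ?_⟩
  intro k hk
  rcases le_total k n with h | h
  · exact hn k h
  · obtain ⟨k', rfl⟩ : ∃ k', k = k' + n := ⟨k - n, by omega⟩
    rw [Function.iterate_add_apply]
    exact hm k' (by omega)

theorem Rch.transP {s t u : α} (h1 : Rch f Q s t) (h2 : RchP f Q t u) : RchP f Q s u := by
  obtain ⟨n, rfl, hn⟩ := h1
  obtain ⟨m, hm1, rfl, hm⟩ := h2
  refine ⟨m + n, by omega, by rw [Function.iterate_add_apply], ?_⟩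
  intro k hk
  rcases le_total k n with h | h
  · exact hn k h
  · obtain ⟨k', rfl⟩ : ∃ k', k = k' + n := ⟨k - n, by omega⟩
    rw [Function.iterate_add_apply]
    exact hm k' (by omega)

theorem Rch.mono {Q' : α → Prop} {s t : α} (h : Rch f Q s t) (hQ : ∀ c, Q c → Q' c) :
    Rch f Q' s t := by
  obtain ⟨n, h1, h2⟩ := h
  exact ⟨n, h1, fun m hm => hQ _ (h2 m hm)⟩

theorem RchP.mono {Q' : α → Prop} {s t : α} (h : RchP f Q s t) (hQ : ∀ c, Q c → Q' c) :
    RchP f Q' s t := by
  obtain ⟨n, h0, h1, h2⟩ := h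
  exact ⟨n, h0, h1, fun m hm => hQ _ (h2 m hm)⟩

/-- A chain of configurations. -/
theorem Rch.chain {s : ℕ → α} (n : ℕ) (h : ∀ m < n, f (s m) = s (m + 1))
    (hQ : ∀ m ≤ n, Q (s m)) : Rch f Q (s 0) (s n) := by
  induction n with
  | zero => exact Rch.refl (hQ 0 le_rfl)
  | succ n ih =>
    refine (ih (fun m hm => h m (by omega)) (fun m hm => hQ m (by omega))).trans ?_
    rw [← h n (by omega)]
    refine Rch.one (hQ n (by omega)) ?_
    rw [h n (by omega)]
    exact hQ (n + 1) le_rfl

end rch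

/-! ### The machine -/

inductive Ph
  | S
  | A
  | B
  deriving DecidableEq

instance : Finite Ph := by
  refine Finite.of_injective (fun p : Ph => match p with | .S => (0 : Fin 3) | .A => 1 | .B => 2) ?_
  intro a b h
  cases a <;> cases b <;> first | rfl | (exfalso; revert h; decide)

/-- States of the simulating machine. `K` is the number of classes of scratch cells. -/
inductive St (L : Type) (K : ℕ)
  | L0
  | L1
  | L2
  | L3 (c : Bool)
  | L4 (c fa : Bool)
  | W3 (ph : Ph)
  | W2 (ph : Ph)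
  | W1 (ph : Ph)
  | swS (r : ZMod K) (first : Bool)
  | swB (r : ZMod K) (mem : Bool)
  | F (l : L) (r : ZMod K)
  | B (l : L) (r : ZMod K)
  | T (l : L) (e : Bool) (r : ZMod K)
  | H

variable {L : Type} {K : ℕ}

def St.code : St L K → Fin 14 × Option L × Option (ZMod K) × Bool × Bool × Ph
  | .L0 => (0, none, none, false, false, .S)
  | .L1 => (1, none, none, false, false, .S)
  | .L2 => (2, none, none, false, false, .S)
  | .L3 c => (3, none, none, c, false, .S)
  | .L4 c fa => (4, none, none, c, fa, .S)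
  | .W3 ph => (5, none, none, false, false, ph)
  | .W2 ph => (6, none, none, false, false, ph)
  | .W1 ph => (7, none, none, false, false, ph)
  | .swS r f => (8, none, some r, f, false, .S)
  | .swB r f => (9, none, some r, f, false, .S)
  | .F l r => (10, some l, some r, false, false, .S)
  | .B l r => (11, some l, some r, false, false, .S)
  | .T l e r => (12, some l, some r, e, false, .S)
  | .H => (13, none, none, false, false, .S)

theorem St.code_injective : Function.Injective (St.code : St L K → _) := by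
  intro a b h
  cases a <;> cases b <;>
    simp only [St.code, Prod.mk.injEq, Option.some.injEq, reduceCtorEq, false_and, and_false,
      and_true, true_and, Fin.isValue] at h
  all_goals first
    | rfl
    | (exfalso; revert h; decide)
    | (exact absurd h.1 (by decide))
    | (obtain ⟨rfl, rfl⟩ := h; rfl)
    | (obtain ⟨rfl, rfl, rfl⟩ := h; rfl)

instance [Finite L] [NeZero K] : Finite (St L K) :=
  Finite.of_injective _ St.code_injective

/-- New flags. -/
def Ph.fa : Ph → Bool
  | .A => false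
  | .B => true
  | .S => true

def Ph.fb : Ph → Bool
  | .A => true
  | .B => true
  | .S => false

/-- The decision at a limit stage. -/
def decPh (c fa fb : Bool) : Option Ph :=
  if fa && !fb then some .A else if !fa && fb then some .B else if c then none else some .S

def prv (r : ZMod K) (bs : Bool) : ZMod K := if r = 0 ∧ bs = true then 0 else r - 1

/-- Stopping condition of the search to the right. -/
def stopB (i : Instr) (r : ZMod K) (bs bo : Bool) : Bool :=
  match i with
  | .inc j => decide (r = ((5 + j : ℕ) : ZMod K)) && !bs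
  | .td j => decide (r = ((5 + j : ℕ) : ZMod K)) && !bs
  | .rdC j => decide (r = ((5 + j : ℕ) : ZMod K)) && !bs
  | .wr j _ => decide (r = ((5 + j : ℕ) : ZMod K)) && !bs
  | .rdY => !bo
  | .incS => !bo
  | .rstS => !bo

/-- Target class of the search to the left. -/
def tgt (i : Instr) : ℕ :=
  match i with
  | .td j => 5 + j
  | .rdC _ => 2
  | _ => 1

def Instr.isRst : Instr → Bool
  | .rstS => true
  | _ => false

def entry (en : L) : Ph → St L K
  | .S => .swS 0 true
  | .A => .F en 0
  | .B => .swB 0 false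

/-- Action when the search to the right stops. -/
def actF (l : L) (i : Instr) (r : ZMod K) (b : Bool × Bool × Bool) :
    St L K × (Bool × Bool × Bool) × Move :=
  match i with
  | .inc _ => (.T l false (r - 1), (b.1, true, b.2.2), .left)
  | .td _ => (.B l (r - 1), (b.1, b.2.1, b.2.2), .left)
  | .rdC _ => (.B l (r - 1), (b.1, b.2.1, b.2.2), .left)
  | .wr _ _ => (.B l (r - 1), (b.1, b.2.1, b.2.2), .left)
  | .rdY => (.T l b.1 (prv r b.2.1), (b.1, b.2.1, b.2.2), .left)
  | .incS => (.T l false (prv r b.2.1), (b.1, b.2.1, true), .left)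
  | .rstS => (.T l false (prv r b.2.1), (b.1, b.2.1, b.2.2), .left)

/-- Action when the search to the left reaches its target. -/
def actB (l : L) (i : Instr) (r : ZMod K) (b : Bool × Bool × Bool) :
    St L K × (Bool × Bool × Bool) × Move :=
  match i with
  | .td _ => (.T l true (r - 1), (b.1, false, b.2.2), .left)
  | .rdC _ => (.T l b.2.1 (r - 1), (b.1, b.2.1, b.2.2), .left)
  | .wr _ v => (.T l false (r - 1), (b.1, v, b.2.2), .left)
  | _ => (.T l false 0, (b.1, b.2.1, b.2.2), .left)

/-- Transition function of the simulating machine. -/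
def simδ (en : L) (ins : L → Instr) (nxt : L → Bool → L) (s : St L K)
    (b : Bool × Bool × Bool) : St L K × (Bool × Bool × Bool) × Move :=
  match s with
  | .L0 => (.L1, (b.1, b.2.1, b.2.2), .right)
  | .L1 => (.L2, (b.1, b.2.1, b.2.2), .right)
  | .L2 => (.L3 b.2.1, (b.1, b.2.1, b.2.2), .right)
  | .L3 c => (.L4 c b.2.1, (b.1, b.2.1, b.2.2), .right)
  | .L4 c fa => match decPh c fa b.2.1 with
    | none => (.H, (b.1, b.2.1, b.2.2), .left)
    | some ph => (.W3 ph, (b.1, ph.fb, b.2.2), .left)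
  | .W3 ph => (.W2 ph, (b.1, ph.fa, b.2.2), .left)
  | .W2 ph => (.W1 ph, (b.1, b.2.1, b.2.2), .left)
  | .W1 ph => (entry en ph, (b.1, b.2.1, b.2.2), .left)
  | .swS r f => (.swS (r + 1) false,
      (b.1, (if r = 0 then f else if r = 2 ∨ r = 3 ∨ r = 4 then b.2.1 else false), false), .right)
  | .swB r m => (.swB (r + 1) b.2.1, (b.1, (if r = 2 then m else b.2.1), b.2.2), .right)
  | .F l r => if stopB (ins l) r b.2.1 b.2.2 = true then actF l (ins l) r b
      else (.F l (r + 1), (b.1, b.2.1, b.2.2), .right)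
  | .B l r => if r = ((tgt (ins l) : ℕ) : ZMod K) then actB l (ins l) r b
      else if r = 0 ∧ b.2.1 = true then (.T l false 0, (b.1, b.2.1, b.2.2), .left)
      else (.B l (r - 1), (b.1, b.2.1, b.2.2), .left)
  | .T l e r => if r = 0 ∧ b.2.1 = true then
      (.F (nxt l e) 0, (b.1, b.2.1, if (ins l).isRst then false else b.2.2), .left)
      else (.T l e (r - 1), (b.1, b.2.1, if (ins l).isRst then false else b.2.2), .left)
  | .H => (.H, (b.1, b.2.1, b.2.2), .left)

def simM (K : ℕ) (en : L) (ins : L → Instr) (nxt : L → Bool → L) : Machine (St L K) where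
  start := .L0
  limit := .L0
  halt := .H
  δ := simδ en ins nxt

/-! ### Single steps -/

section steps

variable {S : Type} (M : Machine S)

theorem step_same {st st' : S} {h : ℕ} {i s o : ℕ → Bool} {mv : Move}
    (hδ : M.δ st (i h, s h, o h) = (st', (i h, s h, o h), mv)) :
    M.step ⟨st, h, i, s, o⟩ = ⟨st', mv.app h, i, s, o⟩ := by
  simp [Machine.step, hδ]

theorem step_scr {st st' : S} {h : ℕ} {i s o : ℕ → Bool} {mv : Move} {b : Bool}
    (hδ : M.δ st (i h, s h, o h) = (st', (i h, b, o h), mv)) :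
    M.step ⟨st, h, i, s, o⟩ = ⟨st', mv.app h, i, Function.update s h b, o⟩ := by
  simp [Machine.step, hδ]

theorem step_out {st st' : S} {h : ℕ} {i s o : ℕ → Bool} {mv : Move} {b : Bool}
    (hδ : M.δ st (i h, s h, o h) = (st', (i h, s h, b), mv)) :
    M.step ⟨st, h, i, s, o⟩ = ⟨st', mv.app h, i, s, Function.update o h b⟩ := by
  simp [Machine.step, hδ]

theorem step_both {st st' : S} {h : ℕ} {i s o : ℕ → Bool} {mv : Move} {b b' : Bool}
    (hδ : M.δ st (i h, s h, o h) = (st', (i h, b, b'), mv)) :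
    M.step ⟨st, h, i, s, o⟩ = ⟨st', mv.app h, i, Function.update s h b,
      Function.update o h b'⟩ := by
  simp [Machine.step, hδ]

end steps

/-! ### Prelude -/

section prelude

variable (en : L) (ins : L → Instr) (nxt : L → Bool → L) (y s o : ℕ → Bool)

theorem prelude_halt (h : decPh (s 2) (s 3) (s 4) = none) :
    ((simM K en ins nxt).step^[5] ⟨.L0, 0, y, s, o⟩).state = .H := by
  have e0 : (simM K en ins nxt).step ⟨.L0, 0, y, s, o⟩ = ⟨.L1, 1, y, s, o⟩ :=
    step_same _ (mv := .right) rfl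
  have e1 : (simM K en ins nxt).step ⟨.L1, 1, y, s, o⟩ = ⟨.L2, 2, y, s, o⟩ :=
    step_same _ (mv := .right) rfl
  have e2 : (simM K en ins nxt).step ⟨.L2, 2, y, s, o⟩ = ⟨.L3 (s 2), 3, y, s, o⟩ :=
    step_same _ (mv := .right) rfl
  have e3 : (simM K en ins nxt).step ⟨.L3 (s 2), 3, y, s, o⟩ = ⟨.L4 (s 2) (s 3), 4, y, s, o⟩ :=
    step_same _ (mv := .right) rfl
  have e4 : (simM K en ins nxt).step ⟨.L4 (s 2) (s 3), 4, y, s, o⟩ = ⟨.H, 3, y, s, o⟩ := by
    refine step_same _ (mv := .left) ?_
    simp only [simM, simδ, h]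
  have e5 : (simM K en ins nxt).step^[5] ⟨.L0, 0, y, s, o⟩ = ⟨.H, 3, y, s, o⟩ := by
    show (simM K en ins nxt).step ((simM K en ins nxt).step ((simM K en ins nxt).step
      ((simM K en ins nxt).step ((simM K en ins nxt).step ⟨.L0, 0, y, s, o⟩)))) = _
    rw [e0, e1, e2, e3, e4]
  rw [e5]

/-- Invariant of the prelude. -/
def PreQ (y s : ℕ → Bool) (c : Config (St L K)) : Prop :=
  c.state ≠ .H ∧ c.inp = y ∧ ∀ p, p ≠ 3 → p ≠ 4 → c.scr p = s p

theorem prelude_ok {ph : Ph} (h : decPh (s 2) (s 3) (s 4) = some ph) :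
    Rch (simM K en ins nxt).step (PreQ y s) ⟨.L0, 0, y, s, o⟩
      ⟨entry en ph, 0, y, Function.update (Function.update s 4 ph.fb) 3 ph.fa, o⟩ := by
  have e0 : (simM K en ins nxt).step ⟨.L0, 0, y, s, o⟩ = ⟨.L1, 1, y, s, o⟩ :=
    step_same _ (mv := .right) rfl
  have e1 : (simM K en ins nxt).step ⟨.L1, 1, y, s, o⟩ = ⟨.L2, 2, y, s, o⟩ :=
    step_same _ (mv := .right) rfl
  have e2 : (simM K en ins nxt).step ⟨.L2, 2, y, s, o⟩ = ⟨.L3 (s 2), 3, y, s, o⟩ :=
    step_same _ (mv := .right) rfl
  have e3 : (simM K en ins nxt).step ⟨.L3 (s 2), 3, y, s, o⟩ = ⟨.L4 (s 2) (s 3), 4, y, s, o⟩ :=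
    step_same _ (mv := .right) rfl
  have e4 : (simM K en ins nxt).step ⟨.L4 (s 2) (s 3), 4, y, s, o⟩ =
      ⟨.W3 ph, 3, y, Function.update s 4 ph.fb, o⟩ := by
    refine step_scr _ (mv := .left) ?_
    simp only [simM, simδ, h]
  have e5 : (simM K en ins nxt).step ⟨.W3 ph, 3, y, Function.update s 4 ph.fb, o⟩ =
      ⟨.W2 ph, 2, y, Function.update (Function.update s 4 ph.fb) 3 ph.fa, o⟩ :=
    step_scr _ (mv := .left) rfl
  have e6 : (simM K en ins nxt).step
      ⟨.W2 ph, 2, y, Function.update (Function.update s 4 ph.fb) 3 ph.fa, o⟩ =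
      ⟨.W1 ph, 1, y, Function.update (Function.update s 4 ph.fb) 3 ph.fa, o⟩ :=
    step_same _ (mv := .left) rfl
  have e7 : (simM K en ins nxt).step
      ⟨.W1 ph, 1, y, Function.update (Function.update s 4 ph.fb) 3 ph.fa, o⟩ =
      ⟨entry en ph, 0, y, Function.update (Function.update s 4 ph.fb) 3 ph.fa, o⟩ :=
    step_same _ (mv := .left) rfl
  have q : ∀ (st : St L K) (h : ℕ), st ≠ .H → PreQ y s ⟨st, h, y, s, o⟩ :=
    fun st h hst => ⟨hst, rfl, fun _ _ _ => rfl⟩
  have q2 : ∀ (st : St L K) (h : ℕ), st ≠ .H →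
      PreQ y s ⟨st, h, y, Function.update s 4 ph.fb, o⟩ := by
    intro st h hst
    refine ⟨hst, rfl, fun p h3 h4 => ?_⟩
    simp [h4]
  have q3 : ∀ (st : St L K) (h : ℕ), st ≠ .H →
      PreQ y s ⟨st, h, y, Function.update (Function.update s 4 ph.fb) 3 ph.fa, o⟩ := by
    intro st h hst
    refine ⟨hst, rfl, fun p h3 h4 => ?_⟩
    simp [h3, h4]
  have one : ∀ {a b : Config (St L K)}, (simM K en ins nxt).step a = b → PreQ y s a →
      PreQ y s b → Rch (simM K en ins nxt).step (PreQ y s) a b := by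
    rintro a b rfl h1 h2
    exact Rch.one h1 h2
  have hen : entry (K := K) en ph ≠ .H := by cases ph <;> simp [entry]
  refine (one e0 (q _ _ (by simp)) (q _ _ (by simp))).trans ?_
  refine (one e1 (q _ _ (by simp)) (q _ _ (by simp))).trans ?_
  refine (one e2 (q _ _ (by simp)) (q _ _ (by simp))).trans ?_
  refine (one e3 (q _ _ (by simp)) (q _ _ (by simp))).trans ?_
  refine (one e4 (q _ _ (by simp)) (q2 _ _ (by simp))).trans ?_
  refine (one e5 (q2 _ _ (by simp)) (q3 _ _ (by simp))).trans ?_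
  refine (one e6 (q3 _ _ (by simp)) (q3 _ _ (by simp))).trans ?_
  exact one e7 (q3 _ _ (by simp)) (q3 _ _ hen)

end prelude

end Pool.Agent.H81.ITTM
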