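import Mathlib
import Pool.Agent.H81.ITTM.RegPR
import Pool.Agent.H81.ITTM.TM

/-!
# The register program computing all bits of the next state
-/

set_option autoImplicit false

namespace Pool.Agent.H81.ITTM

/-- Chains of executions. -/
theorem RchP.seq {α : Type} {f : α → α} {Q : ℕ → α → Prop} {a : ℕ → α}
    (h : ∀ n, RchP f (Q n) (a n) (a (n + 1))) :
    (∀ t, ∃ n, Q n (f^[t] (a 0))) ∧ ∀ N, ∃ T, ∀ t ≥ T, ∃ n ≥ N, Q n (f^[t] (a 0)) := by
  choose k hk1 hk2 hk3 using h
  let τ : ℕ → ℕ := fun n => ∑ i ∈ Finset.range n, k i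
  have hτ : ∀ n, τ (n + 1) = τ n + k n := fun n => Finset.sum_range_succ _ _
  have ha : ∀ n, f^[τ n] (a 0) = a n := by
    intro n
    induction n with
    | zero => simp [τ]
    | succ n ih =>
      rw [hτ, Nat.add_comm, Function.iterate_add_apply, ih, hk2]
  have hcov : ∀ N d, ∃ n ≥ N, τ n ≤ τ N + d ∧ τ N + d ≤ τ (n + 1) := by
    intro N d
    induction d with
    | zero => exact ⟨N, le_rfl, by omega, by rw [hτ]; omega⟩
    | succ d ih =>
      obtain ⟨n, h1, h2, h3⟩ := ih
      rcases Nat.lt_or_ge (τ N + d) (τ (n + 1)) with h4 | h4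
      · exact ⟨n, h1, by omega, by omega⟩
      · refine ⟨n + 1, by omega, by omega, ?_⟩
        have := hk1 (n + 1)
        rw [hτ (n + 1)]
        omega
  have hQ : ∀ N t, τ N ≤ t → ∃ n ≥ N, Q n (f^[t] (a 0)) := by
    intro N t ht
    obtain ⟨n, h1, h2, h3⟩ := hcov N (t - τ N)
    have h4 : t = (t - τ n) + τ n := by omega
    refine ⟨n, h1, ?_⟩
    rw [h4, Function.iterate_add_apply, ha]
    apply hk3
    rw [hτ] at h3
    omega
  refine ⟨fun t => ?_, fun N => ⟨τ N, fun t ht => hQ N t ht⟩⟩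
  obtain ⟨n, _, hn⟩ := hQ 0 t (by simp [τ])
  exact ⟨n, hn⟩

/-- The number with binary digits `O 0, ..., O (m - 1)`. -/
def num (O : ℕ → Bool) : ℕ → ℕ
  | 0 => 0
  | m + 1 => 2 * num O m + (O m).toNat

variable {y C : ℕ → Bool}

/-- Double register `s`, using temporary register `t`. -/
def dblS (s t : ℕ) : Stmt :=
  .seq (.loop s (.seq (.prim (.inc t)) (.prim (.inc t)))) (moveS t s)

theorem Big.dbl (e : Env) {s t : ℕ} (h1 : s ≠ t) (ht : e.reg t = 0) :
    Big y C (dblS s t) e (e.set s (2 * e.reg s)) := by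
  have h1' : ¬ t = s := fun h => h1 h.symm
  have h := Big.loop_iter (y := y) (C := C) (j := s)
    (a := .seq (.prim (.inc t)) (.prim (.inc t)))
    (fun k => (e.set s (e.reg s - k)).set t (2 * k)) (e.reg s)
    (fun k _ => by simp [h1]) (fun k hk => by
      refine Big.seq (Big.inc _ _) ((Big.inc _ _).cast ?_)
      refine Env.eq_of (fun u => ?_) rfl rfl
      simp only [Env.set_reg, if_neg h1', if_true]
      split_ifs <;> omega)
  have h4 : (e.set s (e.reg s - 0)).set t (2 * 0) = e := by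
    refine Env.eq_of (fun u => ?_) rfl rfl
    simp only [Env.set_reg]
    split_ifs with hs hs2
    · subst hs; omega
    · subst hs2; omega
    · rfl
  simp only [h4, Nat.sub_self] at h
  refine Big.seq h ((Big.move _ h1').cast ?_)
  refine Env.eq_of (fun u => ?_) rfl rfl
  simp only [Env.set_reg, if_neg h1, if_true]
  by_cases q1 : u = s
  · rw [if_pos q1, if_pos q1]; omega
  · rw [if_neg q1, if_neg q1]
    by_cases q2 : u = t
    · subst q2; simp [ht, q1]
    · rw [if_neg q2, if_neg q2, if_neg q1]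

/-- Environment with given small registers. -/
def mkE (r0 r1 r2 r3 r4 r5 r6 sp : ℕ) (cp : ℕ → Bool) : Env :=
  ⟨fun t => if t = 0 then r0 else if t = 1 then r1 else if t = 2 then r2 else if t = 3 then r3
    else if t = 4 then r4 else if t = 5 then r5 else if t = 6 then r6 else 0, sp, cp⟩

def gatherY : Stmt :=
  .loop 2 (.seq (dblS 3 7) (.seq (.cond .rdY nopS (.prim (.inc 3))) (.prim .incS)))

def gatherC : Stmt :=
  .loop 2 (.seq (dblS 4 7) (.seq (.cond (.rdC 6) nopS (.prim (.inc 4))) (.prim (.inc 6))))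

theorem Big.condY (e : Env) : Big y C (.cond .rdY nopS (.prim (.inc 3))) e
    (e.set 3 (e.reg 3 + (y e.sp).toNat)) := by
  rcases hb : y e.sp with _ | _
  · refine Big.condF rfl hb ((Big.nop _).cast ?_)
    refine Env.eq_of (fun u => ?_) rfl rfl
    simp only [Env.set_reg, exe]
    split_ifs with h
    · subst h; simp
    · rfl
  · exact Big.condT rfl hb (Big.inc _ _)

theorem Big.condC (e : Env) : Big y C (.cond (.rdC 6) nopS (.prim (.inc 4))) e
    (e.set 4 (e.reg 4 + (C (e.reg 6)).toNat)) := by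
  rcases hb : C (e.reg 6) with _ | _
  · refine Big.condF rfl hb ((Big.nop _).cast ?_)
    refine Env.eq_of (fun u => ?_) rfl rfl
    simp only [Env.set_reg, exe]
    split_ifs with h
    · subst h; simp
    · rfl
  · exact Big.condT rfl hb (Big.inc _ _)

theorem gatherY_big (i u : ℕ) (cp : ℕ → Bool) :
    Big y C gatherY (mkE i u u 0 0 0 0 0 cp) (mkE i u 0 (num y u) 0 0 0 u cp) := by
  have h := Big.loop_iter (y := y) (C := C) (j := 2)
    (a := .seq (dblS 3 7) (.seq (.cond .rdY nopS (.prim (.inc 3))) (.prim .incS)))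
    (fun k => mkE i u (u - k) (num y k) 0 0 0 k cp) u
    (fun k _ => by simp [mkE]) (fun k hk => by
      refine Big.seq (Big.dbl _ (by omega) (by simp [mkE])) (Big.seq (Big.condY _)
        ((Big.prim rfl).cast ?_))
      refine Env.eq_of (fun t => ?_) rfl rfl
      simp only [exe, Env.set_reg, mkE, Env.set_sp]
      by_cases h3 : t = 3
      · subst h3; simp [num]
      · by_cases h2 : t = 2
        · subst h2; simp; omega
        · simp [h3, h2])
  rw [Nat.sub_self] at h
  exact h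

theorem gatherC_big (i u x : ℕ) (cp : ℕ → Bool) :
    Big y C gatherC (mkE i u u x 0 0 0 0 cp) (mkE i u 0 x (num C u) 0 u 0 cp) := by
  have h := Big.loop_iter (y := y) (C := C) (j := 2)
    (a := .seq (dblS 4 7) (.seq (.cond (.rdC 6) nopS (.prim (.inc 4))) (.prim (.inc 6))))
    (fun k => mkE i u (u - k) x (num C k) 0 k 0 cp) u
    (fun k _ => by simp [mkE]) (fun k hk => by
      refine Big.seq (Big.dbl _ (by omega) (by simp [mkE])) (Big.seq (Big.condC _)
        ((Big.prim rfl).cast ?_))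
      refine Env.eq_of (fun t => ?_) rfl rfl
      simp only [exe, Env.set_reg, mkE]
      by_cases h3 : t = 4
      · subst h3; simp [num]
      · by_cases h2 : t = 2
        · subst h2; simp; omega
        · by_cases h6 : t = 6
          · subst h6; simp
          · simp [h3, h2, h6])
  rw [Nat.sub_self] at h
  exact h

/-- First part of the body: computes the next bit in register `5`. -/
def body1 (sb sφ : Stmt) : Stmt :=
  .seq sb (.seq (copyS 1 2 7) (.seq gatherY (.seq (.prim .rstS) (.seq (copyS 1 2 7)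
    (.seq gatherC (.seq (zeroS 6) sφ))))))

theorem body1_big {b : ℕ → ℕ} {φ : ℕ → ℕ → ℕ → ℕ} {sb sφ : Stmt}
    (hb : Computes sb (fun v : List.Vector ℕ 1 => b v.head) (fun _ => 0) 1 8)
    (hφ : Computes sφ (fun v : List.Vector ℕ 3 => φ (v.get 0) (v.get 1) (v.get 2))
      ![0, 3, 4] 5 8) (i : ℕ) (cp : ℕ → Bool) :
    Big y C (body1 sb sφ) (mkE i 0 0 0 0 0 0 0 cp)
      (mkE i (b i) 0 (num y (b i)) (num C (b i)) (φ i (num y (b i)) (num C (b i))) 0 0 cp) := by
  have h8 : ∀ r0 r1 r2 r3 r4 r5 r6 sp t, 8 ≤ t → (mkE r0 r1 r2 r3 r4 r5 r6 sp cp).reg t = 0 := by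
    intro r0 r1 r2 r3 r4 r5 r6 sp t ht
    simp only [mkE]
    rw [if_neg (by omega), if_neg (by omega), if_neg (by omega), if_neg (by omega),
      if_neg (by omega), if_neg (by omega), if_neg (by omega)]
  have e1 : Big y C sb (mkE i 0 0 0 0 0 0 0 cp) (mkE i (b i) 0 0 0 0 0 0 cp) := by
    refine (hb y C _ (h8 _ _ _ _ _ _ _ _) (by simp [mkE])).cast ?_
    refine Env.eq_of (fun t => ?_) rfl rfl
    simp only [Env.set_reg, List.Vector.head_ofFn]
    by_cases h1 : t = 1
    · subst h1; simp [mkE]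
    · simp [mkE, h1]
  have e2 : Big y C (copyS 1 2 7) (mkE i (b i) 0 0 0 0 0 0 cp)
      (mkE i (b i) (b i) 0 0 0 0 0 cp) := by
    refine (Big.copy _ (by omega) (by omega) (by omega) (by simp [mkE])).cast ?_
    refine Env.eq_of (fun t => ?_) rfl rfl
    simp only [Env.set_reg]
    by_cases h1 : t = 2
    · subst h1; simp [mkE]
    · simp [mkE, h1]
  have e4 : Big y C (.prim .rstS) (mkE i (b i) 0 (num y (b i)) 0 0 0 (b i) cp)
      (mkE i (b i) 0 (num y (b i)) 0 0 0 0 cp) := (Big.prim rfl).cast rfl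
  have e5 : Big y C (copyS 1 2 7) (mkE i (b i) 0 (num y (b i)) 0 0 0 0 cp)
      (mkE i (b i) (b i) (num y (b i)) 0 0 0 0 cp) := by
    refine (Big.copy _ (by omega) (by omega) (by omega) (by simp [mkE])).cast ?_
    refine Env.eq_of (fun t => ?_) rfl rfl
    simp only [Env.set_reg]
    by_cases h1 : t = 2
    · subst h1; simp [mkE]
    · simp [mkE, h1]
  have e7 : Big y C (zeroS 6) (mkE i (b i) 0 (num y (b i)) (num C (b i)) 0 (b i) 0 cp)
      (mkE i (b i) 0 (num y (b i)) (num C (b i)) 0 0 0 cp) := by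
    refine (Big.zero _ _).cast ?_
    refine Env.eq_of (fun t => ?_) rfl rfl
    simp only [Env.set_reg]
    by_cases h1 : t = 6
    · subst h1; simp [mkE]
    · simp [mkE, h1]
  refine Big.seq e1 (Big.seq e2 (Big.seq (gatherY_big _ _ _) (Big.seq e4 (Big.seq e5
    (Big.seq (gatherC_big _ _ _ _) (Big.seq e7 ?_))))))
  refine (hφ y C _ (h8 _ _ _ _ _ _ _ _) (by simp [mkE])).cast ?_
  refine Env.eq_of (fun t => ?_) rfl rfl
  simp only [Env.set_reg, List.Vector.get_ofFn]
  by_cases h1 : t = 5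
  · subst h1; simp [mkE]
  · simp [mkE, h1]

def body2 : Stmt :=
  .seq (zeroS 1) (.seq (zeroS 3) (.seq (zeroS 4) (.seq (zeroS 5) (.prim (.inc 0)))))

theorem body2_big (i r1 r3 r4 r5 : ℕ) (cp : ℕ → Bool) :
    Big y C body2 (mkE i r1 0 r3 r4 r5 0 0 cp) (mkE (i + 1) 0 0 0 0 0 0 0 cp) := by
  refine Big.seq (Big.zero _ _) (Big.seq (Big.zero _ _) (Big.seq (Big.zero _ _)
    (Big.seq (Big.zero _ _) ((Big.inc _ _).cast ?_))))
  refine Env.eq_of (fun t => ?_) rfl rfl
  simp only [Env.set_reg, mkE]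
  by_cases h0 : t = 0
  · subst h0; simp
  · by_cases h1 : t = 1
    · subst h1; simp
    · by_cases h3 : t = 3
      · subst h3; simp
      · by_cases h4 : t = 4
        · subst h4; simp
        · by_cases h5 : t = 5
          · subst h5; simp
          · simp [h0, h1, h3, h4, h5]

def body (sb sφ : Stmt) : Stmt :=
  .seq (body1 sb sφ) (.seq (.cond (.td 5) (.prim (.wr 0 false)) (.prim (.wr 0 true))) body2)

theorem RI.mono {Λ : Type} {ins : Λ → Instr} {nxt : Λ → Bool → Λ} {P P' : Env → Prop}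
    {s t : Λ × Env} (h : RI y C ins nxt P s t) (hP : ∀ e, P e → P' e) :
    RI y C ins nxt P' s t := by
  obtain ⟨n, h1, h2⟩ := h
  exact ⟨n, h1, fun m hm => hP _ (h2 m hm)⟩

theorem body_flat {Λ : Type} {ins : Λ → Instr} {nxt : Λ → Bool → Λ} {b : ℕ → ℕ}
    {φ : ℕ → ℕ → ℕ → ℕ} {sb sφ : Stmt}
    (hb : Computes sb (fun v : List.Vector ℕ 1 => b v.head) (fun _ => 0) 1 8)
    (hφ : Computes sφ (fun v : List.Vector ℕ 3 => φ (v.get 0) (v.get 1) (v.get 2))
      ![0, 3, 4] 5 8) {en : Λ} (hE : Emb ins nxt (body sb sφ) en en) (i : ℕ) (cp : ℕ → Bool) :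
    RI y C ins nxt (fun d => ∀ k, k ≠ i → d.cp k = cp k) (en, mkE i 0 0 0 0 0 0 0 cp)
      (en, mkE (i + 1) 0 0 0 0 0 0 0
        (Function.update cp i (decide (φ i (num y (b i)) (num C (b i)) ≠ 0)))) := by
  obtain ⟨m, h1, m', ⟨h2, ⟨h3, h4⟩, ⟨h5, h6⟩⟩, h7⟩ := hE
  have hA := ((emb_big y C ins nxt (body1_big (y := y) (C := C) hb hφ i cp)).2 en m h1).mono
    (P' := fun d => ∀ k, k ≠ i → d.cp k = cp k) (fun e he k _ => by rw [he]; rfl)
  refine RI.trans y C ins nxt hA ?_
  set v := φ i (num y (b i)) (num C (b i)) with hv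
  have hstep1 : fstep y C ins nxt (m, mkE i (b i) 0 (num y (b i)) (num C (b i)) v 0 0 cp) =
      (nxt m (decide (v ≠ 0)), mkE i (b i) 0 (num y (b i)) (num C (b i)) (v - 1) 0 0 cp) := by
    simp only [fstep, h2, outb, exe]
    congr 1
    refine Env.eq_of (fun t => ?_) rfl rfl
    simp only [Env.set_reg]
    by_cases h5 : t = 5
    · subst h5; simp [mkE]
    · simp [mkE, h5]
  have hstep2 : fstep y C ins nxt (nxt m (decide (v ≠ 0)),
      mkE i (b i) 0 (num y (b i)) (num C (b i)) (v - 1) 0 0 cp) =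
      (m', mkE i (b i) 0 (num y (b i)) (num C (b i)) (v - 1) 0 0
        (Function.update cp i (decide (v ≠ 0)))) := by
    by_cases hv0 : v ≠ 0
    · rw [decide_eq_true hv0]
      simp only [fstep, h5, h6, exe]
      rfl
    · rw [decide_eq_false hv0]
      simp only [fstep, h3, h4, exe]
      rfl
  have hB1 := RI.one (P := fun d => ∀ k, k ≠ i → d.cp k = cp k) y C ins nxt
    (s := (m, mkE i (b i) 0 (num y (b i)) (num C (b i)) v 0 0 cp)) (fun k _ => rfl)
    (by rw [hstep1]; exact fun k _ => rfl)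
  rw [hstep1] at hB1
  have hB2 := RI.one (P := fun d => ∀ k, k ≠ i → d.cp k = cp k) y C ins nxt
    (s := (nxt m (decide (v ≠ 0)),
      mkE i (b i) 0 (num y (b i)) (num C (b i)) (v - 1) 0 0 cp)) (fun k _ => rfl)
    (by
      rw [hstep2]
      intro k hk
      simp [mkE, hk])
  rw [hstep2] at hB2
  refine RI.trans y C ins nxt hB1 (RI.trans y C ins nxt hB2 ?_)
  refine ((emb_big y C ins nxt (body2_big (y := y) (C := C) i (b i) (num y (b i))
    (num C (b i)) (v - 1) (Function.update cp i (decide (v ≠ 0))))).2 m' en h7).mono ?_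
  intro e he k hk
  rw [he]
  simp [mkE, hk]

/-- The flat run eventually writes the correct bits. -/
theorem flat_run {Λ : Type} {ins : Λ → Instr} {nxt : Λ → Bool → Λ} {b : ℕ → ℕ}
    {φ : ℕ → ℕ → ℕ → ℕ} {sb sφ : Stmt}
    (hb : Computes sb (fun v : List.Vector ℕ 1 => b v.head) (fun _ => 0) 1 8)
    (hφ : Computes sφ (fun v : List.Vector ℕ 3 => φ (v.get 0) (v.get 1) (v.get 2))
      ![0, 3, 4] 5 8) {en : Λ} (hE : Emb ins nxt (body sb sφ) en en) (cp0 : ℕ → Bool)
    (k : ℕ) : ∃ N, ∀ n ≥ N,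
      ((fstep y C ins nxt)^[n] (en, mkE 0 0 0 0 0 0 0 0 cp0)).2.cp k =
        decide (φ k (num y (b k)) (num C (b k)) ≠ 0) := by
  let cps : ℕ → ℕ → Bool := fun i => Nat.rec cp0
    (fun i c => Function.update c i (decide (φ i (num y (b i)) (num C (b i)) ≠ 0))) i
  have hcps : ∀ i, cps (i + 1) = Function.update (cps i) i
      (decide (φ i (num y (b i)) (num C (b i)) ≠ 0)) := fun i => rfl
  have hcps' : ∀ k i, k < i → cps i k = decide (φ k (num y (b k)) (num C (b k)) ≠ 0) := by
    intro k i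
    induction i with
    | zero => intro h; omega
    | succ i ih =>
      intro h
      rw [hcps, Function.update_apply]
      by_cases hk : k = i
      · rw [if_pos hk, hk]
      · rw [if_neg hk]; exact ih (by omega)
  let a : ℕ → Λ × Env := fun i => (en, mkE i 0 0 0 0 0 0 0 (cps i))
  have hstep : ∀ i, RchP (fstep y C ins nxt) (fun s => ∀ k, k ≠ i → s.2.cp k = cps i k)
      (a i) (a (i + 1)) := by
    intro i
    obtain ⟨n, h1, h2⟩ := body_flat (y := y) (C := C) hb hφ hE i (cps i)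
    refine ⟨n, ?_, h1, h2⟩
    rcases n with _ | n
    · exfalso
      simp only [Function.iterate_zero, id] at h1
      have h3 : (mkE i 0 0 0 0 0 0 0 (cps i)).reg 0 =
          (mkE (i + 1) 0 0 0 0 0 0 0 (Function.update (cps i) i
            (decide (φ i (num y (b i)) (num C (b i)) ≠ 0)))).reg 0 := by
        rw [(Prod.mk.inj h1).2]
      simp [mkE] at h3
    · omega
  obtain ⟨T, hT⟩ := (RchP.seq hstep).2 (k + 1)
  refine ⟨T, fun n hn => ?_⟩
  obtain ⟨i, h1, h2⟩ := hT n hn
  have h3 := h2 k (by omega)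
  rw [hcps' k i (by omega)] at h3
  exact h3

end Pool.Agent.H81.ITTM
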