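import Mathlib
import Pool.Agent.H81.ITTM.Iter

/-!
# The self-referential network `G`

`G` runs, for every machine code `n`, the machine with code `n` again and again on snapshots of the
whole current state of `G` at limit stages; if the machine ever accepts, this is recorded forever.
-/

set_option autoImplicit false

namespace Pool.Agent.H81.ITTM

open Ordinal

/-- Codes of machines: number of states minus one, start, limit and halting state, and the table of
the transition function. -/
abbrev MCode : Type := ℕ × (ℕ × ℕ × ℕ) × List (ℕ × (Bool × Bool × Bool) × Bool)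

def cN (c : MCode) : ℕ := c.1 + 1
def cstart (c : MCode) : ℕ := c.2.1.1 % cN c
def climit (c : MCode) : ℕ := c.2.1.2.1 % cN c
def chalt (c : MCode) : ℕ := c.2.1.2.2 % cN c

/-- Number of a triple of bits. -/
def bnum (b : Bool × Bool × Bool) : ℕ := 4 * b.1.toNat + 2 * b.2.1.toNat + b.2.2.toNat

def ent (c : MCode) (q : ℕ) (b : Bool × Bool × Bool) : ℕ × (Bool × Bool × Bool) × Bool :=
  c.2.2.getD (8 * q + bnum b) (0, (false, false, false), false)

/-- The coded transition function; the halting state is made absorbing, moving left forever. -/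
def cδ (c : MCode) (q : ℕ) (b : Bool × Bool × Bool) : ℕ × (Bool × Bool × Bool) × Bool :=
  if q = chalt c then (chalt c, b, false)
  else ((ent c q b).1 % cN c, (ent c q b).2.1, (ent c q b).2.2)

/-- The coded machine. -/
def nmach (c : MCode) : Machine ℕ where
  start := cstart c
  limit := climit c
  halt := chalt c
  δ := fun q b => ((cδ c q b).1, (cδ c q b).2.1, if (cδ c q b).2.2 then Move.right else Move.left)

theorem cN_pos (c : MCode) : 0 < cN c := Nat.succ_pos _

theorem cδ_lt (c : MCode) (q : ℕ) (b : Bool × Bool × Bool) : (cδ c q b).1 < cN c := by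
  unfold cδ
  split_ifs
  · exact Nat.mod_lt _ (cN_pos c)
  · exact Nat.mod_lt _ (cN_pos c)

theorem nmach_state_lt (c : MCode) (y : ℕ → Bool) (σ : Ordinal.{0}) :
    ((nmach c).run y σ).state < cN c := by
  induction σ using Ordinal.limitRecOn with
  | zero => rw [run_zero]; exact Nat.mod_lt _ (cN_pos c)
  | add_one σ _ => rw [run_add_one]; exact cδ_lt c _ _
  | limit o ho _ => rw [run_limit _ _ ho]; exact Nat.mod_lt _ (cN_pos c)

/-- The machine code with number `n`. -/
def cd (n : ℕ) : MCode := (Encodable.decode (α := MCode) n).getD (0, (0, 0, 0), [])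

theorem cd_encode (c : MCode) : cd (Encodable.encode c) = c := by
  unfold cd
  rw [Encodable.encodek]
  rfl

/-! ### Names of bits -/

def nm (t a b c : ℕ) : ℕ := Nat.pair t (Nat.pair a (Nat.pair b c))

def fl0 (C : ℕ → Bool) : Bool := C (nm 0 0 0 0)
def fl1 (C : ℕ → Bool) : Bool := C (nm 0 1 0 0)
def fr (C : ℕ → Bool) (n : ℕ) : Bool := C (nm 1 n 0 0)
def fin (C : ℕ → Bool) (n : ℕ) : Bool := C (nm 2 n 0 0)
def tB (C : ℕ → Bool) (n j k : ℕ) : Bool := C (nm 3 n j k)
def hB (C : ℕ → Bool) (n k q : ℕ) : Bool := C (nm 4 n k q)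

def limB (C : ℕ → Bool) : Bool := fl0 C && fl1 C
def stB (C : ℕ → Bool) : Bool := !(fl0 C) && !(fl1 C)

/-- Effective tape contents. -/
def eT (C : ℕ → Bool) (n j k : ℕ) : Bool :=
  bif limB C && fr C n then decide (j = 0) && C k else tB C n j k

/-- Effective head position and state. -/
def eH (C : ℕ → Bool) (n k q : ℕ) : Bool :=
  bif limB C then
    (decide (k = 0) && bif fr C n then decide (q = cstart (cd n)) else decide (q = climit (cd n)))
  else hB C n k q

def bits (C : ℕ → Bool) (n k : ℕ) : Bool × Bool × Bool := (eT C n 0 k, eT C n 1 k, eT C n 2 k)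

def wb (j : ℕ) (b : Bool × Bool × Bool) : Bool :=
  if j = 0 then b.1 else if j = 1 then b.2.1 else b.2.2

def updT (C : ℕ → Bool) (n j k : ℕ) : Bool :=
  bif (List.range (cN (cd n))).any (fun q => eH C n k q) then
    (List.range (cN (cd n))).any (fun q => eH C n k q && wb j (cδ (cd n) q (bits C n k)).2.1)
  else eT C n j k

def mvL (r : ℕ × (Bool × Bool × Bool) × Bool) (q : ℕ) : Bool := decide (r.1 = q) && !r.2.2
def mvR (r : ℕ × (Bool × Bool × Bool) × Bool) (q : ℕ) : Bool := decide (r.1 = q) && r.2.2

def updH (C : ℕ → Bool) (n k q' : ℕ) : Bool :=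
  (List.range (cN (cd n))).any (fun q => eH C n (k + 1) q && mvL (cδ (cd n) q (bits C n (k + 1))) q')
  || ((List.range (cN (cd n))).any (fun q => eH C n 0 q && (decide (k = 0) &&
        mvL (cδ (cd n) q (bits C n 0)) q'))
  || (List.range (cN (cd n))).any (fun q => eH C n (k - 1) q && (decide (k ≠ 0) &&
        mvR (cδ (cd n) q (bits C n (k - 1))) q')))

def doneB (C : ℕ → Bool) (n : ℕ) : Bool := eH C n 0 (chalt (cd n))

def updF (C : ℕ → Bool) (n : ℕ) : Bool :=
  stB C || ((!(limB C) && fr C n) || doneB C n)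

def updFin (C : ℕ → Bool) (n : ℕ) : Bool :=
  fin C n || ((limB C || !(fr C n)) && (doneB C n && eT C n 2 0))

/-- The network. -/
def G (C : ℕ → Bool) (i : ℕ) : Bool :=
  if i.unpair.1 = 0 then
    (if i.unpair.2.unpair.1 = 0 then !(fl0 C && !(fl1 C))
      else if i.unpair.2.unpair.1 = 1 then fl0 C && !(fl1 C) else false)
  else if i.unpair.1 = 1 then updF C i.unpair.2.unpair.1
  else if i.unpair.1 = 2 then updFin C i.unpair.2.unpair.1
  else if i.unpair.1 = 3 then
    updT C i.unpair.2.unpair.1 i.unpair.2.unpair.2.unpair.1 i.unpair.2.unpair.2.unpair.2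
  else if i.unpair.1 = 4 then
    updH C i.unpair.2.unpair.1 i.unpair.2.unpair.2.unpair.1 i.unpair.2.unpair.2.unpair.2
  else false

theorem fl0_G (C : ℕ → Bool) : fl0 (G C) = !(fl0 C && !(fl1 C)) := by
  simp [fl0, G, nm]
theorem fl1_G (C : ℕ → Bool) : fl1 (G C) = (fl0 C && !(fl1 C)) := by
  simp [fl1, fl0, G, nm]
theorem fr_G (C : ℕ → Bool) (n : ℕ) : fr (G C) n = updF C n := by
  simp [fr, G, nm]
theorem fin_G (C : ℕ → Bool) (n : ℕ) : fin (G C) n = updFin C n := by
  simp [fin, G, nm]
theorem tB_G (C : ℕ → Bool) (n j k : ℕ) : tB (G C) n j k = updT C n j k := by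
  simp [tB, G, nm]
theorem hB_G (C : ℕ → Bool) (n k q : ℕ) : hB (G C) n k q = updH C n k q := by
  simp [hB, G, nm]

/-! ### Flips: detecting limit stages -/

section flips

variable (F : (ℕ → Bool) → (ℕ → Bool)) (c : ℕ → Bool) (a0 a1 : ℕ)

theorem flip_succ (h0 : ∀ C, F C a0 = !(C a0 && !(C a1))) (h1 : ∀ C, F C a1 = (C a0 && !(C a1)))
    (σ : Ordinal.{0}) : it F c (σ + 1) a0 = !(it F c (σ + 1) a1) := by
  rw [it_add_one, h0, h1]

theorem flip_limit (h0 : ∀ C, F C a0 = !(C a0 && !(C a1)))
    (h1 : ∀ C, F C a1 = (C a0 && !(C a1))) {o : Ordinal.{0}} (ho : Order.IsSuccLimit o) :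
    it F c o a0 = true ∧ it F c o a1 = true := by
  constructor
  · rw [it_limit _ _ ho]
    intro β hβ
    by_cases h : it F c (β + 1) a0 = true
    · exact ⟨β + 1, ho.add_one_lt hβ, le_self_add, h⟩
    · refine ⟨β + 1 + 1, ho.add_one_lt (ho.add_one_lt hβ), ?_, ?_⟩
      · rw [add_assoc]; exact le_self_add
      · rw [it_add_one, h0]
        simp only [Bool.not_eq_true] at h
        rw [h]
        rfl
  · rw [it_limit _ _ ho]
    intro β hβ
    by_cases h : it F c (β + 1) a1 = true
    · exact ⟨β + 1, ho.add_one_lt hβ, le_self_add, h⟩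
    · refine ⟨β + 1 + 1, ho.add_one_lt (ho.add_one_lt hβ), ?_, ?_⟩
      · rw [add_assoc]; exact le_self_add
      · simp only [Bool.not_eq_true] at h
        have h2 := flip_succ F c a0 a1 h0 h1 β
        rw [it_add_one, h1, h2, h]
        rfl

theorem flip_lim_iff (h0 : ∀ C, F C a0 = !(C a0 && !(C a1)))
    (h1 : ∀ C, F C a1 = (C a0 && !(C a1))) (hc0 : c a0 = false) (σ : Ordinal.{0}) :
    (it F c σ a0 && it F c σ a1) = true ↔ Order.IsSuccLimit σ := by
  constructor
  · intro h
    rcases zero_or_add_one_or_limit σ with rfl | ⟨τ, rfl⟩ | hl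
    · rw [it_zero, hc0] at h
      simp at h
    · have h2 := flip_succ F c a0 a1 h0 h1 τ
      rw [h2] at h
      simp at h
    · exact hl
  · intro h
    have := flip_limit F c a0 a1 h0 h1 h
    rw [this.1, this.2]
    rfl

theorem flip_st_iff (h0 : ∀ C, F C a0 = !(C a0 && !(C a1)))
    (h1 : ∀ C, F C a1 = (C a0 && !(C a1))) (hc0 : c a0 = false) (hc1 : c a1 = false)
    (σ : Ordinal.{0}) : (!(it F c σ a0) && !(it F c σ a1)) = true ↔ σ = 0 := by
  constructor
  · intro h
    rcases zero_or_add_one_or_limit σ with rfl | ⟨τ, rfl⟩ | hl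
    · rfl
    · have h2 := flip_succ F c a0 a1 h0 h1 τ
      rw [h2] at h
      simp at h
    · have := flip_limit F c a0 a1 h0 h1 hl
      rw [this.1, this.2] at h
      simp at h
  · rintro rfl
    rw [it_zero, hc0, hc1]
    rfl

end flips

/-- The run of the network. -/
noncomputable def X (σ : Ordinal.{0}) : ℕ → Bool := it G (fun _ => false) σ

theorem X_add_one (σ : Ordinal.{0}) : X (σ + 1) = G (X σ) := it_add_one _ _ _

theorem X_zero : X 0 = fun _ => false := it_zero _ _

theorem limB_X (σ : Ordinal.{0}) : limB (X σ) = true ↔ Order.IsSuccLimit σ :=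
  flip_lim_iff G (fun _ => false) (nm 0 0 0 0) (nm 0 1 0 0) fl0_G fl1_G rfl σ

theorem stB_X (σ : Ordinal.{0}) : stB (X σ) = true ↔ σ = 0 :=
  flip_st_iff G (fun _ => false) (nm 0 0 0 0) (nm 0 1 0 0) fl0_G fl1_G rfl rfl σ

/-! ### One step of a runner -/

structure Mt (C : ℕ → Bool) (n : ℕ) (d : Config ℕ) : Prop where
  inp : ∀ k, eT C n 0 k = d.inp k
  scr : ∀ k, eT C n 1 k = d.scr k
  out : ∀ k, eT C n 2 k = d.out k
  hd : ∀ k q, eH C n k q = (decide (d.head = k) && decide (d.state = q))

theorem any_range_one {N s : ℕ} (hs : s < N) (h : Bool) (g : ℕ → Bool) :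
    (List.range N).any (fun q => (h && decide (s = q)) && g q) = (h && g s) := by
  rw [Bool.eq_iff_iff]
  simp only [List.any_eq_true, List.mem_range, Bool.and_eq_true, decide_eq_true_eq]
  constructor
  · rintro ⟨q, _, ⟨h1, rfl⟩, h3⟩
    exact ⟨h1, h3⟩
  · rintro ⟨h1, h2⟩
    exact ⟨s, hs, ⟨h1, rfl⟩, h2⟩

theorem any_range_one' {N s : ℕ} (hs : s < N) (h : Bool) :
    (List.range N).any (fun q => (h && decide (s = q))) = h := by
  have := any_range_one hs h (fun _ => true)
  simpa using this

theorem Mt.step {C : ℕ → Bool} {n : ℕ} {d : Config ℕ} (h : Mt C n d) (hs : d.state < cN (cd n))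
    (hl : limB (G C) = false) : Mt (G C) n ((nmach (cd n)).step d) := by
  obtain ⟨hi, hsc, ho, hh⟩ := h
  have eTG : ∀ j k, eT (G C) n j k = updT C n j k := by
    intro j k
    unfold eT
    rw [hl, Bool.false_and, cond_false, tB_G]
  have eHG : ∀ k q, eH (G C) n k q = updH C n k q := by
    intro k q
    unfold eH
    rw [hl, cond_false, hB_G]
  have hb : ∀ k, bits C n k = (d.inp k, d.scr k, d.out k) := by
    intro k
    simp only [bits, hi, hsc, ho]
  have hT : ∀ j k, updT C n j k = if k = d.head then
      wb j (cδ (cd n) d.state (d.inp k, d.scr k, d.out k)).2.1 else eT C n j k := by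
    intro j k
    unfold updT
    simp only [hh, hb]
    rw [any_range_one' hs, any_range_one hs]
    by_cases hk : k = d.head
    · subst hk
      simp
    · have : ¬ d.head = k := fun h => hk h.symm
      simp [hk, this]
  have hH : ∀ k q, updH C n k q =
      (decide (((nmach (cd n)).step d).head = k) &&
        decide (((nmach (cd n)).step d).state = q)) := by
    intro k q
    unfold updH
    simp only [hh, hb]
    rw [any_range_one hs, any_range_one hs, any_range_one hs]
    have e1 : ((nmach (cd n)).step d).state =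
        (cδ (cd n) d.state (d.inp d.head, d.scr d.head, d.out d.head)).1 := rfl
    have e2 : ((nmach (cd n)).step d).head =
        if (cδ (cd n) d.state (d.inp d.head, d.scr d.head, d.out d.head)).2.2 then d.head + 1
        else d.head - 1 := by
      simp only [Machine.step, nmach]
      split_ifs <;> rfl
    rw [e1, e2]
    rw [Bool.eq_iff_iff]
    simp only [mvL, mvR, Bool.or_eq_true, Bool.and_eq_true, decide_eq_true_eq,
      Bool.not_eq_true']
    constructor
    · rintro (⟨h1, h2, h3⟩ | ⟨h1, h0, h2, h3⟩ | ⟨h1, h0, h2, h3⟩)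
      · rw [← h1] at h2 h3
        rw [h3]
        refine ⟨?_, h2⟩
        simp only [Bool.false_eq_true, if_false]
        omega
      · rw [← h1] at h2 h3
        rw [h3]
        refine ⟨?_, h2⟩
        simp only [Bool.false_eq_true, if_false]
        omega
      · rw [← h1] at h2 h3
        rw [h3]
        refine ⟨?_, h2⟩
        simp only [if_true]
        omega
    · rintro ⟨h1, h2⟩
      rcases Bool.eq_false_or_eq_true
        (cδ (cd n) d.state (d.inp d.head, d.scr d.head, d.out d.head)).2.2 with hr | hr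
      · rw [hr, if_pos rfl] at h1
        right; right
        have h4 : d.head = k - 1 := by omega
        rw [← h4]
        exact ⟨rfl, by omega, h2, hr⟩
      · rw [hr] at h1
        simp only [Bool.false_eq_true, if_false] at h1
        rcases Nat.eq_zero_or_pos d.head with h5 | h5
        · right; left
          rw [h5] at h2 hr h1
          exact ⟨h5, by omega, h2, hr⟩
        · left
          have h4 : d.head = k + 1 := by omega
          rw [← h4]
          exact ⟨rfl, h2, hr⟩
  refine ⟨?_, ?_, ?_, ?_⟩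
  · intro k
    rw [eTG, hT]
    simp only [Machine.step, Function.update_apply]
    split_ifs with hk
    · subst hk; rfl
    · exact hi k
  · intro k
    rw [eTG, hT]
    simp only [Machine.step, Function.update_apply]
    split_ifs with hk
    · subst hk; rfl
    · exact hsc k
  · intro k
    rw [eTG, hT]
    simp only [Machine.step, Function.update_apply]
    split_ifs with hk
    · subst hk; rfl
    · exact ho k
  · intro k q
    rw [eHG, hH]

end Pool.Agent.H81.ITTM
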