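import Mathlib
import Pool.Agent.H81.ITTM.Net

/-!
# Runs of the runners of the network, and the non-recognizability of the final snapshot
-/

set_option autoImplicit false

namespace Pool.Agent.H81.ITTM

open Ordinal

theorem dec_comm (a b c d : ℕ) :
    (decide (a = b) && decide (c = d)) = (decide (b = a) && decide (d = c)) := by
  rw [Bool.eq_iff_iff]
  simp only [Bool.and_eq_true, decide_eq_true_eq]
  constructor
  · rintro ⟨rfl, rfl⟩; exact ⟨rfl, rfl⟩
  · rintro ⟨rfl, rfl⟩; exact ⟨rfl, rfl⟩

theorem X_limit {o : Ordinal.{0}} (ho : Order.IsSuccLimit o) (k : ℕ) :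
    X o k = true ↔ ∀ β < o, ∃ γ < o, β ≤ γ ∧ X γ k = true := it_limit _ _ ho k

/-- A bit that is constant on a final segment below a limit has this value at the limit. -/
theorem X_limit_const {o s : Ordinal.{0}} (ho : Order.IsSuccLimit o) {k : ℕ}
    {v : Bool} (hs : s < o) (h : ∀ γ, s ≤ γ → γ < o → X γ k = v) : X o k = v := by
  rw [Bool.eq_iff_iff, X_limit ho]
  exact (bool_limit_const hs h).symm

theorem run_match {s : Ordinal.{0}} (hs : Order.IsSuccLimit s) (n : ℕ) (hfr : fr (X s) n = true)
    (Θ : Ordinal.{0})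
    (hΘ : ∀ θ < Θ, ¬ (((nmach (cd n)).run (X s) θ).head = 0 ∧
      ((nmach (cd n)).run (X s) θ).state = chalt (cd n))) :
    ∀ θ ≤ Θ, Mt (X (s + θ)) n ((nmach (cd n)).run (X s) θ) ∧
      (θ ≠ 0 → fr (X (s + θ)) n = false) ∧ fin (X (s + θ)) n = fin (X s) n := by
  intro θ
  induction θ using Ordinal.limitRecOn with
  | zero =>
    intro _
    rw [add_zero, run_zero]
    have hl : limB (X s) = true := (limB_X s).2 hs
    refine ⟨⟨?_, ?_, ?_, ?_⟩, fun h => absurd rfl h, rfl⟩
    · intro k
      simp [eT, hl, hfr, Machine.init]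
    · intro k
      simp [eT, hl, hfr, Machine.init]
    · intro k
      simp [eT, hl, hfr, Machine.init]
    · intro k q
      unfold eH
      rw [hl, hfr, cond_true, cond_true]
      exact dec_comm _ _ _ _
  | add_one θ ih =>
    intro hle
    have hlt : θ < Θ := lt_of_lt_of_le (lt_add_one θ) hle
    obtain ⟨h1, h2, h3⟩ := ih hlt.le
    have hl : limB (X (s + (θ + 1))) = false := by
      rw [← Bool.not_eq_true, limB_X, ← add_assoc]
      exact not_isSuccLimit_add_one _
    have hX : X (s + (θ + 1)) = G (X (s + θ)) := by rw [← add_assoc, X_add_one]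
    have hdone : doneB (X (s + θ)) n = false := by
      rw [← Bool.not_eq_true]
      intro hd
      unfold doneB at hd
      rw [h1.hd] at hd
      simp only [Bool.and_eq_true, decide_eq_true_eq] at hd
      exact hΘ θ hlt hd
    have hst : stB (X (s + θ)) = false := by
      rw [← Bool.not_eq_true, stB_X]
      intro h0
      have : s ≤ 0 := by rw [← h0]; exact le_self_add
      exact hs.ne_bot (le_antisymm this (zero_le))
    have hlf : (!(limB (X (s + θ))) && fr (X (s + θ)) n) = false := by
      rcases eq_or_ne θ 0 with h0 | h0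
      · rw [h0, add_zero]
        rw [(limB_X s).2 hs]; rfl
      · rw [h2 h0, Bool.and_false]
    refine ⟨?_, ?_, ?_⟩
    · rw [hX, run_add_one]
      exact h1.step (nmach_state_lt _ _ _) (by rw [← hX]; exact hl)
    · intro _
      rw [hX, fr_G]
      unfold updF
      rw [hst, hlf, hdone]; rfl
    · rw [hX, fin_G]
      unfold updFin
      rw [hdone]
      simp [h3]
  | limit θ hθ ih =>
    intro hle
    have hlim : Order.IsSuccLimit (s + θ) := Ordinal.isSuccLimit_add s hθ
    have hl : limB (X (s + θ)) = true := (limB_X _).2 hlim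
    have hpos : ∀ γ, s + 1 ≤ γ → γ < s + θ → ∃ θ', θ' < θ ∧ θ' ≠ 0 ∧ γ = s + θ' := by
      intro γ h1 h2
      obtain ⟨θ', rfl⟩ : ∃ θ', γ = s + θ' :=
        ⟨γ - s, (Ordinal.add_sub_cancel_of_le (le_trans le_self_add h1)).symm⟩
      refine ⟨θ', by simpa using h2, ?_, rfl⟩
      rintro rfl
      rw [add_zero] at h1
      exact absurd h1 (not_le.2 (lt_add_one s))
    have hs1 : s + 1 < s + θ := hlim.add_one_lt (by
      conv_lhs => rw [← add_zero s]
      gcongr
      exact hθ.bot_lt)
    have hfr0 : fr (X (s + θ)) n = false := by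
      refine X_limit_const hlim hs1 ?_
      intro γ h1 h2
      obtain ⟨θ', h3, h4, rfl⟩ := hpos γ h1 h2
      exact (ih θ' h3 (h3.le.trans hle)).2.1 h4
    have heT : ∀ j k, eT (X (s + θ)) n j k = tB (X (s + θ)) n j k := by
      intro j k
      simp [eT, hfr0]
    have heT' : ∀ θ', θ' ≠ 0 → θ' < θ → ∀ j k, eT (X (s + θ')) n j k = tB (X (s + θ')) n j k := by
      intro θ' h0 h1 j k
      simp [eT, (ih θ' h1 (h1.le.trans hle)).2.1 h0]
    -- general statement for the tapes
    have htape : ∀ (j k : ℕ) (g : Config ℕ → Bool),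
        (∀ θ' < θ, eT (X (s + θ')) n j k = g ((nmach (cd n)).run (X s) θ')) →
        eT (X (s + θ)) n j k = limsupBit θ (fun γ _ => g ((nmach (cd n)).run (X s) γ)) := by
      intro j k g hg
      rw [heT, Bool.eq_iff_iff, limsupBit_iff]
      unfold tB
      rw [X_limit hlim]
      constructor
      · intro h β hβ
        obtain ⟨γ, h1, h2, h3⟩ := h (s + max β 1) (by
          gcongr
          exact max_lt hβ (Ordinal.one_lt_of_isSuccLimit hθ))
        have hge : s + 1 ≤ γ := le_trans (by gcongr; exact le_max_right _ _) h2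
        obtain ⟨θ', h4, h5, rfl⟩ := hpos γ hge h1
        refine ⟨θ', h4, le_trans (le_max_left _ _) (by simpa using h2), ?_⟩
        rw [← hg θ' h4, heT' θ' h5 h4]
        exact h3
      · intro h β hβ
        obtain ⟨β', hβ', hb⟩ : ∃ β' < θ, β ≤ s + β' := by
          rcases le_total β s with hle' | hle'
          · exact ⟨0, hθ.bot_lt, by simpa using hle'⟩
          · obtain ⟨β', rfl⟩ : ∃ β', β = s + β' :=
              ⟨β - s, (Ordinal.add_sub_cancel_of_le hle').symm⟩
            exact ⟨β', by simpa using hβ, le_rfl⟩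
        obtain ⟨γ, h1, h2, h3⟩ := h (max β' 1) (max_lt hβ' (Ordinal.one_lt_of_isSuccLimit hθ))
        have h0 : γ ≠ 0 := by
          rintro rfl
          have := le_trans (le_max_right β' 1) h2
          simp at this
        refine ⟨s + γ, by gcongr, hb.trans (by gcongr; exact le_trans (le_max_left _ _) h2), ?_⟩
        have := heT' γ h0 h1 j k
        unfold tB at this
        rw [← this, hg γ h1]
        exact h3
    refine ⟨⟨?_, ?_, ?_, ?_⟩, fun _ => hfr0, ?_⟩
    · intro k
      rw [run_limit _ _ hθ]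
      exact htape 0 k (fun d => d.inp k) (fun θ' h' => (ih θ' h' (h'.le.trans hle)).1.inp k)
    · intro k
      rw [run_limit _ _ hθ]
      exact htape 1 k (fun d => d.scr k) (fun θ' h' => (ih θ' h' (h'.le.trans hle)).1.scr k)
    · intro k
      rw [run_limit _ _ hθ]
      exact htape 2 k (fun d => d.out k) (fun θ' h' => (ih θ' h' (h'.le.trans hle)).1.out k)
    · intro k q
      rw [run_limit _ _ hθ]
      unfold eH
      rw [hl, hfr0, cond_true, cond_false]
      exact dec_comm _ _ _ _
    · refine X_limit_const hlim hs1 ?_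
      intro γ h1 h2
      obtain ⟨θ', h3, h4, rfl⟩ := hpos γ h1 h2
      exact (ih θ' h3 (h3.le.trans hle)).2.2

/-- When the run started at `s` is done, the runner becomes free again, and the acceptance bit is
updated. -/
theorem run_done {s : Ordinal.{0}} (hs : Order.IsSuccLimit s) (n : ℕ) (hfr : fr (X s) n = true)
    (Θ : Ordinal.{0})
    (hΘ : ∀ θ < Θ, ¬ (((nmach (cd n)).run (X s) θ).head = 0 ∧
      ((nmach (cd n)).run (X s) θ).state = chalt (cd n)))
    (hd : ((nmach (cd n)).run (X s) Θ).head = 0 ∧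
      ((nmach (cd n)).run (X s) Θ).state = chalt (cd n)) :
    fr (X (s + Θ + 1)) n = true ∧
      fin (X (s + Θ + 1)) n = (fin (X s) n || ((nmach (cd n)).run (X s) Θ).out 0) := by
  obtain ⟨h1, h2, h3⟩ := run_match hs n hfr Θ hΘ Θ le_rfl
  have hdone : doneB (X (s + Θ)) n = true := by
    unfold doneB
    rw [h1.hd]
    simp [hd.1, hd.2]
  constructor
  · rw [X_add_one, fr_G]
    unfold updF
    rw [hdone]
    simp
  · rw [X_add_one, fin_G]
    unfold updFin
    have hlf : (limB (X (s + Θ)) || !(fr (X (s + Θ)) n)) = true := by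
      rcases eq_or_ne Θ 0 with h0 | h0
      · rw [h0, add_zero]
        rw [(limB_X s).2 hs]; rfl
      · rw [h2 h0]; simp
    rw [hdone, hlf, h3, h1.out]
    simp

end Pool.Agent.H81.ITTM
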