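import Mathlib
import Pool.Agent.H81.ITTM.Runner

/-!
# Coding finite programs
-/

set_option autoImplicit false

namespace Pool.Agent.H81.ITTM

open Ordinal

def unb (m : ℕ) : Bool × Bool × Bool := (decide (m / 4 % 2 = 1), decide (m / 2 % 2 = 1),
  decide (m % 2 = 1))

theorem unb_bnum (b : Bool × Bool × Bool) : unb (bnum b) = b := by
  rcases b with ⟨_ | _, _ | _, _ | _⟩ <;> rfl

theorem bnum_lt (b : Bool × Bool × Bool) : bnum b < 8 := by
  rcases b with ⟨_ | _, _ | _, _ | _⟩ <;> decide

variable {N : ℕ}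

def entryOf (p : Machine (Fin N)) (i : ℕ) : ℕ × (Bool × Bool × Bool) × Bool :=
  if h : i / 8 < N then
    ((p.δ ⟨i / 8, h⟩ (unb (i % 8))).1.val, (p.δ ⟨i / 8, h⟩ (unb (i % 8))).2.1,
      decide ((p.δ ⟨i / 8, h⟩ (unb (i % 8))).2.2 = Move.right))
  else (0, (false, false, false), false)

def codeOf (p : Machine (Fin N)) : MCode :=
  (N - 1, (p.start.val, p.limit.val, p.halt.val), (List.range (8 * N)).map (entryOf p))

theorem cN_codeOf (p : Machine (Fin N)) : cN (codeOf p) = N := by
  have := p.start.pos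
  show N - 1 + 1 = N
  omega

theorem ent_codeOf (p : Machine (Fin N)) (q : Fin N) (b : Bool × Bool × Bool) :
    ent (codeOf p) q.val b =
      ((p.δ q b).1.val, (p.δ q b).2.1, decide ((p.δ q b).2.2 = Move.right)) := by
  have hb := bnum_lt b
  have hq := q.isLt
  have h1 : 8 * q.val + bnum b < 8 * N := by omega
  have h2 : (8 * q.val + bnum b) / 8 = q.val := by omega
  have h3 : (8 * q.val + bnum b) % 8 = bnum b := by omega
  unfold ent codeOf
  simp only [List.getD_eq_getElem?_getD]
  rw [List.getElem?_map, List.getElem?_range h1]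
  simp only [Option.map_some, Option.getD_some]
  unfold entryOf
  have h4 : (8 * q.val + bnum b) / 8 < N := by rw [h2]; exact q.isLt
  rw [dif_pos h4]
  have h5 : (⟨(8 * q.val + bnum b) / 8, h4⟩ : Fin N) = q := by
    apply Fin.ext
    exact h2
  rw [h5, h3, unb_bnum]

theorem chalt_codeOf (p : Machine (Fin N)) : chalt (codeOf p) = p.halt.val := by
  unfold chalt
  rw [cN_codeOf]
  exact Nat.mod_eq_of_lt p.halt.isLt

theorem cstart_codeOf (p : Machine (Fin N)) : cstart (codeOf p) = p.start.val := by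
  unfold cstart
  rw [cN_codeOf]
  exact Nat.mod_eq_of_lt p.start.isLt

theorem climit_codeOf (p : Machine (Fin N)) : climit (codeOf p) = p.limit.val := by
  unfold climit
  rw [cN_codeOf]
  exact Nat.mod_eq_of_lt p.limit.isLt

theorem cδ_codeOf (p : Machine (Fin N)) (q : Fin N) (hq : q ≠ p.halt) (b : Bool × Bool × Bool) :
    cδ (codeOf p) q.val b =
      ((p.δ q b).1.val, (p.δ q b).2.1, decide ((p.δ q b).2.2 = Move.right)) := by
  unfold cδ
  rw [chalt_codeOf, if_neg (fun h => hq (Fin.ext h)), ent_codeOf, cN_codeOf]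
  simp only
  rw [Nat.mod_eq_of_lt (p.δ q b).1.isLt]

/-- Renaming the states of a configuration. -/
def Config.map {S T : Type} (f : S → T) (c : Config S) : Config T :=
  ⟨f c.state, c.head, c.inp, c.scr, c.out⟩

theorem run_codeOf (p : Machine (Fin N)) (y : ℕ → Bool) (σ : Ordinal.{0})
    (h : ∀ τ < σ, (p.run y τ).state ≠ p.halt) :
    (nmach (codeOf p)).run y σ = (p.run y σ).map Fin.val := by
  induction σ using Ordinal.limitRecOn with
  | zero =>
    rw [run_zero, run_zero]
    unfold Machine.init Config.map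
    simp [nmach, cstart_codeOf]
  | add_one σ ih =>
    rw [run_add_one, run_add_one, ih (fun τ hτ => h τ (hτ.trans (lt_add_one σ)))]
    have hq := h σ (lt_add_one σ)
    unfold Machine.step Config.map nmach
    simp only
    rw [cδ_codeOf p _ hq]
    simp only
    rcases hm : (p.δ (p.run y σ).state ((p.run y σ).inp (p.run y σ).head,
      (p.run y σ).scr (p.run y σ).head, (p.run y σ).out (p.run y σ).head)).2.2 with _ | _
    · simp
    · simp
  | limit o ho ih =>
    rw [run_limit _ _ ho, run_limit _ _ ho]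
    have h1 : ∀ γ < o, (nmach (codeOf p)).run y γ = (p.run y γ).map Fin.val :=
      fun γ hγ => ih γ hγ (fun τ hτ => h τ (hτ.trans hγ))
    have h2 : ∀ (f g : Ordinal.{0} → Bool), (∀ γ < o, f γ = g γ) →
        limsupBit o (fun γ _ => f γ) = limsupBit o (fun γ _ => g γ) := by
      intro f g hfg
      rw [Bool.eq_iff_iff, limsupBit_iff, limsupBit_iff]
      constructor
      · intro h β hβ
        obtain ⟨γ, h3, h4, h5⟩ := h β hβ
        exact ⟨γ, h3, h4, by rw [← hfg γ h3]; exact h5⟩
      · intro h β hβ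
        obtain ⟨γ, h3, h4, h5⟩ := h β hβ
        exact ⟨γ, h3, h4, by rw [hfg γ h3]; exact h5⟩
    unfold Config.map
    simp only
    have e1 : (nmach (codeOf p)).limit = p.limit.val := climit_codeOf p
    rw [e1]
    congr 1
    · funext k
      apply h2
      intro γ hγ
      rw [h1 γ hγ]; rfl
    · funext k
      apply h2
      intro γ hγ
      rw [h1 γ hγ]; rfl
    · funext k
      apply h2
      intro γ hγ
      rw [h1 γ hγ]; rfl

theorem run_codeOf_after (p : Machine (Fin N)) (y : ℕ → Bool) (τ : Ordinal.{0})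
    (h : p.HaltsAt y τ) (m : ℕ) :
    (nmach (codeOf p)).run y (τ + m) = ⟨chalt (codeOf p), (p.run y τ).head - m,
      (p.run y τ).inp, (p.run y τ).scr, (p.run y τ).out⟩ := by
  induction m with
  | zero =>
    rw [Nat.cast_zero, add_zero, run_codeOf p y τ h.2]
    unfold Config.map
    rw [h.1, chalt_codeOf]
    rfl
  | succ m ih =>
    rw [Nat.cast_succ, ← add_assoc, run_add_one, ih]
    unfold Machine.step nmach
    simp only [cδ]
    simp only [Function.update_eq_self, Bool.false_eq_true, if_false, if_true, Move.app]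
    congr 1

theorem halts_code (p : Machine (Fin N)) (y : ℕ → Bool) (τ : Ordinal.{0}) (h : p.HaltsAt y τ) :
    ∃ Θ, (∀ θ < Θ, ¬ (((nmach (codeOf p)).run y θ).head = 0 ∧
      ((nmach (codeOf p)).run y θ).state = chalt (codeOf p))) ∧
      (((nmach (codeOf p)).run y Θ).head = 0 ∧
      ((nmach (codeOf p)).run y Θ).state = chalt (codeOf p)) ∧
      ((nmach (codeOf p)).run y Θ).out 0 = (p.run y τ).out 0 := by
  refine ⟨τ + (p.run y τ).head, ?_, ?_, ?_⟩
  · intro θ hθ
    rcases lt_or_ge θ τ with h1 | h1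
    · rintro ⟨_, h3⟩
      rw [run_codeOf p y θ (fun τ' h' => h.2 τ' (h'.trans h1)), chalt_codeOf] at h3
      exact h.2 θ h1 (Fin.ext h3)
    · obtain ⟨m, rfl⟩ : ∃ m : ℕ, θ = τ + m := by
        obtain ⟨m, hm⟩ : ∃ m : ℕ, θ - τ = m := by
          have : θ - τ < ((p.run y τ).head : Ordinal) := by
            rw [← Ordinal.add_sub_cancel_of_le h1] at hθ
            simpa using hθ
          exact Ordinal.lt_omega0.1 (this.trans (Ordinal.natCast_lt_omega0 _))
        exact ⟨m, by rw [← hm, Ordinal.add_sub_cancel_of_le h1]⟩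
      rw [run_codeOf_after p y τ h m]
      rintro ⟨h2, _⟩
      simp only at h2
      have h3 : m < (p.run y τ).head := by simpa using hθ
      omega
  · rw [run_codeOf_after p y τ h]
    simp
  · rw [run_codeOf_after p y τ h]

end Pool.Agent.H81.ITTM
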