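import Mathlib
import Pool.Agent.H81.ITTM.Code

/-!
# The final snapshot of the network is not recognizable
-/

set_option autoImplicit false

namespace Pool.Agent.H81.ITTM

open Ordinal

open Classical in
/-- The final snapshot: bits that are `1` at unboundedly many stages. -/
noncomputable def xG : ℕ → Bool := fun i => decide (∀ β : Ordinal.{0}, ∃ γ, β ≤ γ ∧ X γ i = true)

theorem xG_iff (i : ℕ) : xG i = true ↔ ∀ β : Ordinal.{0}, ∃ γ, β ≤ γ ∧ X γ i = true := by
  unfold xG
  rw [@decide_eq_true_iff _ (Classical.propDecidable _)]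

theorem exists_bound : ∃ β : Ordinal.{0}, ∀ γ, β ≤ γ → ∀ i, X γ i = true → xG i = true := by
  have h : ∀ i, ∃ β : Ordinal.{0}, ∀ γ, β ≤ γ → X γ i = true → xG i = true := by
    intro i
    by_cases hi : xG i = true
    · exact ⟨0, fun _ _ _ => hi⟩
    · have h2 := hi
      rw [xG_iff] at h2
      push Not at h2
      obtain ⟨β, hβ⟩ := h2
      exact ⟨β, fun γ hγ h3 => absurd h3 (hβ γ hγ)⟩
  choose b hb using h
  exact ⟨⨆ i, b i, fun γ hγ i hi => hb i γ ((Ordinal.le_iSup b i).trans hγ) hi⟩

theorem exists_next (a : Ordinal.{0}) : ∃ a' > a, ∀ i, xG i = true →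
    ∃ γ, a ≤ γ ∧ γ < a' ∧ X γ i = true := by
  have h : ∀ i, ∃ γ : Ordinal.{0}, xG i = true → a ≤ γ ∧ X γ i = true := by
    intro i
    by_cases hi : xG i = true
    · obtain ⟨γ, h1, h2⟩ := (xG_iff i).1 hi a
      exact ⟨γ, fun _ => ⟨h1, h2⟩⟩
    · exact ⟨0, fun h => absurd h hi⟩
  choose g hg using h
  refine ⟨max a (⨆ i, g i) + 1, lt_of_le_of_lt (le_max_left _ _) (lt_add_one _), ?_⟩
  intro i hi
  refine ⟨g i, (hg i hi).1, ?_, (hg i hi).2⟩
  exact lt_of_le_of_lt ((Ordinal.le_iSup g i).trans (le_max_right _ _)) (lt_add_one _)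

theorem exists_closure (δ : Ordinal.{0}) : ∃ α > δ, Order.IsSuccLimit α ∧ X α = xG := by
  obtain ⟨β0, hβ0⟩ := exists_bound
  choose nx hnx1 hnx2 using exists_next
  let a : ℕ → Ordinal.{0} := fun n => nx^[n] (max δ β0)
  have ha : ∀ n, a (n + 1) = nx (a n) := fun n => Function.iterate_succ_apply' _ _ _
  have hlt : ∀ n, a n < ⨆ n, a n := by
    intro n
    refine lt_of_lt_of_le ?_ (Ordinal.le_iSup a (n + 1))
    rw [ha]
    exact hnx1 _
  have hlim : Order.IsSuccLimit (⨆ n, a n) := by
    rw [Ordinal.isSuccLimit_iff]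
    refine ⟨?_, ?_⟩
    · intro h0
      have := hlt 0
      rw [h0] at this
      exact absurd this (not_lt.2 (zero_le))
    · apply Order.isSuccPrelimit_of_succ_lt
      intro b hb
      obtain ⟨n, hn⟩ := Ordinal.lt_iSup_iff.1 hb
      exact lt_of_le_of_lt (Order.succ_le_of_lt hn) (hlt n)
  refine ⟨⨆ n, a n, lt_of_le_of_lt (le_max_left _ _) (hlt 0), hlim, ?_⟩
  funext i
  by_cases hi : xG i = true
  · rw [hi, X_limit hlim]
    intro β hβ
    obtain ⟨n, hn⟩ := Ordinal.lt_iSup_iff.1 hβ
    obtain ⟨γ, h1, h2, h3⟩ := hnx2 (a n) i hi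
    refine ⟨γ, h2.trans ?_, hn.le.trans h1, h3⟩
    have := hlt (n + 1)
    rwa [ha] at this
  · have hi' : xG i = false := by simpa using hi
    rw [hi']
    refine X_limit_const hlim (hlt 0) ?_
    intro γ h1 _
    rw [← Bool.not_eq_true]
    intro h3
    exact hi (hβ0 γ (le_trans (le_max_right δ β0) h1) i h3)

/-- Latched bits. -/
theorem fin_mono {n : ℕ} {γ γ' : Ordinal.{0}} (h : γ ≤ γ') (hf : fin (X γ) n = true) :
    fin (X γ') n = true := by
  induction γ' using Ordinal.limitRecOn with
  | zero =>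
    have : γ = 0 := le_antisymm h (zero_le)
    rw [← this]; exact hf
  | add_one σ ih =>
    rcases eq_or_lt_of_le h with h1 | h1
    · rw [← h1]; exact hf
    · have h2 : γ ≤ σ := by
        rw [← Order.lt_succ_iff, Order.succ_eq_add_one]; exact h1
      rw [X_add_one, fin_G]
      unfold updFin
      rw [ih h2]; rfl
  | limit o ho ih =>
    rcases eq_or_lt_of_le h with h1 | h1
    · rw [← h1]; exact hf
    · exact X_limit_const (s := γ) ho h1 (fun γ' h2 h3 => ih γ' h3 h2)

theorem fr_one (n : ℕ) : fr (X 1) n = true := by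
  have : X 1 = G (X 0) := by
    rw [← X_add_one, zero_add]
  rw [this, fr_G]
  unfold updF
  rw [(stB_X 0).2 rfl]; rfl

/-- The last free stage. -/
theorem exists_last_free (n : ℕ) (γ' : Ordinal.{0}) (h1 : 1 ≤ γ') :
    ∃ s ≤ γ', fr (X s) n = true ∧ ∀ γ, s < γ → γ ≤ γ' → fr (X γ) n = false := by
  by_contra hcon
  push Not at hcon
  -- build: the sup of the set of free stages up to γ'
  let S : Set Ordinal.{0} := {s | s ≤ γ' ∧ fr (X s) n = true}
  have hne : S.Nonempty := ⟨1, h1, fr_one n⟩
  have hbdd : BddAbove S := ⟨γ', fun s hs => hs.1⟩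
  have hle : sSup S ≤ γ' := csSup_le hne (fun s hs => hs.1)
  have hmem : fr (X (sSup S)) n = true := by
    by_contra hf
    have hnot : sSup S ∉ S := fun h => hf h.2
    have hlt : ∀ s ∈ S, s < sSup S := fun s hs =>
      lt_of_le_of_ne (le_csSup hbdd hs) (fun h => hnot (h ▸ hs))
    have hlim : Order.IsSuccLimit (sSup S) := by
      rw [Ordinal.isSuccLimit_iff]
      refine ⟨?_, ?_⟩
      · intro h0
        have := hlt 1 ⟨h1, fr_one n⟩
        rw [h0] at this
        exact absurd this (not_lt.2 (zero_le))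
      · apply Order.isSuccPrelimit_of_succ_lt
        intro b hb
        obtain ⟨s, hs, hbs⟩ := exists_lt_of_lt_csSup hne hb
        exact lt_of_le_of_lt (Order.succ_le_of_lt hbs) (hlt s hs)
    apply hf
    unfold fr
    rw [X_limit hlim]
    intro β hβ
    obtain ⟨s, hs, hbs⟩ := exists_lt_of_lt_csSup hne hβ
    exact ⟨s, hlt s hs, hbs.le, hs.2⟩
  obtain ⟨γ, h2, h3, h4⟩ := hcon (sSup S) hle hmem
  simp only [ne_eq, Bool.not_eq_false] at h4
  exact absurd (le_csSup hbdd ⟨h3, h4⟩) (not_le.2 h2)

/-- If `s` is a free stage whose successor is not free, then `s` is a limit. -/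
theorem limit_of_free {n : ℕ} {s : Ordinal.{0}} (h1 : fr (X s) n = true)
    (h2 : fr (X (s + 1)) n = false) : Order.IsSuccLimit s := by
  rw [X_add_one, fr_G] at h2
  unfold updF at h2
  rw [← limB_X]
  rw [h1] at h2
  simp only [Bool.and_true, Bool.or_eq_false_iff, Bool.not_eq_false'] at h2
  exact h2.2.1

theorem not_recognizable : ¬ Recognizable xG := by
  rintro ⟨N, p, hp⟩
  let n : ℕ := Encodable.encode (codeOf p)
  have hn : cd n = codeOf p := cd_encode _
  -- runs
  have hrun : ∀ s : Ordinal.{0}, Order.IsSuccLimit s → fr (X s) n = true →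
      ∃ Θ : Ordinal.{0}, (∀ θ ≤ Θ, Mt (X (s + θ)) n ((nmach (cd n)).run (X s) θ)) ∧
        (∀ θ < Θ, doneB (X (s + θ)) n = false) ∧
        (∀ θ ≤ Θ, θ ≠ 0 → fr (X (s + θ)) n = false) ∧
        fr (X (s + Θ + 1)) n = true ∧
        (X s = xG → fin (X (s + Θ + 1)) n = true) ∧
        (eT (X (s + Θ)) n 2 0 = true → X s = xG) := by
    intro s hs hfr
    obtain ⟨τ, hτ1, hτ2⟩ := hp (X s)
    obtain ⟨Θ, h1, h2, h3⟩ := halts_code p (X s) τ hτ1
    rw [← hn] at h1 h2 h3
    have hm := run_match hs n hfr Θ h1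
    have hd := run_done hs n hfr Θ h1 h2
    refine ⟨Θ, fun θ hθ => (hm θ hθ).1, ?_, fun θ hθ => (hm θ hθ).2.1, hd.1, ?_, ?_⟩
    · intro θ hθ
      rw [← Bool.not_eq_true]
      intro hdn
      unfold doneB at hdn
      rw [(hm θ hθ.le).1.hd] at hdn
      simp only [Bool.and_eq_true, decide_eq_true_eq] at hdn
      exact h1 θ hθ hdn
    · intro hx
      rw [hd.2, h3, hτ2.2 hx, Bool.or_true]
    · intro hx
      rw [(hm Θ le_rfl).1.out, h3] at hx
      exact hτ2.1 hx
  -- the acceptance bit is never set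
  have hfin : ∀ γ, fin (X γ) n = false := by
    by_contra hcon
    push Not at hcon
    obtain ⟨γ0, hγ0⟩ := hcon
    simp only [ne_eq, Bool.not_eq_false] at hγ0
    have hex : ∃ γ, fin (X γ) n = true := ⟨γ0, hγ0⟩
    let S : Set Ordinal.{0} := {γ | fin (X γ) n = true}
    have hwf := WellFounded.has_min (wellFounded_lt (α := Ordinal.{0})) S hex
    obtain ⟨γ, hγ, hmin⟩ := hwf
    have hmin' : ∀ γ' < γ, fin (X γ') n = false := by
      intro γ' h1
      rw [← Bool.not_eq_true]
      exact fun h2 => hmin γ' h2 h1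
    have hxfin : xG (nm 2 n 0 0) = true := by
      rw [xG_iff]
      intro β
      exact ⟨max β γ, le_max_left _ _, fin_mono (le_max_right β γ) hγ⟩
    rcases zero_or_add_one_or_limit γ with h0 | ⟨γ', rfl⟩ | hl
    · rw [h0] at hγ
      change fin (X 0) n = true at hγ
      rw [X_zero] at hγ
      simp [fin] at hγ
    · have hγ'f := hmin' γ' (lt_add_one γ')
      have h1 : updFin (X γ') n = true := by
        rw [← fin_G, ← X_add_one]; exact hγ
      unfold updFin at h1
      rw [hγ'f, Bool.false_or, Bool.and_eq_true, Bool.and_eq_true] at h1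
      obtain ⟨h2, h3, h4⟩ := h1
      have hge1 : 1 ≤ γ' := by
        rw [Order.one_le_iff_ne_zero]
        rintro rfl
        unfold doneB eH at h3
        have : limB (X 0) = false := by
          rw [← Bool.not_eq_true, limB_X]
          exact Ordinal.not_isSuccLimit_zero
        rw [this, cond_false, X_zero] at h3
        simp [hB] at h3
      obtain ⟨s, hs1, hs2, hs3⟩ := exists_last_free n γ' hge1
      have hslim : Order.IsSuccLimit s := by
        rcases eq_or_lt_of_le hs1 with h5 | h5
        · subst h5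
          rw [hs2] at h2
          simp only [Bool.not_true, Bool.or_false] at h2
          exact (limB_X _).1 h2
        · exact limit_of_free hs2 (hs3 _ (lt_add_one s)
            (by rw [← Order.succ_eq_add_one]; exact Order.succ_le_of_lt h5))
      obtain ⟨Θ, g1, g2, g3, g4, g5, g6⟩ := hrun s hslim hs2
      obtain ⟨θ, rfl⟩ : ∃ θ, γ' = s + θ := ⟨γ' - s, (Ordinal.add_sub_cancel_of_le hs1).symm⟩
      have hθΘ : θ = Θ := by
        rcases lt_trichotomy θ Θ with h5 | h5 | h5
        · rw [g2 θ h5] at h3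
          exact absurd h3 (by simp)
        · exact h5
        · have h6 := hs3 (s + Θ + 1) (lt_of_le_of_lt le_self_add (lt_add_one _)) (by
            rw [add_assoc]
            gcongr
            rw [← Order.succ_eq_add_one]; exact Order.succ_le_of_lt h5)
          rw [g4] at h6
          exact absurd h6 (by simp)
      rw [hθΘ] at h4
      have hXs := g6 h4
      have h7 := hmin' s (lt_of_le_of_lt hs1 (lt_add_one _))
      unfold fin at h7
      rw [hXs, hxfin] at h7
      exact absurd h7 (by simp)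
    · have : fin (X γ) n = false := by
        refine X_limit_const (s := 0) hl hl.bot_lt (fun γ' _ h3 => hmin' γ' h3)
      change fin (X γ) n = true at hγ
      rw [this] at hγ
      exact absurd hγ (by simp)
  -- free stages are unbounded
  have hfree : xG (nm 1 n 0 0) = true := by
    rw [xG_iff]
    by_contra hcon
    push Not at hcon
    obtain ⟨β, hβ⟩ := hcon
    obtain ⟨s, hs1, hs2, hs3⟩ := exists_last_free n (max β 1) (le_max_right _ _)
    have hs4 : ∀ γ, s < γ → fr (X γ) n = false := by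
      intro γ h1
      rcases le_total γ (max β 1) with h2 | h2
      · exact hs3 γ h1 h2
      · have := hβ γ ((le_max_left _ _).trans h2)
        simpa [fr] using this
    have hslim := limit_of_free hs2 (hs4 _ (lt_add_one s))
    obtain ⟨Θ, g1, g2, g3, g4, g5, g6⟩ := hrun s hslim hs2
    have := hs4 (s + Θ + 1) (lt_of_le_of_lt le_self_add (lt_add_one _))
    rw [g4] at this
    exact absurd this (by simp)
  -- a stage where the snapshot is `xG`
  obtain ⟨α, _, hα, hX⟩ := exists_closure 0
  have hfr : fr (X α) n = true := by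
    unfold fr
    rw [hX]
    exact hfree
  obtain ⟨Θ, g1, g2, g3, g4, g5, g6⟩ := hrun α hα hfr
  have g7 := g5 hX
  rw [hfin] at g7
  exact absurd g7 (by simp)

end Pool.Agent.H81.ITTM
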