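import Mathlib
import Pool.Agent.H81.ITTM.Diag

/-!
# A network which halts exactly on the final snapshot of `G`
-/

set_option autoImplicit false

namespace Pool.Agent.H81.ITTM

open Ordinal

def pL (C : ℕ → Bool) : Bool := C (Nat.pair 0 1) && C (Nat.pair 0 2)
def pSt (C : ℕ → Bool) : Bool := !(C (Nat.pair 0 1)) && !(C (Nat.pair 0 2))
def e2 (y C : ℕ → Bool) (j : ℕ) : Bool := bif pSt C then y j else C (Nat.pair 2 j)

/-- The network `PF y`. -/
def PF (y C : ℕ → Bool) (i : ℕ) : Bool :=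
  if i.unpair.1 = 0 then
    (if i.unpair.2 = 0 then C (Nat.pair 0 0) || (C (Nat.pair 0 3) && C (Nat.pair 0 4))
    else if i.unpair.2 = 1 then !(C (Nat.pair 0 1) && !(C (Nat.pair 0 2)))
    else if i.unpair.2 = 2 then C (Nat.pair 0 1) && !(C (Nat.pair 0 2))
    else if i.unpair.2 = 3 then C (Nat.pair 0 3) || (pL C && !(C (Nat.pair 3 0)))
    else if i.unpair.2 = 4 then
      C (Nat.pair 0 4) || (pL C && (!(C (Nat.pair 4 0)) && !(C (Nat.pair 5 0))))
    else false)
  else if i.unpair.1 = 1 then G (fun j => C (Nat.pair 1 j)) i.unpair.2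
  else if i.unpair.1 = 2 then G (fun j => e2 y C j) i.unpair.2
  else if i.unpair.1 = 3 then
    (bif pL C || pSt C then xor (C (Nat.pair 1 i.unpair.2)) (y i.unpair.2)
      else C (Nat.pair 3 i.unpair.2) || C (Nat.pair 3 (i.unpair.2 + 1)))
  else if i.unpair.1 = 4 then
    (bif pSt C then true else
      bif pL C then xor (C (Nat.pair 2 i.unpair.2)) (y i.unpair.2)
      else C (Nat.pair 4 i.unpair.2) || C (Nat.pair 4 (i.unpair.2 + 1)))
  else if i.unpair.1 = 5 then
    C (Nat.pair 5 i.unpair.2) || (C (Nat.pair 5 (i.unpair.2 + 1)) ||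
      (e2 y C i.unpair.2 && !(y i.unpair.2)))
  else false

variable (y : ℕ → Bool)

/-- The run of the network. -/
noncomputable def Zs (σ : Ordinal.{0}) : ℕ → Bool := it (PF y) (fun _ => false) σ

theorem Zs_add_one (σ : Ordinal.{0}) : Zs y (σ + 1) = PF y (Zs y σ) := it_add_one _ _ _

theorem Zs_zero : Zs y 0 = fun _ => false := it_zero _ _

theorem Zs_limit {o : Ordinal.{0}} (ho : Order.IsSuccLimit o) (k : ℕ) :
    Zs y o k = true ↔ ∀ β < o, ∃ γ < o, β ≤ γ ∧ Zs y γ k = true := it_limit _ _ ho k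

theorem Zs_limit_false {o : Ordinal.{0}} (ho : Order.IsSuccLimit o) (k : ℕ) :
    Zs y o k = false ↔ ∃ β < o, ∀ γ < o, β ≤ γ → Zs y γ k = false := it_limit_false _ _ ho k

theorem Zs_limit_const {o s : Ordinal.{0}} (ho : Order.IsSuccLimit o) {k : ℕ}
    {v : Bool} (hs : s < o) (h : ∀ γ, s ≤ γ → γ < o → Zs y γ k = v) : Zs y o k = v := by
  rw [Bool.eq_iff_iff, Zs_limit y ho]
  exact (bool_limit_const hs h).symm

theorem pL_Zs (σ : Ordinal.{0}) : pL (Zs y σ) = true ↔ Order.IsSuccLimit σ :=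
  flip_lim_iff (PF y) (fun _ => false) (Nat.pair 0 1) (Nat.pair 0 2) (fun C => by simp [PF])
    (fun C => by simp [PF]) rfl σ

theorem pSt_Zs (σ : Ordinal.{0}) : pSt (Zs y σ) = true ↔ σ = 0 :=
  flip_st_iff (PF y) (fun _ => false) (Nat.pair 0 1) (Nat.pair 0 2) (fun C => by simp [PF])
    (fun C => by simp [PF]) rfl rfl σ

theorem pL_succ (σ : Ordinal.{0}) : pL (Zs y (σ + 1)) = false := by
  rw [← Bool.not_eq_true, pL_Zs]
  exact not_isSuccLimit_add_one σ

theorem add_one_ne_zero' (σ : Ordinal.{0}) : σ + 1 ≠ 0 := by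
  intro h
  have : σ < 0 := by rw [← h]; exact lt_add_one σ
  exact absurd this (not_lt.2 (zero_le))

theorem pSt_succ (σ : Ordinal.{0}) : pSt (Zs y (σ + 1)) = false := by
  rw [← Bool.not_eq_true, pSt_Zs]
  exact add_one_ne_zero' σ

theorem limit_congr {o s : Ordinal.{0}} {f g : Ordinal.{0} → Bool} (hs : s < o)
    (h : ∀ γ, s ≤ γ → γ < o → f γ = g γ) :
    (∀ β < o, ∃ γ < o, β ≤ γ ∧ f γ = true) ↔ (∀ β < o, ∃ γ < o, β ≤ γ ∧ g γ = true) := by
  constructor
  · intro h1 β hβ
    obtain ⟨γ, h2, h3, h4⟩ := h1 (max s β) (max_lt hs hβ)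
    exact ⟨γ, h2, (le_max_right _ _).trans h3, by rw [← h γ ((le_max_left _ _).trans h3) h2, h4]⟩
  · intro h1 β hβ
    obtain ⟨γ, h2, h3, h4⟩ := h1 (max s β) (max_lt hs hβ)
    exact ⟨γ, h2, (le_max_right _ _).trans h3, by rw [h γ ((le_max_left _ _).trans h3) h2, h4]⟩

theorem Zs_C1 (σ : Ordinal.{0}) : (fun j => Zs y σ (Nat.pair 1 j)) = X σ := by
  induction σ using Ordinal.limitRecOn with
  | zero => rw [Zs_zero, X_zero]
  | add_one σ ih =>
    funext j
    rw [Zs_add_one, X_add_one, ← ih]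
    simp [PF]
  | limit o ho ih =>
    funext j
    rw [Bool.eq_iff_iff, Zs_limit y ho, X_limit ho]
    refine limit_congr (s := 0) ho.bot_lt (fun γ _ h => ?_)
    rw [← ih γ h]

theorem Zs_C1' (σ : Ordinal.{0}) (j : ℕ) : Zs y σ (Nat.pair 1 j) = X σ j := by
  rw [← Zs_C1 y σ]

theorem Zs_C2 (σ : Ordinal.{0}) : (fun j => e2 y (Zs y σ) j) = it G y σ := by
  induction σ using Ordinal.limitRecOn with
  | zero =>
    funext j
    unfold e2
    rw [(pSt_Zs y 0).2 rfl, it_zero, cond_true]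
  | add_one σ ih =>
    funext j
    unfold e2
    rw [pSt_succ, cond_false, it_add_one, ← ih, Zs_add_one]
    simp [PF]
  | limit o ho ih =>
    funext j
    have h0 : pSt (Zs y o) = false := by
      rw [← Bool.not_eq_true, pSt_Zs]
      exact ho.ne_bot
    unfold e2
    rw [h0, cond_false, Bool.eq_iff_iff, Zs_limit y ho, it_limit _ _ ho]
    refine limit_congr (s := 1) (Ordinal.one_lt_of_isSuccLimit ho) (fun γ h1 h => ?_)
    rw [← ih γ h]
    have h3 : pSt (Zs y γ) = false := by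
      rw [← Bool.not_eq_true, pSt_Zs]
      rintro rfl
      simp at h1
    show Zs y γ (Nat.pair 2 j) = bif pSt (Zs y γ) then y j else Zs y γ (Nat.pair 2 j)
    rw [h3, cond_false]

theorem Zs_C2' (σ : Ordinal.{0}) (j : ℕ) : e2 y (Zs y σ) j = it G y σ j := by
  rw [← Zs_C2 y σ]

theorem Zs_C2'' {σ : Ordinal.{0}} (hσ : σ ≠ 0) (j : ℕ) :
    Zs y σ (Nat.pair 2 j) = it G y σ j := by
  rw [← Zs_C2' y σ]
  unfold e2
  have h3 : pSt (Zs y σ) = false := by
    rw [← Bool.not_eq_true, pSt_Zs]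
    exact hσ
  rw [h3, cond_false]

theorem PF_four (C : ℕ → Bool) (h1 : pL C = false) (h2 : pSt C = false) (k : ℕ) :
    PF y C (Nat.pair 4 k) = (C (Nat.pair 4 k) || C (Nat.pair 4 (k + 1))) := by
  simp [PF, h1, h2]

/-- Mismatch propagation in the first copy. -/
theorem Zs_M1 {l : Ordinal.{0}} (hl : l = 0 ∨ Order.IsSuccLimit l) (m k : ℕ) :
    Zs y (l + 1 + m) (Nat.pair 3 k) = true ↔ ∃ i ≤ m, X l (k + i) ≠ y (k + i) := by
  induction m generalizing k with
  | zero =>
    rw [Nat.cast_zero, add_zero, Zs_add_one]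
    have hc : (pL (Zs y l) || pSt (Zs y l)) = true := by
      rcases hl with h | h
      · rw [(pSt_Zs y l).2 h, Bool.or_true]
      · rw [(pL_Zs y l).2 h, Bool.true_or]
    simp [PF, hc, Zs_C1']
  | succ m ih =>
    rw [Nat.cast_succ, ← add_assoc, Zs_add_one]
    have h1 : pL (Zs y (l + 1 + m)) = false := by
      rcases m with _ | m
      · simp [pL_succ]
      · rw [Nat.cast_succ, ← add_assoc]; exact pL_succ y _
    have h2 : pSt (Zs y (l + 1 + m)) = false := by
      rcases m with _ | m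
      · simp [pSt_succ]
      · rw [Nat.cast_succ, ← add_assoc]; exact pSt_succ y _
    have h3 : PF y (Zs y (l + 1 + m)) (Nat.pair 3 k) =
        (Zs y (l + 1 + m) (Nat.pair 3 k) || Zs y (l + 1 + m) (Nat.pair 3 (k + 1))) := by
      simp [PF, h1, h2]
    rw [h3, Bool.or_eq_true, ih, ih]
    constructor
    · rintro (⟨i, h4, h5⟩ | ⟨i, h4, h5⟩)
      · exact ⟨i, by omega, h5⟩
      · exact ⟨i + 1, by omega, by rwa [show k + (i + 1) = k + 1 + i by ring]⟩
    · rintro ⟨i, h4, h5⟩
      rcases i with _ | i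
      · exact Or.inl ⟨0, by omega, h5⟩
      · exact Or.inr ⟨i, by omega, by rwa [show k + 1 + i = k + (i + 1) by ring]⟩

/-- Mismatch propagation in the second copy. -/
theorem Zs_M2 {l : Ordinal.{0}} (hl : Order.IsSuccLimit l) (m k : ℕ) :
    Zs y (l + 1 + m) (Nat.pair 4 k) = true ↔ ∃ i ≤ m, it G y l (k + i) ≠ y (k + i) := by
  induction m generalizing k with
  | zero =>
    rw [Nat.cast_zero, add_zero, Zs_add_one]
    have hc : pL (Zs y l) = true := (pL_Zs y l).2 hl
    have hc2 : pSt (Zs y l) = false := by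
      rw [← Bool.not_eq_true, pSt_Zs]
      exact hl.ne_bot
    simp [PF, hc, hc2, Zs_C2'' y hl.ne_bot]
  | succ m ih =>
    rw [Nat.cast_succ, ← add_assoc, Zs_add_one]
    have h1 : pL (Zs y (l + 1 + m)) = false := by
      rcases m with _ | m
      · simp [pL_succ]
      · rw [Nat.cast_succ, ← add_assoc]; exact pL_succ y _
    have h2 : pSt (Zs y (l + 1 + m)) = false := by
      rcases m with _ | m
      · simp [pSt_succ]
      · rw [Nat.cast_succ, ← add_assoc]; exact pSt_succ y _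
    have h3 : PF y (Zs y (l + 1 + m)) (Nat.pair 4 k) =
        (Zs y (l + 1 + m) (Nat.pair 4 k) || Zs y (l + 1 + m) (Nat.pair 4 (k + 1))) := by
      simp [PF, h1, h2]
    rw [h3, Bool.or_eq_true, ih, ih]
    constructor
    · rintro (⟨i, h4, h5⟩ | ⟨i, h4, h5⟩)
      · exact ⟨i, by omega, h5⟩
      · exact ⟨i + 1, by omega, by rwa [show k + (i + 1) = k + 1 + i by ring]⟩
    · rintro ⟨i, h4, h5⟩
      rcases i with _ | i
      · exact Or.inl ⟨0, by omega, h5⟩
      · exact Or.inr ⟨i, by omega, by rwa [show k + 1 + i = k + (i + 1) by ring]⟩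

theorem Zs_M2_zero (m k : ℕ) : Zs y (0 + 1 + m) (Nat.pair 4 k) = true := by
  induction m generalizing k with
  | zero =>
    rw [Nat.cast_zero, add_zero, Zs_add_one]
    have hc2 : pSt (Zs y 0) = true := (pSt_Zs y 0).2 rfl
    simp [PF, hc2]
  | succ m ih =>
    rw [Nat.cast_succ, ← add_assoc, Zs_add_one]
    have h1 : pL (Zs y (0 + 1 + m)) = false := by
      rcases m with _ | m
      · rw [Nat.cast_zero, add_zero]; exact pL_succ y 0
      · rw [Nat.cast_succ, ← add_assoc]; exact pL_succ y _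
    have h2 : pSt (Zs y (0 + 1 + m)) = false := by
      rcases m with _ | m
      · rw [Nat.cast_zero, add_zero]; exact pSt_succ y 0
      · rw [Nat.cast_succ, ← add_assoc]; exact pSt_succ y _
    rw [PF_four y _ h1 h2, ih, Bool.true_or]

/-- The violation bits. -/
theorem Zs_V_succ (σ : Ordinal.{0}) (k : ℕ) : Zs y (σ + 1) (Nat.pair 5 k) =
    (Zs y σ (Nat.pair 5 k) || (Zs y σ (Nat.pair 5 (k + 1)) || (it G y σ k && !(y k)))) := by
  rw [Zs_add_one, ← Zs_C2']
  simp [PF]

/-- Latched bits of the network. -/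
theorem Zs_latch (a : ℕ) (ha : ∀ σ, Zs y σ a = true → Zs y (σ + 1) a = true)
    {γ γ' : Ordinal.{0}} (h : γ ≤ γ') (hf : Zs y γ a = true) : Zs y γ' a = true := by
  induction γ' using Ordinal.limitRecOn with
  | zero =>
    have : γ = 0 := le_antisymm h (zero_le)
    rw [← this]; exact hf
  | add_one σ ih =>
    rcases eq_or_lt_of_le h with h1 | h1
    · rw [← h1]; exact hf
    · have h2 : γ ≤ σ := by
        rw [← Order.lt_succ_iff, Order.succ_eq_add_one]; exact h1
      exact ha _ (ih h2)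
  | limit o ho ih =>
    rcases eq_or_lt_of_le h with h1 | h1
    · rw [← h1]; exact hf
    · exact Zs_limit_const y (s := γ) ho h1 (fun γ' h2 h3 => ih γ' h3 h2)

theorem Zs_V_latch (k : ℕ) {γ γ' : Ordinal.{0}} (h : γ ≤ γ')
    (hf : Zs y γ (Nat.pair 5 k) = true) : Zs y γ' (Nat.pair 5 k) = true :=
  Zs_latch y _ (fun σ h => by rw [Zs_V_succ, h]; rfl) h hf

theorem Zs_V_prop (m : ℕ) : ∀ (k : ℕ) (σ : Ordinal.{0}), Zs y σ (Nat.pair 5 (k + m)) = true →
    Zs y (σ + m) (Nat.pair 5 k) = true := by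
  induction m with
  | zero => intro k σ h; simpa using h
  | succ m ih =>
    intro k σ h
    have h1 : Zs y (σ + m) (Nat.pair 5 (k + 1)) = true := by
      apply ih (k + 1) σ
      rwa [show k + 1 + m = k + (m + 1) by ring]
    rw [Nat.cast_succ, ← add_assoc, Zs_V_succ, h1]
    simp

theorem Zs_no_violation {o : Ordinal.{0}} (ho : Order.IsSuccLimit o)
    (h : Zs y o (Nat.pair 5 0) = false) {γ : Ordinal.{0}} (hγ : γ < o) (i : ℕ)
    (hi : it G y γ i = true) : y i = true := by
  by_contra hy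
  simp only [Bool.not_eq_true] at hy
  have h1 : Zs y (γ + 1) (Nat.pair 5 i) = true := by
    rw [Zs_V_succ, hi, hy]; simp
  have h2 : Zs y (γ + 1 + i) (Nat.pair 5 0) = true := by
    apply Zs_V_prop
    rwa [zero_add]
  have h3 : γ + 1 + i < o := add_nat_lt_limit ho (ho.add_one_lt hγ) i
  rw [Zs_V_latch y 0 h3.le h2] at h
  exact absurd h (by simp)

theorem Zs_s1_succ (σ : Ordinal.{0}) : Zs y (σ + 1) (Nat.pair 0 3) =
    (Zs y σ (Nat.pair 0 3) || (pL (Zs y σ) && !(Zs y σ (Nat.pair 3 0)))) := by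
  rw [Zs_add_one]
  simp [PF]

theorem Zs_s2_succ (σ : Ordinal.{0}) : Zs y (σ + 1) (Nat.pair 0 4) =
    (Zs y σ (Nat.pair 0 4) || (pL (Zs y σ) &&
      (!(Zs y σ (Nat.pair 4 0)) && !(Zs y σ (Nat.pair 5 0))))) := by
  rw [Zs_add_one]
  simp [PF]

theorem Zs_h_succ (σ : Ordinal.{0}) : Zs y (σ + 1) 0 =
    (Zs y σ 0 || (Zs y σ (Nat.pair 0 3) && Zs y σ (Nat.pair 0 4))) := by
  rw [Zs_add_one]
  have h0 : Nat.pair 0 0 = 0 := rfl
  simp [PF, h0]

/-- If a bit is `0` at a limit stage, it is `0` on a final part of some block. -/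
theorem block_false {σ : Ordinal.{0}} (hσ : Order.IsSuccLimit σ) (a : ℕ)
    (h : Zs y σ a = false) : ∃ (l : Ordinal.{0}) (m : ℕ), (l = 0 ∨ Order.IsSuccLimit l) ∧
      l < σ ∧ ∀ m' ≥ m, Zs y (l + 1 + m') a = false := by
  rw [Zs_limit_false y hσ] at h
  obtain ⟨β, hβ, h1⟩ := h
  obtain ⟨l, m, hl, rfl⟩ := exists_limit_add_nat β
  have hlσ : l < σ := lt_of_le_of_lt le_self_add hβ
  refine ⟨l, m, hl, hlσ, ?_⟩
  intro m' hm'
  apply h1
  · exact add_nat_lt_limit hσ (hσ.add_one_lt hlσ) m'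
  · have : (m : Ordinal.{0}) ≤ 1 + m' := by
      have : ((m : ℕ) : Ordinal.{0}) ≤ ((1 + m' : ℕ) : Ordinal.{0}) := by
        exact_mod_cast (by omega : m ≤ 1 + m')
      simpa using this
    rw [add_assoc]
    gcongr

theorem s1_sound (σ : Ordinal.{0}) (h : Zs y σ (Nat.pair 0 3) = true) : ∃ γ, X γ = y := by
  induction σ using Ordinal.limitRecOn with
  | zero => rw [Zs_zero] at h; exact absurd h (by simp)
  | add_one σ ih =>
    rw [Zs_s1_succ, Bool.or_eq_true] at h
    rcases h with h | h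
    · exact ih h
    · rw [Bool.and_eq_true] at h
      have hσ := (pL_Zs y σ).1 h.1
      have h2 : Zs y σ (Nat.pair 3 0) = false := by simpa using h.2
      obtain ⟨l, m, hl, _, h3⟩ := block_false y hσ _ h2
      refine ⟨l, ?_⟩
      funext i
      by_contra hne
      have := (Zs_M1 y hl (max m i) 0).2 ⟨i, le_max_right _ _, by simpa using hne⟩
      rw [h3 _ (le_max_left _ _)] at this
      exact absurd this (by simp)
  | limit o ho ih =>
    obtain ⟨γ, h1, _, h2⟩ := (Zs_limit y ho _).1 h 0 ho.bot_lt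
    exact ih γ h1 h2

theorem s2_sound (σ : Ordinal.{0}) (h : Zs y σ (Nat.pair 0 4) = true) :
    ∃ l, 0 < l ∧ it G y l = y ∧ ∀ γ ≤ l, ∀ i, it G y γ i = true → y i = true := by
  induction σ using Ordinal.limitRecOn with
  | zero => rw [Zs_zero] at h; exact absurd h (by simp)
  | add_one σ ih =>
    rw [Zs_s2_succ, Bool.or_eq_true] at h
    rcases h with h | h
    · exact ih h
    · rw [Bool.and_eq_true, Bool.and_eq_true] at h
      have hσ := (pL_Zs y σ).1 h.1
      have h2 : Zs y σ (Nat.pair 4 0) = false := by simpa using h.2.1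
      have hV : Zs y σ (Nat.pair 5 0) = false := by simpa using h.2.2
      obtain ⟨l, m, hl, hlσ, h3⟩ := block_false y hσ _ h2
      rcases hl with rfl | hl
      · have := h3 m le_rfl
        rw [Zs_M2_zero] at this
        exact absurd this (by simp)
      · refine ⟨l, hl.bot_lt, ?_, ?_⟩
        · funext i
          by_contra hne
          have := (Zs_M2 y hl (max m i) 0).2 ⟨i, le_max_right _ _, by simpa using hne⟩
          rw [h3 _ (le_max_left _ _)] at this
          exact absurd this (by simp)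
        · intro γ hγ i hi
          exact Zs_no_violation y hσ hV (lt_of_le_of_lt hγ hlσ) i hi
  | limit o ho ih =>
    obtain ⟨γ, h1, _, h2⟩ := (Zs_limit y ho _).1 h 0 ho.bot_lt
    exact ih γ h1 h2

theorem h_sound (σ : Ordinal.{0}) (h : Zs y σ 0 = true) :
    ∃ γ, Zs y γ (Nat.pair 0 3) = true ∧ Zs y γ (Nat.pair 0 4) = true := by
  induction σ using Ordinal.limitRecOn with
  | zero => rw [Zs_zero] at h; exact absurd h (by simp)
  | add_one σ ih =>
    rw [Zs_h_succ, Bool.or_eq_true] at h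
    rcases h with h | h
    · exact ih h
    · rw [Bool.and_eq_true] at h
      exact ⟨σ, h⟩
  | limit o ho ih =>
    obtain ⟨γ, h1, _, h2⟩ := (Zs_limit y ho _).1 h 0 ho.bot_lt
    exact ih γ h1 h2

/-- A strong loop persists forever. -/
theorem loop_forever {l : Ordinal.{0}} (hl0 : 0 < l) (hl : it G y l = y)
    (hle : ∀ γ ≤ l, ∀ i, it G y γ i = true → y i = true) (ξ : Ordinal.{0}) :
    it G y (l * ξ) = y ∧ ∀ γ ≤ l * ξ, ∀ i, it G y γ i = true → y i = true := by
  induction ξ using Ordinal.limitRecOn with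
  | zero =>
    rw [mul_zero, it_zero]
    refine ⟨rfl, ?_⟩
    intro γ hγ i hi
    have : γ = 0 := le_antisymm hγ (zero_le)
    rw [this, it_zero] at hi
    exact hi
  | add_one ξ ih =>
    rw [mul_add_one]
    constructor
    · rw [it_add, ih.1, hl]
    · intro γ hγ i hi
      rcases le_total γ (l * ξ) with h1 | h1
      · exact ih.2 γ h1 i hi
      · obtain ⟨γ', rfl⟩ : ∃ γ', γ = l * ξ + γ' :=
          ⟨γ - l * ξ, (Ordinal.add_sub_cancel_of_le h1).symm⟩
        rw [it_add, ih.1] at hi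
        exact hle γ' (by simpa using hγ) i hi
  | limit ξ hξ ih =>
    have hlim : Order.IsSuccLimit (l * ξ) := Ordinal.isSuccLimit_mul_right hl0 hξ
    have h1 : ∀ γ < l * ξ, ∀ i, it G y γ i = true → y i = true := by
      intro γ hγ i hi
      obtain ⟨ξ', h2, h3⟩ := (Ordinal.lt_mul_iff_of_isSuccLimit hξ).1 hγ
      exact (ih ξ' h2).2 γ h3.le i hi
    have h2 : it G y (l * ξ) = y := by
      funext i
      rw [Bool.eq_iff_iff, it_limit _ _ hlim]
      constructor
      · intro h
        obtain ⟨γ, h3, _, h4⟩ := h 0 hlim.bot_lt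
        exact h1 γ h3 i h4
      · intro h β hβ
        obtain ⟨ξ', h3, h4⟩ := (Ordinal.lt_mul_iff_of_isSuccLimit hξ).1 hβ
        refine ⟨l * ξ', ?_, h4.le, ?_⟩
        · exact mul_lt_mul_of_pos_left h3 hl0
        · rw [(ih ξ' h3).1]; exact h
    refine ⟨h2, ?_⟩
    intro γ hγ i hi
    rcases eq_or_lt_of_le hγ with h3 | h3
    · rw [h3, h2] at hi; exact hi
    · exact h1 γ h3 i hi

/-- A reachable strong loop snapshot is the final snapshot. -/
theorem eq_xG_of_loop {γ0 l : Ordinal.{0}} (h0 : X γ0 = y) (hl0 : 0 < l) (hl : it G y l = y)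
    (hle : ∀ γ ≤ l, ∀ i, it G y γ i = true → y i = true) : y = xG := by
  have hX : ∀ γ, X (γ0 + γ) = it G y γ := by
    intro γ
    unfold X
    rw [it_add]
    congr 1
  have hself : ∀ ξ : Ordinal.{0}, ξ ≤ l * ξ := fun ξ => Ordinal.le_mul_right ξ hl0
  funext i
  rw [Bool.eq_iff_iff, xG_iff]
  constructor
  · intro hi β
    refine ⟨γ0 + l * β, (hself β).trans le_add_self, ?_⟩
    rw [hX, (loop_forever y hl0 hl hle β).1]
    exact hi
  · intro h
    obtain ⟨γ, h1, h2⟩ := h γ0
    obtain ⟨γ', rfl⟩ : ∃ γ', γ = γ0 + γ' := ⟨γ - γ0, (Ordinal.add_sub_cancel_of_le h1).symm⟩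
    rw [hX] at h2
    exact (loop_forever y hl0 hl hle γ').2 γ' (hself γ') i h2

theorem PF_halts_iff (y : ℕ → Bool) :
    (∃ σ, it (PF y) (fun _ => false) σ 0 = true) ↔ y = xG := by
  constructor
  · rintro ⟨σ, hσ⟩
    obtain ⟨γ, h1, h2⟩ := h_sound y σ hσ
    obtain ⟨γ0, h3⟩ := s1_sound y γ h1
    obtain ⟨l, h4, h5, h6⟩ := s2_sound y γ h2
    exact eq_xG_of_loop y h3 h4 h5 h6
  · rintro rfl
    obtain ⟨β0, hβ0⟩ := exists_bound
    obtain ⟨α, hα1, hα2, hα3⟩ := exists_closure β0
    obtain ⟨α', hα'1, hα'2, hα'3⟩ := exists_closure α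
    have hX : ∀ γ, it G xG γ = X (α + γ) := by
      intro γ
      unfold X
      rw [it_add]
      congr 1
      exact hα3.symm
    -- first flag
    have hs1 : Zs xG (α + ω + 1) (Nat.pair 0 3) = true := by
      have hlim : Order.IsSuccLimit (α + ω) := Ordinal.isSuccLimit_add α Ordinal.isSuccLimit_omega0
      rw [Zs_s1_succ, (pL_Zs xG _).2 hlim]
      have : Zs xG (α + ω) (Nat.pair 3 0) = false := by
        refine Zs_limit_const xG (s := α + 1) hlim ?_ ?_
        · gcongr
          exact Ordinal.one_lt_omega0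
        · intro γ h1 h2
          obtain ⟨γ', rfl⟩ : ∃ γ', γ = α + 1 + γ' :=
            ⟨γ - (α + 1), (Ordinal.add_sub_cancel_of_le h1).symm⟩
          have h3 : γ' < ω := by
            rw [add_assoc] at h2
            have h4 : 1 + γ' < ω := by simpa using h2
            exact lt_of_le_of_lt le_add_self h4
          obtain ⟨m, rfl⟩ := Ordinal.lt_omega0.1 h3
          rw [← Bool.not_eq_true, Zs_M1 xG (Or.inr hα2), hα3]
          simp
      rw [this]
      simp
    -- second flag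
    obtain ⟨l, rfl⟩ : ∃ l, α' = α + l := ⟨α' - α, (Ordinal.add_sub_cancel_of_le hα'1.le).symm⟩
    have hl : Order.IsSuccLimit l := by
      have h1 : l ≠ 0 := by
        rintro rfl
        simp at hα'1
      rcases zero_or_add_one_or_limit l with h2 | ⟨τ, rfl⟩ | h2
      · exact absurd h2 h1
      · rw [← add_assoc] at hα'2
        exact absurd hα'2 (not_isSuccLimit_add_one _)
      · exact h2
    have hV : ∀ (σ : Ordinal.{0}) (k : ℕ), Zs xG σ (Nat.pair 5 k) = false := by
      intro σ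
      induction σ using Ordinal.limitRecOn with
      | zero => intro k; rw [Zs_zero]
      | add_one σ ih =>
        intro k
        rw [Zs_V_succ, ih, ih, Bool.false_or, Bool.false_or]
        by_cases h1 : it G xG σ k = true
        · have h2 : xG k = true := by
            rw [hX] at h1
            exact hβ0 (α + σ) (hα1.le.trans le_self_add) k h1
          rw [h2]; simp
        · simp only [Bool.not_eq_true] at h1
          rw [h1]; simp
      | limit o ho ih =>
        intro k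
        exact Zs_limit_const xG (s := 0) ho ho.bot_lt (fun γ _ h => ih γ h k)
    have hs2 : Zs xG (l + ω + 1) (Nat.pair 0 4) = true := by
      have hlim : Order.IsSuccLimit (l + ω) := Ordinal.isSuccLimit_add l Ordinal.isSuccLimit_omega0
      rw [Zs_s2_succ, (pL_Zs xG _).2 hlim]
      have : Zs xG (l + ω) (Nat.pair 4 0) = false := by
        refine Zs_limit_const xG (s := l + 1) hlim ?_ ?_
        · gcongr
          exact Ordinal.one_lt_omega0
        · intro γ h1 h2
          obtain ⟨γ', rfl⟩ : ∃ γ', γ = l + 1 + γ' :=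
            ⟨γ - (l + 1), (Ordinal.add_sub_cancel_of_le h1).symm⟩
          have h3 : γ' < ω := by
            rw [add_assoc] at h2
            have h4 : 1 + γ' < ω := by simpa using h2
            exact lt_of_le_of_lt le_add_self h4
          obtain ⟨m, rfl⟩ := Ordinal.lt_omega0.1 h3
          rw [← Bool.not_eq_true, Zs_M2 xG hl, hX, hα'3]
          simp
      rw [this, hV]
      simp
    refine ⟨max (α + ω + 1) (l + ω + 1) + 1, ?_⟩
    change Zs xG _ 0 = true
    rw [Zs_h_succ]
    rw [Zs_latch xG (Nat.pair 0 3) (fun σ h => by rw [Zs_s1_succ, h]; rfl) (le_max_left _ _) hs1]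
    rw [Zs_latch xG (Nat.pair 0 4) (fun σ h => by rw [Zs_s2_succ, h]; rfl) (le_max_right _ _) hs2]
    simp

end Pool.Agent.H81.ITTM
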