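import Mathlib

/-!
# Primitive recursive functionals in a uniform normal form
-/

set_option autoImplicit false

namespace Pool.Agent.H81.ITTM

/-- The initial segment of length `m` of the oracle `O`. -/
def seg (O : ℕ → Bool) (m : ℕ) : List Bool := (List.range m).map O

theorem seg_getD (O : ℕ → Bool) (m k : ℕ) (h : k < m) : (seg O m).getD k false = O k := by
  unfold seg
  simp [List.getD_eq_getElem?_getD, h]

/-- Primitive recursive functionals: the value on oracle `O` and argument `a` is a primitive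
recursive function of `a` and of any sufficiently long initial segment of `O`. -/
def PRF {α σ : Type} [Primcodable α] [Primcodable σ] (f : (ℕ → Bool) → α → σ) : Prop :=
  ∃ (b : α → ℕ) (ψ : α → List Bool → σ), Primrec b ∧ Primrec₂ ψ ∧
    ∀ O a m, b a ≤ m → f O a = ψ a (seg O m)

section closure

variable {α β γ σ : Type} [Primcodable α] [Primcodable β] [Primcodable γ] [Primcodable σ]

theorem PRF.of_eq {f g : (ℕ → Bool) → α → σ} (hf : PRF f) (h : ∀ O a, f O a = g O a) : PRF g := by
  have : f = g := by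
    funext O a
    exact h O a
  rw [← this]
  exact hf

theorem PRF.pr {g : α → σ} (hg : Primrec g) : PRF (fun _ a => g a) :=
  ⟨fun _ => 0, fun a _ => g a, Primrec.const 0, hg.comp Primrec.fst, fun _ _ _ _ => rfl⟩

theorem PRF.query {g : α → ℕ} (hg : Primrec g) : PRF (fun O a => O (g a)) := by
  refine ⟨fun a => g a + 1, fun a l => l.getD (g a) false, Primrec.succ.comp hg, ?_, ?_⟩
  · exact (Primrec.list_getD false).comp Primrec.snd (hg.comp Primrec.fst)
  · intro O a m h
    beta_reduce at h ⊢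
    rw [seg_getD]
    omega

theorem PRF.comp₂ {f : (ℕ → Bool) → α → β} {g : (ℕ → Bool) → α → γ} {h : β → γ → σ}
    (hh : Primrec₂ h) (hf : PRF f) (hg : PRF g) : PRF (fun O a => h (f O a) (g O a)) := by
  obtain ⟨b1, ψ1, hb1, hψ1, h1⟩ := hf
  obtain ⟨b2, ψ2, hb2, hψ2, h2⟩ := hg
  refine ⟨fun a => b1 a + b2 a, fun a l => h (ψ1 a l) (ψ2 a l), Primrec.nat_add.comp hb1 hb2,
    hh.comp hψ1 hψ2, ?_⟩
  intro O a m hm
  beta_reduce at hm ⊢
  rw [h1 O a m (by omega), h2 O a m (by omega)]

theorem PRF.comp₁ {f : (ℕ → Bool) → α → β} {h : β → σ}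
    (hh : Primrec h) (hf : PRF f) : PRF (fun O a => h (f O a)) := by
  obtain ⟨b1, ψ1, hb1, hψ1, h1⟩ := hf
  refine ⟨b1, fun a l => h (ψ1 a l), hb1, hh.comp hψ1, ?_⟩
  intro O a m hm
  beta_reduce
  rw [h1 O a m hm]

theorem PRF.pre {f : (ℕ → Bool) → β → σ} {g : α → β} (hf : PRF f) (hg : Primrec g) :
    PRF (fun O a => f O (g a)) := by
  obtain ⟨b1, ψ1, hb1, hψ1, h1⟩ := hf
  refine ⟨fun a => b1 (g a), fun a l => ψ1 (g a) l, hb1.comp hg,
    hψ1.comp (hg.comp Primrec.fst) Primrec.snd, ?_⟩
  intro O a m hm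
  beta_reduce at hm ⊢
  rw [h1 O (g a) m hm]

theorem le_foldl_add (b : ℕ → ℕ) (l : List ℕ) (s : ℕ) :
    s ≤ l.foldl (fun s j => s + b j) s ∧ ∀ j ∈ l, b j ≤ l.foldl (fun s j => s + b j) s := by
  induction l generalizing s with
  | nil => simp
  | cons x l ih =>
    obtain ⟨h1, h2⟩ := ih (s + b x)
    constructor
    · simp only [List.foldl_cons]
      omega
    · intro j hj
      simp only [List.foldl_cons]
      rcases List.mem_cons.1 hj with rfl | hj
      · omega
      · exact h2 j hj

theorem PRF.map {f : (ℕ → Bool) → α × ℕ → σ} {n : α → ℕ} (hf : PRF f) (hn : Primrec n) :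
    PRF (fun O a => (List.range (n a)).map (fun j => f O (a, j))) := by
  obtain ⟨b1, ψ1, hb1, hψ1, h1⟩ := hf
  refine ⟨fun a => (List.range (n a)).foldl (fun s j => s + b1 (a, j)) 0,
    fun a l => (List.range (n a)).map (fun j => ψ1 (a, j) l), ?_, ?_, ?_⟩
  · refine Primrec.list_foldl (h := fun a p => p.1 + b1 (a, p.2)) (Primrec.list_range.comp hn)
      (Primrec.const 0) ?_
    exact Primrec.nat_add.comp (Primrec.fst.comp Primrec.snd)
      (hb1.comp (Primrec.pair Primrec.fst (Primrec.snd.comp Primrec.snd)))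
  · refine Primrec.list_map (f := fun p : α × List Bool => List.range (n p.1))
      (g := fun p j => ψ1 (p.1, j) p.2) (Primrec.list_range.comp (hn.comp Primrec.fst)) ?_
    exact hψ1.comp (Primrec.pair (Primrec.fst.comp Primrec.fst) Primrec.snd)
      (Primrec.snd.comp Primrec.fst)
  · intro O a m hm
    apply List.map_congr_left
    intro j hj
    refine h1 O (a, j) m (le_trans ?_ hm)
    exact (le_foldl_add (fun j => b1 (a, j)) (List.range (n a)) 0).2 j hj

/-- Substitution of a functional for the oracle. -/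
theorem PRF.subst {f : (ℕ → Bool) → α → σ} {h : (ℕ → Bool) → α × ℕ → Bool}
    (hf : PRF f) (hh : PRF h) : PRF (fun O a => f (fun k => h O (a, k)) a) := by
  obtain ⟨b1, ψ1, hb1, hψ1, h1⟩ := hf
  have h2 := (PRF.pr (α := α) Primrec.id).comp₂ hψ1 (hh.map hb1)
  refine h2.of_eq ?_
  intro O a
  rw [h1 (fun k => h O (a, k)) a (b1 a) le_rfl]
  rfl

theorem PRF.and {f g : (ℕ → Bool) → α → Bool} (hf : PRF f) (hg : PRF g) :
    PRF (fun O a => f O a && g O a) := PRF.comp₂ Primrec.and hf hg

theorem PRF.or {f g : (ℕ → Bool) → α → Bool} (hf : PRF f) (hg : PRF g) :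
    PRF (fun O a => f O a || g O a) := PRF.comp₂ Primrec.or hf hg

theorem PRF.not {f : (ℕ → Bool) → α → Bool} (hf : PRF f) :
    PRF (fun O a => !(f O a)) := PRF.comp₁ Primrec.not hf

theorem PRF.pair {f : (ℕ → Bool) → α → β} {g : (ℕ → Bool) → α → γ} (hf : PRF f) (hg : PRF g) :
    PRF (fun O a => (f O a, g O a)) := PRF.comp₂ Primrec₂.pair hf hg

theorem PRF.cond {c : (ℕ → Bool) → α → Bool} {f g : (ℕ → Bool) → α → σ} (hc : PRF c)
    (hf : PRF f) (hg : PRF g) :
    PRF (fun O a => bif c O a then f O a else g O a) :=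
  PRF.comp₂ (h := fun (p : Bool × σ) (q : σ) => bif p.1 then p.2 else q)
    (Primrec.cond (Primrec.fst.comp Primrec.fst) (Primrec.snd.comp Primrec.fst) Primrec.snd)
    (hc.pair hf) hg

theorem PRF.ite {p : α → Prop} [DecidablePred p] {f g : (ℕ → Bool) → α → σ}
    (hp : PrimrecPred p) (hf : PRF f) (hg : PRF g) :
    PRF (fun O a => if p a then f O a else g O a) := by
  have h1 : PRF (fun (_ : ℕ → Bool) a => decide (p a)) := PRF.pr hp.decide
  refine (PRF.cond h1 hf hg).of_eq ?_
  intro O a
  by_cases h : p a <;> simp [h]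

theorem foldl_or (l : List Bool) (s : Bool) : l.foldl (fun s b => s || b) s = (s || l.any id) := by
  induction l generalizing s with
  | nil => simp
  | cons x l ih =>
    simp only [List.foldl_cons, List.any_cons, id]
    rw [ih, Bool.or_assoc]

theorem PRF.any {f : (ℕ → Bool) → α × ℕ → Bool} {n : α → ℕ} (hf : PRF f) (hn : Primrec n) :
    PRF (fun O a => (List.range (n a)).any (fun j => f O (a, j))) := by
  have h1 := hf.map hn
  have h2 : Primrec (fun l : List Bool => l.foldl (fun s b => s || b) false) := by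
    refine Primrec.list_foldl (f := fun l : List Bool => l) (g := fun _ => false)
      (h := fun _ p => p.1 || p.2) Primrec.id (Primrec.const false) ?_
    exact Primrec.or.comp (Primrec.fst.comp Primrec.snd) (Primrec.snd.comp Primrec.snd)
  refine (h1.comp₁ h2).of_eq ?_
  intro O a
  rw [foldl_or]
  simp [List.any_map]

end closure

end Pool.Agent.H81.ITTM
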