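import Mathlib
import Pool.Agent.H81.ITTM.PRF
import Pool.Agent.H81.ITTM.PNet

/-!
# The networks are primitive recursive functionals
-/

set_option autoImplicit false

namespace Pool.Agent.H81.ITTM

theorem primrec_cN : Primrec cN := Primrec.succ.comp Primrec.fst

theorem primrec_cstart : Primrec cstart :=
  Primrec.nat_mod.comp (Primrec.fst.comp (Primrec.fst.comp Primrec.snd)) primrec_cN

theorem primrec_climit : Primrec climit :=
  Primrec.nat_mod.comp (Primrec.fst.comp (Primrec.snd.comp (Primrec.fst.comp Primrec.snd)))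
    primrec_cN

theorem primrec_chalt : Primrec chalt :=
  Primrec.nat_mod.comp (Primrec.snd.comp (Primrec.snd.comp (Primrec.fst.comp Primrec.snd)))
    primrec_cN

theorem primrec_ent : Primrec (fun p : MCode × ℕ × (Bool × Bool × Bool) => ent p.1 p.2.1 p.2.2) := by
  refine (Primrec.list_getD (0, (false, false, false), false)).comp
    (Primrec.snd.comp (Primrec.snd.comp Primrec.fst)) ?_
  refine Primrec.nat_add.comp (Primrec.nat_mul.comp (Primrec.const 8)
    (Primrec.fst.comp Primrec.snd)) ?_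
  exact (Primrec.dom_finite bnum).comp (Primrec.snd.comp Primrec.snd)

theorem primrec_cδ : Primrec (fun p : MCode × ℕ × (Bool × Bool × Bool) => cδ p.1 p.2.1 p.2.2) := by
  refine Primrec.ite (Primrec.eq.comp (Primrec.fst.comp Primrec.snd)
    (primrec_chalt.comp Primrec.fst)) ?_ ?_
  · exact Primrec.pair (primrec_chalt.comp Primrec.fst)
      (Primrec.pair (Primrec.snd.comp Primrec.snd) (Primrec.const false))
  · refine Primrec.pair (Primrec.nat_mod.comp (Primrec.fst.comp primrec_ent)
      (primrec_cN.comp Primrec.fst)) ?_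
    exact Primrec.pair (Primrec.fst.comp (Primrec.snd.comp primrec_ent))
      (Primrec.snd.comp (Primrec.snd.comp primrec_ent))

theorem primrec_cd : Primrec cd :=
  Primrec.option_getD.comp Primrec.decode (Primrec.const _)

theorem primrec_nm {α : Type} [Primcodable α] {f g h k : α → ℕ} (hf : Primrec f) (hg : Primrec g)
    (hh : Primrec h) (hk : Primrec k) : Primrec (fun a => nm (f a) (g a) (h a) (k a)) :=
  Primrec₂.natPair.comp hf (Primrec₂.natPair.comp hg (Primrec₂.natPair.comp hh hk))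

section

variable {α : Type} [Primcodable α]

theorem prf_fl0 : PRF (fun C (_ : α) => fl0 C) := PRF.query (Primrec.const _)
theorem prf_fl1 : PRF (fun C (_ : α) => fl1 C) := PRF.query (Primrec.const _)
theorem prf_limB : PRF (fun C (_ : α) => limB C) := prf_fl0.and prf_fl1
theorem prf_stB : PRF (fun C (_ : α) => stB C) := prf_fl0.not.and prf_fl1.not

theorem prf_fr {n : α → ℕ} (hn : Primrec n) : PRF (fun C a => fr C (n a)) :=
  PRF.query (primrec_nm (Primrec.const _) hn (Primrec.const _) (Primrec.const _))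

theorem prf_fin {n : α → ℕ} (hn : Primrec n) : PRF (fun C a => fin C (n a)) :=
  PRF.query (primrec_nm (Primrec.const _) hn (Primrec.const _) (Primrec.const _))

theorem prf_eT {n j k : α → ℕ} (hn : Primrec n) (hj : Primrec j) (hk : Primrec k) :
    PRF (fun C a => eT C (n a) (j a) (k a)) := by
  refine PRF.cond (prf_limB.and (prf_fr hn)) ?_ ?_
  · exact PRF.and (PRF.pr (Primrec.eq.comp hj (Primrec.const 0)).decide) (PRF.query hk)
  · exact PRF.query (primrec_nm (Primrec.const _) hn hj hk)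

theorem prf_eH {n k q : α → ℕ} (hn : Primrec n) (hk : Primrec k) (hq : Primrec q) :
    PRF (fun C a => eH C (n a) (k a) (q a)) := by
  refine PRF.cond prf_limB ?_ ?_
  · refine PRF.and (PRF.pr (Primrec.eq.comp hk (Primrec.const 0)).decide) ?_
    refine PRF.cond (prf_fr hn) ?_ ?_
    · exact PRF.pr (Primrec.eq.comp hq (primrec_cstart.comp (primrec_cd.comp hn))).decide
    · exact PRF.pr (Primrec.eq.comp hq (primrec_climit.comp (primrec_cd.comp hn))).decide
  · exact PRF.query (primrec_nm (Primrec.const _) hn hk hq)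

theorem prf_bits {n k : α → ℕ} (hn : Primrec n) (hk : Primrec k) :
    PRF (fun C a => bits C (n a) (k a)) :=
  (prf_eT hn (Primrec.const 0) hk).pair
    ((prf_eT hn (Primrec.const 1) hk).pair (prf_eT hn (Primrec.const 2) hk))

theorem primrec_reassoc {A B D E : Type} [Primcodable A] [Primcodable B] [Primcodable D]
    [Primcodable E] (f : A → B → D → E) (h : Primrec (fun p : A × B × D => f p.1 p.2.1 p.2.2)) :
    Primrec₂ (fun (p : A × B) (b : D) => f p.1 p.2 b) := by
  have h1 : Primrec (fun x : (A × B) × D => (x.1.1, (x.1.2, x.2))) := by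
    exact Primrec.pair (Primrec.fst.comp Primrec.fst)
      (Primrec.pair (Primrec.snd.comp Primrec.fst) Primrec.snd)
  exact Primrec.comp h h1

theorem primrec_cδ' : Primrec₂ (fun (p : MCode × ℕ) (b : Bool × Bool × Bool) =>
    cδ p.1 p.2 b) := primrec_reassoc cδ primrec_cδ

theorem prf_cδ {n k q : α → ℕ} (hn : Primrec n) (hk : Primrec k) (hq : Primrec q) :
    PRF (fun C a => cδ (cd (n a)) (q a) (bits C (n a) (k a))) := by
  have h1 : PRF (fun (_ : ℕ → Bool) a => (cd (n a), q a)) :=
    PRF.pr (Primrec.pair (primrec_cd.comp hn) hq)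
  have h2 := PRF.comp₂ primrec_cδ' h1 (prf_bits hn hk)
  dsimp only at h2
  exact h2

theorem primrec_wb : Primrec (fun p : ℕ × (Bool × Bool × Bool) => wb p.1 p.2) := by
  refine Primrec.ite (Primrec.eq.comp Primrec.fst (Primrec.const 0))
    (Primrec.fst.comp Primrec.snd) ?_
  exact Primrec.ite (Primrec.eq.comp Primrec.fst (Primrec.const 1))
    (Primrec.fst.comp (Primrec.snd.comp Primrec.snd))
    (Primrec.snd.comp (Primrec.snd.comp Primrec.snd))

theorem prf_updT {n j k : α → ℕ} (hn : Primrec n) (hj : Primrec j) (hk : Primrec k) :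
    PRF (fun C a => updT C (n a) (j a) (k a)) := by
  have hN : Primrec (fun a => cN (cd (n a))) := primrec_cN.comp (primrec_cd.comp hn)
  refine PRF.cond ?_ ?_ (prf_eT hn hj hk)
  · refine PRF.any (f := fun C (p : α × ℕ) => eH C (n p.1) (k p.1) p.2) ?_ hN
    exact prf_eH (hn.comp Primrec.fst) (hk.comp Primrec.fst) Primrec.snd
  · refine PRF.any (f := fun C (p : α × ℕ) => eH C (n p.1) (k p.1) p.2 &&
      wb (j p.1) (cδ (cd (n p.1)) p.2 (bits C (n p.1) (k p.1))).2.1) ?_ hN
    refine PRF.and (prf_eH (hn.comp Primrec.fst) (hk.comp Primrec.fst) Primrec.snd) ?_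
    refine PRF.comp₂ (f := fun _ (p : α × ℕ) => j p.1)
      (g := fun C (p : α × ℕ) => cδ (cd (n p.1)) p.2 (bits C (n p.1) (k p.1)))
      (h := fun i r => wb i r.2.1) ?_ (PRF.pr (hj.comp Primrec.fst))
      (prf_cδ (hn.comp Primrec.fst) (hk.comp Primrec.fst) Primrec.snd)
    exact primrec_wb.comp (Primrec.pair Primrec.fst (Primrec.fst.comp
      (Primrec.snd.comp Primrec.snd)))

theorem primrec_mvL : Primrec₂ (fun (r : ℕ × (Bool × Bool × Bool) × Bool) (q : ℕ) => mvL r q) := by
  refine Primrec.and.comp (Primrec.eq.comp (Primrec.fst.comp Primrec.fst) Primrec.snd).decide ?_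
  exact Primrec.not.comp (Primrec.snd.comp (Primrec.snd.comp Primrec.fst))

theorem primrec_mvR : Primrec₂ (fun (r : ℕ × (Bool × Bool × Bool) × Bool) (q : ℕ) => mvR r q) := by
  refine Primrec.and.comp (Primrec.eq.comp (Primrec.fst.comp Primrec.fst) Primrec.snd).decide ?_
  exact Primrec.snd.comp (Primrec.snd.comp Primrec.fst)

theorem prf_updH {n k q : α → ℕ} (hn : Primrec n) (hk : Primrec k) (hq : Primrec q) :
    PRF (fun C a => updH C (n a) (k a) (q a)) := by
  have hN : Primrec (fun a => cN (cd (n a))) := primrec_cN.comp (primrec_cd.comp hn)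
  have hn' : Primrec (fun p : α × ℕ => n p.1) := hn.comp Primrec.fst
  have hk' : Primrec (fun p : α × ℕ => k p.1) := hk.comp Primrec.fst
  have hq' : Primrec (fun p : α × ℕ => q p.1) := hq.comp Primrec.fst
  have hs : Primrec (fun p : α × ℕ => p.2) := Primrec.snd
  refine PRF.or ?_ (PRF.or ?_ ?_)
  · refine PRF.any (f := fun C (p : α × ℕ) => eH C (n p.1) (k p.1 + 1) p.2 &&
      mvL (cδ (cd (n p.1)) p.2 (bits C (n p.1) (k p.1 + 1))) (q p.1)) ?_ hN
    refine PRF.and (prf_eH hn' (Primrec.succ.comp hk') hs) ?_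
    exact PRF.comp₂ primrec_mvL (prf_cδ hn' (Primrec.succ.comp hk') hs) (PRF.pr hq')
  · refine PRF.any (f := fun C (p : α × ℕ) => eH C (n p.1) 0 p.2 && (decide (k p.1 = 0) &&
      mvL (cδ (cd (n p.1)) p.2 (bits C (n p.1) 0)) (q p.1))) ?_ hN
    refine PRF.and (prf_eH hn' (Primrec.const 0) hs) (PRF.and ?_ ?_)
    · exact PRF.pr (Primrec.eq.comp hk' (Primrec.const 0)).decide
    · exact PRF.comp₂ primrec_mvL (prf_cδ hn' (Primrec.const 0) hs) (PRF.pr hq')
  · refine PRF.any (f := fun C (p : α × ℕ) => eH C (n p.1) (k p.1 - 1) p.2 &&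
      (decide (k p.1 ≠ 0) && mvR (cδ (cd (n p.1)) p.2 (bits C (n p.1) (k p.1 - 1))) (q p.1))) ?_ hN
    refine PRF.and (prf_eH hn' (Primrec.pred.comp hk') hs) (PRF.and ?_ ?_)
    · exact PRF.pr (Primrec.eq.comp hk' (Primrec.const 0)).not.decide
    · exact PRF.comp₂ primrec_mvR (prf_cδ hn' (Primrec.pred.comp hk') hs) (PRF.pr hq')

theorem prf_doneB {n : α → ℕ} (hn : Primrec n) : PRF (fun C a => doneB C (n a)) :=
  prf_eH hn (Primrec.const 0) (primrec_chalt.comp (primrec_cd.comp hn))

theorem prf_updF {n : α → ℕ} (hn : Primrec n) : PRF (fun C a => updF C (n a)) :=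
  prf_stB.or ((prf_limB.not.and (prf_fr hn)).or (prf_doneB hn))

theorem prf_updFin {n : α → ℕ} (hn : Primrec n) : PRF (fun C a => updFin C (n a)) :=
  (prf_fin hn).or ((prf_limB.or (prf_fr hn).not).and
    ((prf_doneB hn).and (prf_eT hn (Primrec.const 2) (Primrec.const 0))))

end

theorem prf_G : PRF (fun C (i : ℕ) => G C i) := by
  have h1 : Primrec (fun i : ℕ => i.unpair.1) := Primrec.fst.comp Primrec.unpair
  have h2 : Primrec (fun i : ℕ => i.unpair.2) := Primrec.snd.comp Primrec.unpair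
  have h21 : Primrec (fun i : ℕ => i.unpair.2.unpair.1) := h1.comp h2
  have h22 : Primrec (fun i : ℕ => i.unpair.2.unpair.2) := h2.comp h2
  have h221 : Primrec (fun i : ℕ => i.unpair.2.unpair.2.unpair.1) := h1.comp h22
  have h222 : Primrec (fun i : ℕ => i.unpair.2.unpair.2.unpair.2) := h2.comp h22
  refine PRF.ite (Primrec.eq.comp h1 (Primrec.const 0)) ?_ (PRF.ite (Primrec.eq.comp h1
    (Primrec.const 1)) ?_ (PRF.ite (Primrec.eq.comp h1 (Primrec.const 2)) ?_ (PRF.ite
    (Primrec.eq.comp h1 (Primrec.const 3)) ?_ (PRF.ite (Primrec.eq.comp h1 (Primrec.const 4)) ?_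
    (PRF.pr (Primrec.const false))))))
  · refine PRF.ite (Primrec.eq.comp h21 (Primrec.const 0)) (prf_fl0.and prf_fl1.not).not
      (PRF.ite (Primrec.eq.comp h21 (Primrec.const 1)) (prf_fl0.and prf_fl1.not)
        (PRF.pr (Primrec.const false)))
  · exact prf_updF h21
  · exact prf_updFin h21
  · exact prf_updT h21 h221 h222
  · exact prf_updH h21 h221 h222

/-- Oracle queries to the even and odd parts. -/
abbrev evn (O : ℕ → Bool) : ℕ → Bool := fun k => O (2 * k)
abbrev odd' (O : ℕ → Bool) : ℕ → Bool := fun k => O (2 * k + 1)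

theorem prf_PF : PRF (fun O (i : ℕ) => PF (fun k => O (2 * k)) (fun k => O (2 * k + 1)) i) := by
  have h1 : Primrec (fun i : ℕ => i.unpair.1) := Primrec.fst.comp Primrec.unpair
  have h2 : Primrec (fun i : ℕ => i.unpair.2) := Primrec.snd.comp Primrec.unpair
  have hodd : Primrec (fun i : ℕ => 2 * i + 1) :=
    Primrec.succ.comp (Primrec.nat_mul.comp (Primrec.const 2) Primrec.id)
  have hevn : Primrec (fun i : ℕ => 2 * i) := Primrec.nat_mul.comp (Primrec.const 2) Primrec.id
  have hC : ∀ {α : Type} [Primcodable α] {f : α → ℕ}, Primrec f →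
      PRF (fun O a => (fun k => O (2 * k + 1)) (f a)) := fun hf => PRF.query (hodd.comp hf)
  have hy : ∀ {α : Type} [Primcodable α] {f : α → ℕ}, Primrec f →
      PRF (fun O a => (fun k => O (2 * k)) (f a)) := fun hf => PRF.query (hevn.comp hf)
  have hpair : ∀ (t : ℕ) {α : Type} [Primcodable α] {f : α → ℕ}, Primrec f →
      Primrec (fun a => Nat.pair t (f a)) :=
    fun t _ _ _ hf => Primrec₂.natPair.comp (Primrec.const t) hf
  have hc : ∀ {α : Type} [Primcodable α] (t : ℕ),
      PRF (fun O (_ : α) => (fun k => O (2 * k + 1)) t) := fun t => hC (Primrec.const t)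
  have hL : ∀ {α : Type} [Primcodable α],
      PRF (fun O (_ : α) => pL (fun k => O (2 * k + 1))) := fun {α _} =>
    (hc _).and (hc _)
  have hSt : ∀ {α : Type} [Primcodable α],
      PRF (fun O (_ : α) => pSt (fun k => O (2 * k + 1))) := fun {α _} =>
    (hc _).not.and (hc _).not
  have he2 : ∀ {α : Type} [Primcodable α] {f : α → ℕ}, Primrec f →
      PRF (fun O a => e2 (fun k => O (2 * k)) (fun k => O (2 * k + 1)) (f a)) := fun hf =>
    PRF.cond hSt (hy hf) (hC (hpair 2 hf))
  have hxor : Primrec₂ (fun a b : Bool => xor a b) :=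
    Primrec.dom_finite (fun p : Bool × Bool => xor p.1 p.2)
  refine PRF.ite (Primrec.eq.comp h1 (Primrec.const 0)) ?_ (PRF.ite (Primrec.eq.comp h1
    (Primrec.const 1)) ?_ (PRF.ite (Primrec.eq.comp h1 (Primrec.const 2)) ?_ (PRF.ite
    (Primrec.eq.comp h1 (Primrec.const 3)) ?_ (PRF.ite (Primrec.eq.comp h1 (Primrec.const 4)) ?_
    (PRF.ite (Primrec.eq.comp h1 (Primrec.const 5)) ?_ (PRF.pr (Primrec.const false)))))))
  · refine PRF.ite (Primrec.eq.comp h2 (Primrec.const 0)) ((hc _).or ((hc _).and (hc _)))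
      (PRF.ite (Primrec.eq.comp h2 (Primrec.const 1)) ((hc _).and (hc _).not).not
      (PRF.ite (Primrec.eq.comp h2 (Primrec.const 2)) ((hc _).and (hc _).not)
      (PRF.ite (Primrec.eq.comp h2 (Primrec.const 3)) ((hc _).or (hL.and (hc _).not))
      (PRF.ite (Primrec.eq.comp h2 (Primrec.const 4))
        ((hc _).or (hL.and ((hc _).not.and (hc _).not))) (PRF.pr (Primrec.const false))))))
  · refine (PRF.subst (h := fun O (p : ℕ × ℕ) => O (2 * Nat.pair 1 p.2 + 1)) prf_G ?_).pre h2
    exact hC (hpair 1 Primrec.snd)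
  · refine (PRF.subst (h := fun O (p : ℕ × ℕ) => e2 (fun k => O (2 * k))
      (fun k => O (2 * k + 1)) p.2) prf_G ?_).pre h2
    exact he2 Primrec.snd
  · refine PRF.cond (hL.or hSt) ?_ ((hC (hpair 3 h2)).or (hC (hpair 3 (Primrec.succ.comp h2))))
    exact PRF.comp₂ hxor (hC (hpair 1 h2)) (hy h2)
  · refine PRF.cond hSt (PRF.pr (Primrec.const true)) (PRF.cond hL ?_
      ((hC (hpair 4 h2)).or (hC (hpair 4 (Primrec.succ.comp h2)))))
    exact PRF.comp₂ hxor (hC (hpair 2 h2)) (hy h2)
  · exact (hC (hpair 5 h2)).or ((hC (hpair 5 (Primrec.succ.comp h2))).or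
      ((he2 h2).and (hy h2).not))

end Pool.Agent.H81.ITTM
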