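import Mathlib
import Pool.Agent.H81.ITTM.TM

/-!
# The sweeps and the instructions
-/

set_option autoImplicit false

namespace Pool.Agent.H81.ITTM

variable {L : Type} {K : ℕ}

theorem zc {p c : ℕ} (hc : c < K) : ((p : ℕ) : ZMod K) = ((c : ℕ) : ZMod K) ↔ p % K = c := by
  rw [ZMod.natCast_eq_natCast_iff', Nat.mod_eq_of_lt hc]

theorem zc0 {p : ℕ} (hK : 0 < K) : ((p : ℕ) : ZMod K) = 0 ↔ p % K = 0 := by
  have := zc (K := K) (p := p) hK
  simpa using this

theorem zc2 {p : ℕ} (hK : 2 < K) : ((p : ℕ) : ZMod K) = 2 ↔ p % K = 2 := by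
  have := zc (K := K) (p := p) hK
  simpa using this

theorem zc3 {p : ℕ} (hK : 3 < K) : ((p : ℕ) : ZMod K) = 3 ↔ p % K = 3 := by
  have := zc (K := K) (p := p) hK
  simpa using this

theorem zc4 {p : ℕ} (hK : 4 < K) : ((p : ℕ) : ZMod K) = 4 ↔ p % K = 4 := by
  have := zc (K := K) (p := p) hK
  simpa using this

section sweeps

variable (en : L) (ins : L → Instr) (nxt : L → Bool → L) (y s o : ℕ → Bool)

def cleanS (K : ℕ) (s : ℕ → Bool) (p : ℕ) : Bool :=
  if p % K = 0 then decide (p = 0) else if p % K = 2 ∨ p % K = 3 ∨ p % K = 4 then s p else false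

def cfgS (K n : ℕ) : Config (St L K) :=
  ⟨.swS ((n : ℕ) : ZMod K) (decide (n = 0)), n, y, fun p => if p < n then cleanS K s p else s p,
    fun p => if p < n then false else o p⟩

theorem sweepS_step (hK : 4 < K) (n : ℕ) :
    (simM K en ins nxt).step (cfgS (L := L) y s o K n) = cfgS y s o K (n + 1) := by
  have h := step_both (simM K en ins nxt) (st := .swS ((n : ℕ) : ZMod K) (decide (n = 0)))
    (st' := .swS (((n + 1 : ℕ)) : ZMod K) (decide (n + 1 = 0))) (h := n) (i := y)
    (s := fun p => if p < n then cleanS K s p else s p)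
    (o := fun p => if p < n then false else o p) (mv := .right) (b := cleanS K s n)
    (b' := false) (by
      simp only [simM, simδ, cleanS, zc0 (K := K) (p := n) (by omega),
        zc2 (K := K) (p := n) (by omega), zc3 (K := K) (p := n) (by omega),
        zc4 (K := K) (p := n) (by omega), lt_irrefl, if_false]
      simp)
  unfold cfgS
  rw [h]
  congr 1
  · funext p
    simp only [Function.update_apply]
    by_cases hp : p = n
    · subst hp; simp
    · rw [if_neg hp]
      by_cases hp2 : p < n
      · rw [if_pos hp2, if_pos (by omega)]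
      · rw [if_neg hp2, if_neg (by omega)]
  · funext p
    simp only [Function.update_apply]
    by_cases hp : p = n
    · subst hp; simp
    · rw [if_neg hp]
      by_cases hp2 : p < n
      · rw [if_pos hp2, if_pos (by omega)]
      · rw [if_neg hp2, if_neg (by omega)]

theorem sweepS_iter (hK : 4 < K) (n : ℕ) :
    (simM K en ins nxt).step^[n] ⟨.swS 0 true, 0, y, s, o⟩ = cfgS y s o K n := by
  induction n with
  | zero =>
    simp [cfgS]
  | succ n ih =>
    rw [Function.iterate_succ_apply', ih, sweepS_step en ins nxt y s o hK]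

def cfgB (K n : ℕ) : Config (St L K) :=
  ⟨.swB ((n : ℕ) : ZMod K) (if n = 0 then false else s (n - 1)), n, y,
    fun p => if p < n ∧ p % K = 2 then s (p - 1) else s p, o⟩

theorem sweepB_step (hK : 4 < K) (n : ℕ) :
    (simM K en ins nxt).step (cfgB (L := L) y s o K n) = cfgB y s o K (n + 1) := by
  have h := step_scr (simM K en ins nxt)
    (st := .swB ((n : ℕ) : ZMod K) (if n = 0 then false else s (n - 1)))
    (st' := .swB (((n + 1 : ℕ)) : ZMod K) (if n + 1 = 0 then false else s (n + 1 - 1)))
    (h := n) (i := y)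
    (s := fun p => if p < n ∧ p % K = 2 then s (p - 1) else s p)
    (o := o) (mv := .right) (b := if n % K = 2 then s (n - 1) else s n) (by
      simp only [simM, simδ, zc2 (K := K) (p := n) (by omega), lt_irrefl, false_and, if_false]
      by_cases hn : n % K = 2
      · have : n ≠ 0 := by
          rintro rfl
          simp at hn
        simp [hn, this]
      · simp [hn])
  unfold cfgB
  rw [h]
  congr 1
  funext p
  simp only [Function.update_apply]
  by_cases hp : p = n
  · subst hp
    by_cases hn : p % K = 2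
    · simp [hn]
    · simp [hn]
  · rw [if_neg hp]
    by_cases hp2 : p < n ∧ p % K = 2
    · rw [if_pos hp2, if_pos ⟨by omega, hp2.2⟩]
    · rw [if_neg hp2, if_neg (by
        rintro ⟨h1, h2⟩
        exact hp2 ⟨by omega, h2⟩)]

theorem sweepB_iter (hK : 4 < K) (n : ℕ) :
    (simM K en ins nxt).step^[n] ⟨.swB 0 false, 0, y, s, o⟩ = cfgB y s o K n := by
  induction n with
  | zero =>
    simp [cfgB]
  | succ n ih =>
    rw [Function.iterate_succ_apply', ih, sweepB_step en ins nxt y s o hK]

end sweeps

/-! ### Searches -/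

section search

variable (en : L) (ins : L → Instr) (nxt : L → Bool → L) (y s o : ℕ → Bool)
  (Q : Config (St L K) → Prop)

theorem search_right (l : L) (p0 : ℕ)
    (h : ∀ p < p0, stopB (ins l) ((p : ℕ) : ZMod K) (s p) (o p) = false)
    (hQ : ∀ m ≤ p0, Q ⟨.F l ((m : ℕ) : ZMod K), m, y, s, o⟩) :
    Rch (simM K en ins nxt).step Q ⟨.F l 0, 0, y, s, o⟩
      ⟨.F l ((p0 : ℕ) : ZMod K), p0, y, s, o⟩ := by
  have h1 := Rch.chain (f := (simM K en ins nxt).step) (Q := Q)
    (s := fun m => ⟨.F l ((m : ℕ) : ZMod K), m, y, s, o⟩) p0 (fun m hm => ?_) hQ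
  · simpa using h1
  · refine step_same _ (mv := .right) ?_
    simp only [simM, simδ, h m hm]
    simp

theorem search_left (l : L) (p p1 : ℕ) (hp : p1 ≤ p)
    (h : ∀ p', p1 < p' → p' ≤ p → ¬ ((p' : ℕ) : ZMod K) = ((tgt (ins l) : ℕ) : ZMod K) ∧
      ¬ (((p' : ℕ) : ZMod K) = 0 ∧ s p' = true))
    (hQ : ∀ m ≤ p, Q ⟨.B l ((m : ℕ) : ZMod K), m, y, s, o⟩) :
    Rch (simM K en ins nxt).step Q ⟨.B l ((p : ℕ) : ZMod K), p, y, s, o⟩
      ⟨.B l ((p1 : ℕ) : ZMod K), p1, y, s, o⟩ := by
  have h1 := Rch.chain (f := (simM K en ins nxt).step) (Q := Q)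
    (s := fun m => ⟨.B l (((p - m : ℕ) : ℕ) : ZMod K), p - m, y, s, o⟩) (p - p1)
    (fun m hm => ?_) (fun m hm => hQ _ (by omega))
  · rw [Nat.sub_zero, Nat.sub_sub_self hp] at h1
    exact h1
  · have h2 := h (p - m) (by omega) (by omega)
    have h3 : p - (m + 1) = p - m - 1 := by omega
    rw [h3]
    refine step_same _ (mv := .left) ?_
    simp only [simM, simδ]
    rw [if_neg h2.1, if_neg h2.2]
    have : ((p - m - 1 : ℕ) : ZMod K) = ((p - m : ℕ) : ZMod K) - 1 := by
      rw [Nat.cast_pred (by omega)]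
    rw [this]

theorem search_ret (l : L) (b : Bool) (p : ℕ)
    (hZ : ∀ p' : ℕ, (((p' : ℕ) : ZMod K) = 0 ∧ s p' = true) ↔ p' = 0)
    (hQ : ∀ (st : St L K) (h : ℕ) (o' : ℕ → Bool), st ≠ .H → Q ⟨st, h, y, s, o'⟩) :
    RchP (simM K en ins nxt).step Q ⟨.T l b ((p : ℕ) : ZMod K), p, y, s, o⟩
      ⟨.F (nxt l b) 0, 0, y, s, if (ins l).isRst then (fun q => if q ≤ p then false else o q)
        else o⟩ := by
  have h1 := Rch.chain (f := (simM K en ins nxt).step) (Q := Q)
    (s := fun m => ⟨.T l b (((p - m : ℕ) : ℕ) : ZMod K), p - m, y, s,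
      if (ins l).isRst then (fun q => if p - m < q ∧ q ≤ p then false else o q) else o⟩) p
    (fun m hm => ?_) (fun m hm => hQ _ _ _ (by simp))
  · have h2 : (simM K en ins nxt).step ⟨.T l b (((p - p : ℕ) : ℕ) : ZMod K), p - p, y, s,
      if (ins l).isRst then (fun q => if p - p < q ∧ q ≤ p then false else o q) else o⟩ =
      ⟨.F (nxt l b) 0, 0, y, s, if (ins l).isRst then (fun q => if q ≤ p then false else o q)
        else o⟩ := by
      rw [Nat.sub_self]
      have hz := (hZ 0).2 rfl
      by_cases hr : (ins l).isRst = true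
      · rw [step_out (simM K en ins nxt) (st' := .F (nxt l b) 0) (mv := .left) (b := false)]
        · congr 1
          rw [if_pos hr]
          simp only [hr, if_true]
          funext q
          simp only [Function.update_apply]
          by_cases hq : q = 0
          · subst hq; simp
          · rw [if_neg hq]
            by_cases hq2 : q ≤ p
            · rw [if_pos hq2, if_pos ⟨by omega, hq2⟩]
            · rw [if_neg hq2, if_neg (fun h => hq2 h.2)]
        · simp only [simM, simδ]
          rw [if_pos hz]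
          simp [hr]
      · rw [step_same (simM K en ins nxt) (st' := .F (nxt l b) 0) (mv := .left)]
        · congr 1
          rw [if_neg hr, if_neg hr]
        · simp only [simM, simδ]
          rw [if_pos hz]
          simp [hr]
    have h3 := RchP.one (f := (simM K en ins nxt).step) (Q := Q)
      (s := ⟨.T l b (((p - p : ℕ) : ℕ) : ZMod K), p - p, y, s,
        if (ins l).isRst then (fun q => if p - p < q ∧ q ≤ p then false else o q) else o⟩)
      (hQ _ _ _ (by simp)) (by rw [h2]; exact hQ _ _ _ (by simp))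
    rw [h2] at h3
    have h4 := h1.transP h3
    have h5 : (fun q => if p - 0 < q ∧ q ≤ p then false else o q) = o := by
      funext q
      rw [if_neg (by omega)]
    simp only [Nat.sub_zero] at h4 h5
    rw [h5] at h4
    simpa using h4
  · have hne : ¬ (((p - m : ℕ) : ZMod K) = 0 ∧ s (p - m) = true) := by
      rw [hZ]; omega
    have h3 : p - (m + 1) = p - m - 1 := by omega
    have h4 : ((p - m - 1 : ℕ) : ZMod K) = ((p - m : ℕ) : ZMod K) - 1 := by
      rw [Nat.cast_pred (by omega)]
    rw [h3]
    by_cases hr : (ins l).isRst = true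
    · rw [step_out (simM K en ins nxt) (st' := .T l b (((p - m - 1 : ℕ) : ZMod K)))
        (mv := .left) (b := false)]
      · congr 1
        simp only [hr, if_true]
        funext q
        simp only [Function.update_apply]
        by_cases hq : q = p - m
        · rw [if_pos hq, if_pos (by omega)]
        · rw [if_neg hq]
          by_cases hq2 : p - m < q ∧ q ≤ p
          · rw [if_pos hq2, if_pos (by omega)]
          · rw [if_neg hq2, if_neg (by omega)]
      · simp only [simM, simδ]
        rw [if_neg hne, h4]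
        simp [hr]
    · rw [step_same (simM K en ins nxt) (st' := .T l b (((p - m - 1 : ℕ) : ZMod K)))
        (mv := .left)]
      · congr 1
        simp [hr]
      · simp only [simM, simδ]
        rw [if_neg hne, h4]
        simp [hr]

theorem prv_eq {K : ℕ} {s : ℕ → Bool}
    (hZ : ∀ p' : ℕ, (((p' : ℕ) : ZMod K) = 0 ∧ s p' = true) ↔ p' = 0) (p : ℕ) :
    prv ((p : ℕ) : ZMod K) (s p) = ((p - 1 : ℕ) : ZMod K) := by
  unfold prv
  by_cases hp : p = 0
  · rw [if_pos ((hZ p).2 hp), hp]
    simp
  · rw [if_neg (fun h => hp ((hZ p).1 h)), Nat.cast_pred (by omega)]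

end search

end Pool.Agent.H81.ITTM
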