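import Mathlib
import Pool.Agent.H81.ITTM.TM2

/-!
# Execution of instructions by the machine
-/

set_option autoImplicit false

namespace Pool.Agent.H81.ITTM

variable {L : Type} {K : ℕ}

/-- Scratch tape coding an environment, over a base tape `X`. -/
def enc (K : ℕ) (X : ℕ → Bool) (e : Env) (p : ℕ) : Bool :=
  if p % K = 1 then e.cp (p / K)
  else if 5 ≤ p % K then decide (p / K < e.reg (p % K - 5)) else X p

def outE (e : Env) (p : ℕ) : Bool := decide (p < e.sp)

/-- Register used by an instruction. -/
def Instr.rg : Instr → ℕ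
  | .inc j => j
  | .td j => j
  | .rdC j => j
  | .wr j _ => j
  | _ => 0

section instr

variable (en : L) (ins : L → Instr) (nxt : L → Bool → L) (y C X : ℕ → Bool)

/-- Configuration of the machine at the beginning of the instruction with label `l`. -/
def cfgA (K : ℕ) (y X : ℕ → Bool) (l : L) (e : Env) : Config (St L K) :=
  ⟨.F l 0, 0, y, enc K X e, outE e⟩

/-- Invariant during the execution of an instruction. -/
def InsQ (K : ℕ) (y : ℕ → Bool) (s1 s2 : ℕ → Bool) (c : Config (St L K)) : Prop :=
  c.state ≠ .H ∧ c.inp = y ∧ (c.scr = s1 ∨ c.scr = s2)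

theorem enc_Z (hK : 5 < K) (hX0 : ∀ p, p % K = 0 → X p = decide (p = 0)) (e : Env) (p : ℕ) :
    (((p : ℕ) : ZMod K) = 0 ∧ enc K X e p = true) ↔ p = 0 := by
  rw [zc0 (by omega)]
  constructor
  · rintro ⟨h1, h2⟩
    unfold enc at h2
    rw [if_neg (by omega), if_neg (by omega), hX0 p h1] at h2
    simpa using h2
  · rintro rfl
    refine ⟨Nat.zero_mod _, ?_⟩
    unfold enc
    rw [Nat.zero_mod, if_neg (by omega), if_neg (by omega), hX0 0 (Nat.zero_mod _)]
    simp

theorem mod_pos' {K v c : ℕ} (hc : c < K) : (K * v + c) % K = c := by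
  rw [Nat.mul_add_mod, Nat.mod_eq_of_lt hc]

theorem div_pos' {K v c : ℕ} (hc : c < K) : (K * v + c) / K = v := by
  rw [Nat.mul_add_div (by omega), Nat.div_eq_of_lt hc, add_zero]

theorem eq_of_mod_div {K p c v : ℕ} (h1 : p % K = c) (h2 : p / K = v) : p = K * v + c := by
  rw [← h1, ← h2]
  exact (Nat.div_add_mod p K).symm

theorem div_lt_of {K p c v : ℕ} (h1 : p % K = c) (h2 : p < K * v + c) : p / K < v := by
  by_contra h
  push Not at h
  have h3 := Nat.div_add_mod p K
  have h4 : K * v ≤ K * (p / K) := Nat.mul_le_mul_left K h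
  omega

/-- The search to the right for the end of a register. -/
theorem find_reg {s2 : ℕ → Bool} (l : L) (e : Env) (j : ℕ) (hj : 5 + j < K)
    (hstop : ∀ r bs bo, stopB (K := K) (ins l) r bs bo =
      (decide (r = ((5 + j : ℕ) : ZMod K)) && !bs)) :
    Rch (simM K en ins nxt).step (InsQ K y (enc K X e) s2) (cfgA K y X l e)
      ⟨.F l ((K * e.reg j + (5 + j) : ℕ) : ZMod K), K * e.reg j + (5 + j), y, enc K X e,
        outE e⟩ ∧
    stopB (K := K) (ins l) ((K * e.reg j + (5 + j) : ℕ) : ZMod K)
      (enc K X e (K * e.reg j + (5 + j))) (outE e (K * e.reg j + (5 + j))) = true := by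
  constructor
  · refine search_right en ins nxt y _ _ _ l _ ?_ ?_
    · intro p hp
      rw [hstop]
      by_cases h : ((p : ℕ) : ZMod K) = ((5 + j : ℕ) : ZMod K)
      · have h1 := (zc hj).1 h
        have h2 : p / K < e.reg j := div_lt_of h1 hp
        have h3 : enc K X e p = true := by
          unfold enc
          rw [if_neg (by omega), if_pos (by omega), h1]
          have : 5 + j - 5 = j := by omega
          rw [this]
          simpa using h2
        rw [h3]; simp
      · rw [decide_eq_false h]; rfl
    · intro m _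
      exact ⟨by simp, rfl, Or.inl rfl⟩
  · rw [hstop]
    have h1 : (K * e.reg j + (5 + j)) % K = 5 + j := mod_pos' hj
    have h2 : (K * e.reg j + (5 + j)) / K = e.reg j := div_pos' hj
    have h3 : enc K X e (K * e.reg j + (5 + j)) = false := by
      unfold enc
      rw [h1, h2, if_neg (by omega), if_pos (by omega)]
      have : 5 + j - 5 = j := by omega
      rw [this]
      simp
    rw [h3]
    have h4 := (zc hj).2 h1
    rw [h4]
    simp

theorem enc_inc (e : Env) (j : ℕ) (hj : 5 + j < K) :
    enc K X (e.set j (e.reg j + 1)) =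
      Function.update (enc K X e) (K * e.reg j + (5 + j)) true := by
  have h1 : (K * e.reg j + (5 + j)) % K = 5 + j := mod_pos' hj
  have h2 : (K * e.reg j + (5 + j)) / K = e.reg j := div_pos' hj
  funext p
  rw [Function.update_apply]
  by_cases hp : p = K * e.reg j + (5 + j)
  · rw [if_pos hp, hp]
    unfold enc
    rw [h1, h2, if_neg (by omega), if_pos (by omega)]
    have : 5 + j - 5 = j := by omega
    rw [this]
    simp
  · rw [if_neg hp]
    unfold enc
    by_cases h3 : p % K = 1
    · rw [if_pos h3, if_pos h3]; rfl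
    · rw [if_neg h3, if_neg h3]
      by_cases h4 : 5 ≤ p % K
      · rw [if_pos h4, if_pos h4, Env.set_reg]
        by_cases h5 : p % K - 5 = j
        · rw [if_pos h5, h5]
          have h6 : p % K = 5 + j := by omega
          have h7 : p / K ≠ e.reg j := fun h => hp (eq_of_mod_div h6 h)
          rw [decide_eq_decide]
          omega
        · rw [if_neg h5]
      · rw [if_neg h4, if_neg h4]

theorem enc_dec (e : Env) (j : ℕ) (hj : 5 + j < K) :
    enc K X (e.set j (e.reg j - 1)) =
      Function.update (enc K X e) (K * (e.reg j - 1) + (5 + j)) false := by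
  have h1 : (K * (e.reg j - 1) + (5 + j)) % K = 5 + j := mod_pos' hj
  have h2 : (K * (e.reg j - 1) + (5 + j)) / K = e.reg j - 1 := div_pos' hj
  funext p
  rw [Function.update_apply]
  by_cases hp : p = K * (e.reg j - 1) + (5 + j)
  · rw [if_pos hp, hp]
    unfold enc
    rw [h1, h2, if_neg (by omega), if_pos (by omega)]
    have : 5 + j - 5 = j := by omega
    rw [this]
    simp
  · rw [if_neg hp]
    unfold enc
    by_cases h3 : p % K = 1
    · rw [if_pos h3, if_pos h3]; rfl
    · rw [if_neg h3, if_neg h3]
      by_cases h4 : 5 ≤ p % K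
      · rw [if_pos h4, if_pos h4, Env.set_reg]
        by_cases h5 : p % K - 5 = j
        · rw [if_pos h5, h5]
          have h6 : p % K = 5 + j := by omega
          have h7 : p / K ≠ e.reg j - 1 := fun h => hp (eq_of_mod_div h6 h)
          rw [decide_eq_decide]
          omega
        · rw [if_neg h5]
      · rw [if_neg h4, if_neg h4]

theorem enc_wr (e : Env) (v : ℕ) (b : Bool) (hK : 1 < K) :
    enc K X ⟨e.reg, e.sp, Function.update e.cp v b⟩ =
      Function.update (enc K X e) (K * v + 1) b := by
  have h1 : (K * v + 1) % K = 1 := mod_pos' hK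
  have h2 : (K * v + 1) / K = v := div_pos' hK
  funext p
  rw [Function.update_apply]
  by_cases hp : p = K * v + 1
  · rw [if_pos hp, hp]
    unfold enc
    rw [h1, h2, if_pos rfl]
    simp
  · rw [if_neg hp]
    unfold enc
    by_cases h3 : p % K = 1
    · rw [if_pos h3, if_pos h3]
      have : p / K ≠ v := fun h => hp (eq_of_mod_div h3 h)
      simp [this]
    · rw [if_neg h3, if_neg h3]

theorem instr_step (hX0 : ∀ p, p % K = 0 → X p = decide (p = 0))
    (hX2 : ∀ q, X (K * q + 2) = C q) (hreg : ∀ l, 5 + (ins l).rg < K) (l : L) (e : Env) :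
    RchP (simM K en ins nxt).step (InsQ K y (enc K X e) (enc K X (exe (ins l) e)))
      (cfgA K y X l e) (cfgA K y X (nxt l (outb y C (ins l) e)) (exe (ins l) e)) := by
  have hK : 5 < K := by have := hreg l; omega
  have hZ : ∀ e : Env, ∀ p' : ℕ, (((p' : ℕ) : ZMod K) = 0 ∧ enc K X e p' = true) ↔ p' = 0 :=
    enc_Z X hK hX0
  have hQ1 : ∀ (s2 : ℕ → Bool) (st : St L K) (h : ℕ) (o' : ℕ → Bool), st ≠ .H →
      InsQ K y (enc K X e) s2 ⟨st, h, y, enc K X e, o'⟩ :=
    fun _ _ _ _ hst => ⟨hst, rfl, Or.inl rfl⟩
  have hQ2 : ∀ (s2 : ℕ → Bool) (st : St L K) (h : ℕ) (o' : ℕ → Bool), st ≠ .H →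
      InsQ K y (enc K X e) s2 ⟨st, h, y, s2, o'⟩ :=
    fun _ _ _ _ hst => ⟨hst, rfl, Or.inr rfl⟩
  rcases hi : ins l with j | j | j | ⟨j, b⟩ | _ | _ | _
  · -- inc
    have hj : 5 + j < K := by have := hreg l; rw [hi] at this; exact this
    obtain ⟨h1, h2⟩ := find_reg (s2 := enc K X (exe (.inc j) e)) en ins nxt y X l e j hj
      (fun r bs bo => by rw [hi]; rfl)
    set p0 := K * e.reg j + (5 + j) with hp0
    have h3 : (simM K en ins nxt).step ⟨.F l ((p0 : ℕ) : ZMod K), p0, y, enc K X e, outE e⟩ =
        ⟨.T l false ((p0 - 1 : ℕ) : ZMod K), p0 - 1, y, enc K X (exe (.inc j) e), outE e⟩ := by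
      rw [step_scr (simM K en ins nxt) (st' := .T l false ((p0 - 1 : ℕ) : ZMod K))
        (mv := .left) (b := true)]
      · congr 1
        exact (enc_inc X e j hj).symm
      · simp only [simM, simδ]
        rw [if_pos h2, hi]
        simp only [actF]
        rw [Nat.cast_pred (by omega)]
    have h4 := search_ret en ins nxt y (enc K X (exe (.inc j) e)) (outE e)
      (InsQ K y (enc K X e) (enc K X (exe (.inc j) e))) l false (p0 - 1) (hZ _) (hQ2 _)
    rw [hi] at h4
    refine h1.transP ?_
    refine (Rch.one (hQ1 _ _ _ _ (by simp)) ?_).transP ?_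
    · rw [h3]; exact hQ2 _ _ _ _ (by simp)
    · rw [h3]; exact h4
  · -- td
    have hj : 5 + j < K := by have := hreg l; rw [hi] at this; exact this
    obtain ⟨h1, h2⟩ := find_reg (s2 := enc K X (exe (.td j) e)) en ins nxt y X l e j hj
      (fun r bs bo => by rw [hi]; rfl)
    set p0 := K * e.reg j + (5 + j) with hp0
    have h3 : (simM K en ins nxt).step ⟨.F l ((p0 : ℕ) : ZMod K), p0, y, enc K X e, outE e⟩ =
        ⟨.B l ((p0 - 1 : ℕ) : ZMod K), p0 - 1, y, enc K X e, outE e⟩ := by
      rw [step_same (simM K en ins nxt) (st' := .B l ((p0 - 1 : ℕ) : ZMod K)) (mv := .left)]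
      · rfl
      · simp only [simM, simδ]
        rw [if_pos h2, hi]
        simp only [actF]
        rw [Nat.cast_pred (by omega)]
    refine h1.transP ?_
    refine (Rch.one (hQ1 _ _ _ _ (by simp)) ?_).transP ?_
    · rw [h3]; exact hQ1 _ _ _ _ (by simp)
    · rw [h3]
      by_cases h0 : e.reg j = 0
      · -- zero
        have hp : p0 = 5 + j := by rw [hp0, h0]; omega
        have he : exe (.td j) e = e := by
          refine Env.eq_of (fun t => ?_) rfl rfl
          simp only [exe, Env.set_reg]
          split_ifs with ht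
          · subst ht; omega
          · rfl
        have hout : outb y C (.td j) e = false := by simp [outb, h0]
        rw [hout, he]
        have h5 := search_left en ins nxt y (enc K X e) (outE e)
          (InsQ K y (enc K X e) (enc K X e)) l (p0 - 1) 0 (by omega) (by
            intro p' hp'1 hp'2
            rw [hi]
            show ¬ ((p' : ℕ) : ZMod K) = ((5 + j : ℕ) : ZMod K) ∧ _
            rw [zc hj, Nat.mod_eq_of_lt (by omega)]
            refine ⟨by omega, ?_⟩
            rw [hZ]; omega) (fun m _ => hQ1 _ _ _ _ (by simp))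
        refine h5.transP ?_
        have h6 : (simM K en ins nxt).step ⟨.B l ((0 : ℕ) : ZMod K), 0, y, enc K X e, outE e⟩ =
            ⟨.T l false ((0 : ℕ) : ZMod K), 0, y, enc K X e, outE e⟩ := by
          rw [step_same (simM K en ins nxt) (st' := .T l false ((0 : ℕ) : ZMod K)) (mv := .left)]
          · rfl
          · simp only [simM, simδ]
            rw [if_neg, if_pos]
            · simp
            · have := (hZ e 0).2 rfl
              exact this
            · rw [hi]
              show ¬ ((0 : ℕ) : ZMod K) = ((5 + j : ℕ) : ZMod K)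
              rw [zc hj, Nat.zero_mod]
              omega
        refine (Rch.one (hQ1 _ _ _ _ (by simp)) ?_).transP ?_
        · rw [h6]; exact hQ1 _ _ _ _ (by simp)
        · rw [h6]
          have h7 := search_ret en ins nxt y (enc K X e) (outE e)
            (InsQ K y (enc K X e) (enc K X e)) l false 0 (hZ _) (hQ1 _)
          rw [hi] at h7
          exact h7
      · -- positive
        set p1 := K * (e.reg j - 1) + (5 + j) with hp1
        have hout : outb y C (.td j) e = true := by simp [outb, h0]
        rw [hout]
        have hKm : K * e.reg j = K * (e.reg j - 1) + K := by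
          obtain ⟨v, hv⟩ := Nat.exists_eq_succ_of_ne_zero h0
          rw [hv]
          simp [Nat.mul_succ]
        have h5 := search_left en ins nxt y (enc K X e) (outE e)
          (InsQ K y (enc K X e) (enc K X (exe (.td j) e))) l (p0 - 1) p1 (by omega) (by
            intro p' hp'1 hp'2
            rw [hi]
            show ¬ ((p' : ℕ) : ZMod K) = ((5 + j : ℕ) : ZMod K) ∧ _
            rw [zc hj, hZ]
            refine ⟨?_, by omega⟩
            intro hmod
            have h6 : p' / K < e.reg j := div_lt_of hmod (by omega)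
            have h7 := Nat.div_add_mod p' K
            have h8 : K * (p' / K) ≤ K * (e.reg j - 1) := Nat.mul_le_mul_left K (by omega)
            omega) (fun m _ => hQ1 _ _ _ _ (by simp))
        refine h5.transP ?_
        have h6 : (simM K en ins nxt).step
            ⟨.B l ((p1 : ℕ) : ZMod K), p1, y, enc K X e, outE e⟩ =
            ⟨.T l true ((p1 - 1 : ℕ) : ZMod K), p1 - 1, y, enc K X (exe (.td j) e), outE e⟩ := by
          rw [step_scr (simM K en ins nxt) (st' := .T l true ((p1 - 1 : ℕ) : ZMod K))
            (mv := .left) (b := false)]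
          · congr 1
            exact (enc_dec X e j hj).symm
          · simp only [simM, simδ]
            rw [if_pos, hi]
            · simp only [actB]
              rw [Nat.cast_pred (by omega)]
            · rw [hi]
              show ((p1 : ℕ) : ZMod K) = ((5 + j : ℕ) : ZMod K)
              rw [zc hj]
              exact mod_pos' hj
        refine (Rch.one (hQ1 _ _ _ _ (by simp)) ?_).transP ?_
        · rw [h6]; exact hQ2 _ _ _ _ (by simp)
        · rw [h6]
          have h7 := search_ret en ins nxt y (enc K X (exe (.td j) e)) (outE e)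
            (InsQ K y (enc K X e) (enc K X (exe (.td j) e))) l true (p1 - 1) (hZ _) (hQ2 _)
          rw [hi] at h7
          exact h7
  · -- rdC
    have hj : 5 + j < K := by have := hreg l; rw [hi] at this; exact this
    obtain ⟨h1, h2⟩ := find_reg (s2 := enc K X (exe (.rdC j) e)) en ins nxt y X l e j hj
      (fun r bs bo => by rw [hi]; rfl)
    set p0 := K * e.reg j + (5 + j) with hp0
    have h3 : (simM K en ins nxt).step ⟨.F l ((p0 : ℕ) : ZMod K), p0, y, enc K X e, outE e⟩ =
        ⟨.B l ((p0 - 1 : ℕ) : ZMod K), p0 - 1, y, enc K X e, outE e⟩ := by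
      rw [step_same (simM K en ins nxt) (st' := .B l ((p0 - 1 : ℕ) : ZMod K)) (mv := .left)]
      · rfl
      · simp only [simM, simδ]
        rw [if_pos h2, hi]
        simp only [actF]
        rw [Nat.cast_pred (by omega)]
    refine h1.transP ?_
    refine (Rch.one (hQ1 _ _ _ _ (by simp)) ?_).transP ?_
    · rw [h3]; exact hQ1 _ _ _ _ (by simp)
    · rw [h3]
      set p1 := K * e.reg j + 2 with hp1
      have h5 := search_left en ins nxt y (enc K X e) (outE e)
        (InsQ K y (enc K X e) (enc K X (exe (.rdC j) e))) l (p0 - 1) p1 (by omega) (by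
          intro p' hp'1 hp'2
          rw [hi]
          show ¬ ((p' : ℕ) : ZMod K) = ((2 : ℕ) : ZMod K) ∧ _
          rw [zc (by omega), hZ]
          refine ⟨?_, by omega⟩
          intro hmod
          obtain ⟨c, hc⟩ : ∃ c, p' = K * e.reg j + c := ⟨p' - K * e.reg j, by omega⟩
          rw [hc, mod_pos' (by omega)] at hmod
          omega) (fun m _ => hQ1 _ _ _ _ (by simp))
      refine h5.transP ?_
      have hval : enc K X e p1 = C (e.reg j) := by
        unfold enc
        rw [hp1, mod_pos' (by omega), if_neg (by omega), if_neg (by omega), hX2]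
      have h6 : (simM K en ins nxt).step
          ⟨.B l ((p1 : ℕ) : ZMod K), p1, y, enc K X e, outE e⟩ =
          ⟨.T l (C (e.reg j)) ((p1 - 1 : ℕ) : ZMod K), p1 - 1, y, enc K X e, outE e⟩ := by
        rw [step_same (simM K en ins nxt)
          (st' := .T l (C (e.reg j)) ((p1 - 1 : ℕ) : ZMod K)) (mv := .left)]
        · rfl
        · simp only [simM, simδ]
          rw [if_pos, hi]
          · simp only [actB]
            rw [Nat.cast_pred (by omega), hval]
          · rw [hi]
            show ((p1 : ℕ) : ZMod K) = ((2 : ℕ) : ZMod K)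
            rw [zc (by omega)]
            exact mod_pos' (by omega)
      refine (Rch.one (hQ1 _ _ _ _ (by simp)) ?_).transP ?_
      · rw [h6]; exact hQ1 _ _ _ _ (by simp)
      · rw [h6]
        have h7 := search_ret en ins nxt y (enc K X e) (outE e)
          (InsQ K y (enc K X e) (enc K X (exe (.rdC j) e))) l (C (e.reg j)) (p1 - 1) (hZ _)
          (hQ1 _)
        rw [hi] at h7
        exact h7
  · -- wr
    have hj : 5 + j < K := by have := hreg l; rw [hi] at this; exact this
    obtain ⟨h1, h2⟩ := find_reg (s2 := enc K X (exe (.wr j b) e)) en ins nxt y X l e j hj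
      (fun r bs bo => by rw [hi]; rfl)
    set p0 := K * e.reg j + (5 + j) with hp0
    have h3 : (simM K en ins nxt).step ⟨.F l ((p0 : ℕ) : ZMod K), p0, y, enc K X e, outE e⟩ =
        ⟨.B l ((p0 - 1 : ℕ) : ZMod K), p0 - 1, y, enc K X e, outE e⟩ := by
      rw [step_same (simM K en ins nxt) (st' := .B l ((p0 - 1 : ℕ) : ZMod K)) (mv := .left)]
      · rfl
      · simp only [simM, simδ]
        rw [if_pos h2, hi]
        simp only [actF]
        rw [Nat.cast_pred (by omega)]
    refine h1.transP ?_
    refine (Rch.one (hQ1 _ _ _ _ (by simp)) ?_).transP ?_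
    · rw [h3]; exact hQ1 _ _ _ _ (by simp)
    · rw [h3]
      set p1 := K * e.reg j + 1 with hp1
      have h5 := search_left en ins nxt y (enc K X e) (outE e)
        (InsQ K y (enc K X e) (enc K X (exe (.wr j b) e))) l (p0 - 1) p1 (by omega) (by
          intro p' hp'1 hp'2
          rw [hi]
          show ¬ ((p' : ℕ) : ZMod K) = ((1 : ℕ) : ZMod K) ∧ _
          rw [zc (by omega), hZ]
          refine ⟨?_, by omega⟩
          intro hmod
          obtain ⟨c, hc⟩ : ∃ c, p' = K * e.reg j + c := ⟨p' - K * e.reg j, by omega⟩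
          rw [hc, mod_pos' (by omega)] at hmod
          omega) (fun m _ => hQ1 _ _ _ _ (by simp))
      refine h5.transP ?_
      have h6 : (simM K en ins nxt).step
          ⟨.B l ((p1 : ℕ) : ZMod K), p1, y, enc K X e, outE e⟩ =
          ⟨.T l false ((p1 - 1 : ℕ) : ZMod K), p1 - 1, y, enc K X (exe (.wr j b) e),
            outE e⟩ := by
        rw [step_scr (simM K en ins nxt)
          (st' := .T l false ((p1 - 1 : ℕ) : ZMod K)) (mv := .left) (b := b)]
        · congr 1
          exact (enc_wr X e (e.reg j) b (by omega)).symm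
        · simp only [simM, simδ]
          rw [if_pos, hi]
          · simp only [actB]
            rw [Nat.cast_pred (by omega)]
          · rw [hi]
            show ((p1 : ℕ) : ZMod K) = ((1 : ℕ) : ZMod K)
            rw [zc (by omega)]
            exact mod_pos' (by omega)
      refine (Rch.one (hQ1 _ _ _ _ (by simp)) ?_).transP ?_
      · rw [h6]; exact hQ2 _ _ _ _ (by simp)
      · rw [h6]
        have h7 := search_ret en ins nxt y (enc K X (exe (.wr j b) e)) (outE e)
          (InsQ K y (enc K X e) (enc K X (exe (.wr j b) e))) l false (p1 - 1) (hZ _) (hQ2 _)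
        rw [hi] at h7
        exact h7
  · -- rdY
    have h1 := search_right en ins nxt y (enc K X e) (outE e)
      (InsQ K y (enc K X e) (enc K X (exe .rdY e))) l e.sp (by
        intro p hp
        rw [hi]
        simp [stopB, outE, hp]) (fun m _ => hQ1 _ _ _ _ (by simp))
    have h3 : (simM K en ins nxt).step
        ⟨.F l ((e.sp : ℕ) : ZMod K), e.sp, y, enc K X e, outE e⟩ =
        ⟨.T l (y e.sp) ((e.sp - 1 : ℕ) : ZMod K), e.sp - 1, y, enc K X e, outE e⟩ := by
      rw [step_same (simM K en ins nxt) (st' := .T l (y e.sp) ((e.sp - 1 : ℕ) : ZMod K))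
        (mv := .left)]
      · rfl
      · simp only [simM, simδ]
        rw [if_pos (by rw [hi]; simp [stopB, outE]), hi]
        simp only [actF]
        rw [prv_eq (hZ e)]
    refine h1.transP ?_
    refine (Rch.one (hQ1 _ _ _ _ (by simp)) ?_).transP ?_
    · rw [h3]; exact hQ1 _ _ _ _ (by simp)
    · rw [h3]
      have h7 := search_ret en ins nxt y (enc K X e) (outE e)
        (InsQ K y (enc K X e) (enc K X (exe .rdY e))) l (y e.sp) (e.sp - 1) (hZ _) (hQ1 _)
      rw [hi] at h7
      exact h7
  · -- incS
    have h1 := search_right en ins nxt y (enc K X e) (outE e)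
      (InsQ K y (enc K X e) (enc K X (exe .incS e))) l e.sp (by
        intro p hp
        rw [hi]
        simp [stopB, outE, hp]) (fun m _ => hQ1 _ _ _ _ (by simp))
    have h3 : (simM K en ins nxt).step
        ⟨.F l ((e.sp : ℕ) : ZMod K), e.sp, y, enc K X e, outE e⟩ =
        ⟨.T l false ((e.sp - 1 : ℕ) : ZMod K), e.sp - 1, y, enc K X e, outE (exe .incS e)⟩ := by
      rw [step_out (simM K en ins nxt) (st' := .T l false ((e.sp - 1 : ℕ) : ZMod K))
        (mv := .left) (b := true)]
      · congr 1
        funext p
        rw [Function.update_apply]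
        by_cases hp : p = e.sp
        · rw [if_pos hp, hp]
          symm
          exact decide_eq_true (show e.sp < e.sp + 1 by omega)
        · rw [if_neg hp, Bool.eq_iff_iff]
          unfold outE
          rw [decide_eq_true_iff, decide_eq_true_iff]
          show p < e.sp ↔ p < e.sp + 1
          omega
      · simp only [simM, simδ]
        rw [if_pos (by rw [hi]; simp [stopB, outE]), hi]
        simp only [actF]
        rw [prv_eq (hZ e)]
    refine h1.transP ?_
    refine (Rch.one (hQ1 _ _ _ _ (by simp)) ?_).transP ?_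
    · rw [h3]; exact hQ1 _ _ _ _ (by simp)
    · rw [h3]
      have h7 := search_ret en ins nxt y (enc K X e) (outE (exe .incS e))
        (InsQ K y (enc K X e) (enc K X (exe .incS e))) l false (e.sp - 1) (hZ _) (hQ1 _)
      rw [hi] at h7
      exact h7
  · -- rstS
    have h1 := search_right en ins nxt y (enc K X e) (outE e)
      (InsQ K y (enc K X e) (enc K X (exe .rstS e))) l e.sp (by
        intro p hp
        rw [hi]
        simp [stopB, outE, hp]) (fun m _ => hQ1 _ _ _ _ (by simp))
    have h3 : (simM K en ins nxt).step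
        ⟨.F l ((e.sp : ℕ) : ZMod K), e.sp, y, enc K X e, outE e⟩ =
        ⟨.T l false ((e.sp - 1 : ℕ) : ZMod K), e.sp - 1, y, enc K X e, outE e⟩ := by
      rw [step_same (simM K en ins nxt) (st' := .T l false ((e.sp - 1 : ℕ) : ZMod K))
        (mv := .left)]
      · rfl
      · simp only [simM, simδ]
        rw [if_pos (by rw [hi]; simp [stopB, outE]), hi]
        simp only [actF]
        rw [prv_eq (hZ e)]
    refine h1.transP ?_
    refine (Rch.one (hQ1 _ _ _ _ (by simp)) ?_).transP ?_
    · rw [h3]; exact hQ1 _ _ _ _ (by simp)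
    · rw [h3]
      have h7 := search_ret en ins nxt y (enc K X e) (outE e)
        (InsQ K y (enc K X e) (enc K X (exe .rstS e))) l false (e.sp - 1) (hZ _) (hQ1 _)
      rw [hi] at h7
      have h8 : (if Instr.rstS.isRst = true then (fun q => if q ≤ e.sp - 1 then false
          else outE e q) else outE e) = outE (exe .rstS e) := by
        rw [if_pos (show Instr.rstS.isRst = true from rfl)]
        funext q
        by_cases hq : q ≤ e.sp - 1
        · rw [if_pos hq]
          symm
          exact decide_eq_false (show ¬ q < 0 by omega)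
        · rw [if_neg hq, Bool.eq_iff_iff]
          unfold outE
          rw [decide_eq_true_iff, decide_eq_true_iff]
          show q < e.sp ↔ q < 0
          omega
      rw [h8] at h7
      exact h7

end instr

end Pool.Agent.H81.ITTM
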