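import Mathlib
import Pool.Agent.H81.ITTM.TM3
import Pool.Agent.H81.ITTM.Body

/-!
# The three phases of the simulation of one step of a network
-/

set_option autoImplicit false

namespace Pool.Agent.H81.ITTM

open Ordinal

section omega

variable {S : Type} (M : Machine S) (y : ℕ → Bool)

theorem lt_add_omega {σ γ : Ordinal.{0}} (h1 : σ ≤ γ) (h2 : γ < σ + ω) : ∃ n : ℕ, γ = σ + n := by
  obtain ⟨γ', rfl⟩ : ∃ γ', γ = σ + γ' := ⟨γ - σ, (Ordinal.add_sub_cancel_of_le h1).symm⟩
  have h3 : γ' < ω := by simpa using h2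
  obtain ⟨n, rfl⟩ := Ordinal.lt_omega0.1 h3
  exact ⟨n, rfl⟩

theorem isSuccLimit_add_omega (σ : Ordinal.{0}) : Order.IsSuccLimit (σ + ω) :=
  Ordinal.isSuccLimit_add σ Ordinal.isSuccLimit_omega0

theorem limsup_omega {σ : Ordinal.{0}} {f : Ordinal.{0} → Bool} {v : Bool} (T : ℕ)
    (h : ∀ t ≥ T, f (σ + (t : ℕ)) = v) : limsupBit (σ + ω) (fun γ _ => f γ) = v := by
  rw [Bool.eq_iff_iff, limsupBit_iff]
  symm
  refine bool_limit_const (s := σ + T) ?_ ?_
  · gcongr
    exact Ordinal.natCast_lt_omega0 T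
  · intro γ h1 h2
    obtain ⟨n, rfl⟩ := lt_add_omega (le_trans le_self_add h1) h2
    apply h
    have : ((T : ℕ) : Ordinal.{0}) ≤ n := by simpa using h1
    exact_mod_cast this

theorem run_omega_state (σ : Ordinal.{0}) : (M.run y (σ + ω)).state = M.limit := by
  rw [run_limit M y (isSuccLimit_add_omega σ)]

theorem run_omega_head (σ : Ordinal.{0}) : (M.run y (σ + ω)).head = 0 := by
  rw [run_limit M y (isSuccLimit_add_omega σ)]

theorem run_omega_scr {σ : Ordinal.{0}} {p : ℕ} {v : Bool} (T : ℕ)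
    (h : ∀ t ≥ T, (M.step^[t] (M.run y σ)).scr p = v) : (M.run y (σ + ω)).scr p = v := by
  rw [run_limit M y (isSuccLimit_add_omega σ)]
  exact limsup_omega (f := fun γ => (M.run y γ).scr p) T
    (fun t ht => by rw [run_add_nat]; exact h t ht)

theorem run_omega_inp {σ : Ordinal.{0}} {p : ℕ} {v : Bool} (T : ℕ)
    (h : ∀ t ≥ T, (M.step^[t] (M.run y σ)).inp p = v) : (M.run y (σ + ω)).inp p = v := by
  rw [run_limit M y (isSuccLimit_add_omega σ)]
  exact limsup_omega (f := fun γ => (M.run y γ).inp p) T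
    (fun t ht => by rw [run_add_nat]; exact h t ht)

theorem run_omega_out {σ : Ordinal.{0}} {p : ℕ} {v : Bool} (T : ℕ)
    (h : ∀ t ≥ T, (M.step^[t] (M.run y σ)).out p = v) : (M.run y (σ + ω)).out p = v := by
  rw [run_limit M y (isSuccLimit_add_omega σ)]
  exact limsup_omega (f := fun γ => (M.run y γ).out p) T
    (fun t ht => by rw [run_add_nat]; exact h t ht)

end omega

variable {L : Type} {K : ℕ}

/-- Configurations at the beginning of a phase. -/
structure Good (K : ℕ) (y C : ℕ → Bool) (fa fb : Bool) (c : Config (St L K)) : Prop where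
  st : c.state = .L0
  hd : c.head = 0
  inp : c.inp = y
  cls2 : ∀ q, c.scr (K * q + 2) = C q
  fa : c.scr 3 = fa
  fb : c.scr 4 = fb

structure Clean (K : ℕ) (c : Config (St L K)) : Prop where
  cls0 : ∀ p, p % K = 0 → c.scr p = decide (p = 0)
  cls5 : ∀ p, 5 ≤ p % K → c.scr p = false
  out : ∀ p, c.out p = false

/-- Invariant at all times. -/
def Mid (K : ℕ) (C C' : ℕ → Bool) (c : Config (St L K)) : Prop :=
  c.state ≠ .H ∧ ∀ q, c.scr (K * q + 2) = C q ∨ c.scr (K * q + 2) = C' q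

section phases

variable (en : L) (ins : L → Instr) (nxt : L → Bool → L) (y : ℕ → Bool)

theorem two_mod (hK : 4 < K) (q : ℕ) : (K * q + 2) % K = 2 := mod_pos' (by omega)

theorem ne34 {p : ℕ} (hK : 4 < K) (h3 : p % K ≠ 3) (h4 : p % K ≠ 4) : p ≠ 3 ∧ p ≠ 4 := by
  constructor
  · rintro rfl
    exact h3 (Nat.mod_eq_of_lt (by omega))
  · rintro rfl
    exact h4 (Nat.mod_eq_of_lt (by omega))

/-- General form of a phase. -/
theorem phase_split {c0 : Config (St L K)} {C : ℕ → Bool} {fa fb : Bool} {ph : Ph}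
    (hg : Good K y C fa fb c0) (hd : decPh (C 0) fa fb = some ph) :
    ∃ n0 : ℕ, (∀ t < n0, ((simM K en ins nxt).step^[t] c0).state ≠ .H ∧
      ∀ p, p ≠ 3 → p ≠ 4 → ((simM K en ins nxt).step^[t] c0).scr p = c0.scr p) ∧
      (∀ t, ((simM K en ins nxt).step^[n0 + t] c0) = (simM K en ins nxt).step^[t]
        ⟨entry en ph, 0, y, Function.update (Function.update c0.scr 4 ph.fb) 3 ph.fa, c0.out⟩) := by
  obtain ⟨st, hd', inp, scr, out⟩ := c0
  have h1 := hg.st
  have h2 := hg.hd
  have h3 := hg.inp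
  simp only at h1 h2 h3
  subst h1 h2 h3
  have e2 : scr 2 = C 0 := by have := hg.cls2 0; simpa using this
  have e3 : scr 3 = fa := hg.fa
  have e4 : scr 4 = fb := hg.fb
  obtain ⟨n, h5, h6⟩ := prelude_ok (K := K) en ins nxt inp scr out (ph := ph)
    (by rw [e2, e3, e4]; exact hd)
  refine ⟨n, fun t ht => ⟨(h6 t ht.le).1, (h6 t ht.le).2.2⟩, fun t => ?_⟩
  rw [Nat.add_comm, Function.iterate_add_apply, h5]

theorem phase_halt {c0 : Config (St L K)} {C : ℕ → Bool} {fa fb : Bool}
    (hg : Good K y C fa fb c0) (hd : decPh (C 0) fa fb = none) :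
    ((simM K en ins nxt).step^[5] c0).state = .H := by
  obtain ⟨st, hd', inp, scr, out⟩ := c0
  have h1 := hg.st
  have h2 := hg.hd
  have h3 := hg.inp
  simp only at h1 h2 h3
  subst h1 h2 h3
  have e2 : scr 2 = C 0 := by have := hg.cls2 0; simpa using this
  have e3 : scr 3 = fa := hg.fa
  have e4 : scr 4 = fb := hg.fb
  exact prelude_halt en ins nxt inp scr out (by rw [e2, e3, e4]; exact hd)

theorem phaseS (hK : 5 < K) {σ : Ordinal.{0}} {C : ℕ → Bool} {fa fb : Bool}
    (hg : Good K y C fa fb ((simM K en ins nxt).run y σ)) (hd : decPh (C 0) fa fb = some .S) :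
    (∀ n : ℕ, Mid K C C ((simM K en ins nxt).run y (σ + n))) ∧
    Good K y C true false ((simM K en ins nxt).run y (σ + ω)) ∧
    Clean K ((simM K en ins nxt).run y (σ + ω)) := by
  set M := simM K en ins nxt with hM
  set c0 := M.run y σ with hc0
  obtain ⟨n0, h1, h2⟩ := phase_split en ins nxt y hg hd
  rw [← hM] at h1 h2
  set s1 := Function.update (Function.update c0.scr 4 Ph.S.fb) 3 Ph.S.fa with hs1
  have hs1' : ∀ p, p ≠ 3 → p ≠ 4 → s1 p = c0.scr p := by
    intro p h3 h4
    simp [hs1, h3, h4]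
  have h3 : ∀ t, M.step^[n0 + t] c0 = cfgS y s1 c0.out K t := by
    intro t
    rw [h2]
    exact sweepS_iter en ins nxt y s1 c0.out (by omega) t
  have h4 : ∀ p t, n0 + (p + 1) ≤ t → (M.step^[t] c0).scr p = cleanS K s1 p ∧
      (M.step^[t] c0).out p = false ∧ (M.step^[t] c0).inp = y := by
    intro p t ht
    obtain ⟨t', rfl⟩ : ∃ t', t = n0 + t' := ⟨t - n0, by omega⟩
    rw [h3]
    refine ⟨?_, ?_, rfl⟩
    · show (if p < t' then cleanS K s1 p else s1 p) = _
      rw [if_pos (by omega)]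
    · show (if p < t' then false else _) = _
      rw [if_pos (by omega)]
  have hscr : ∀ p, (M.run y (σ + ω)).scr p = cleanS K s1 p := fun p =>
    run_omega_scr M y (n0 + (p + 1)) (fun t ht => (h4 p t ht).1)
  have hcl2 : ∀ q, s1 (K * q + 2) = C q := by
    intro q
    have := ne34 (K := K) (p := K * q + 2) (by omega) (by rw [two_mod (by omega)]; omega)
      (by rw [two_mod (by omega)]; omega)
    rw [hs1' _ this.1 this.2, hg.cls2]
  refine ⟨?_, ⟨run_omega_state M y σ, run_omega_head M y σ, ?_, ?_, ?_, ?_⟩, ⟨?_, ?_, ?_⟩⟩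
  · intro n
    rw [run_add_nat]
    rcases Nat.lt_or_ge n n0 with hn | hn
    · refine ⟨(h1 n hn).1, fun q => Or.inl ?_⟩
      have := ne34 (K := K) (p := K * q + 2) (by omega) (by rw [two_mod (by omega)]; omega)
        (by rw [two_mod (by omega)]; omega)
      rw [(h1 n hn).2 _ this.1 this.2, hg.cls2]
    · obtain ⟨t', rfl⟩ : ∃ t', n = n0 + t' := ⟨n - n0, by omega⟩
      rw [h3]
      refine ⟨by simp [cfgS], fun q => Or.inl ?_⟩
      show (if K * q + 2 < t' then cleanS K s1 (K * q + 2) else s1 (K * q + 2)) = C q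
      have e1 : cleanS K s1 (K * q + 2) = s1 (K * q + 2) := by
        unfold cleanS
        rw [two_mod (by omega)]
        simp
      rw [e1, hcl2]
      simp
  · funext p
    exact run_omega_inp M y (n0 + (p + 1)) (fun t ht => by rw [(h4 p t ht).2.2])
  · intro q
    rw [hscr]
    unfold cleanS
    rw [two_mod (by omega)]
    simp [hcl2]
  · rw [hscr]
    unfold cleanS
    rw [Nat.mod_eq_of_lt (by omega : 3 < K)]
    simp [hs1, Ph.fa]
  · rw [hscr]
    unfold cleanS
    rw [Nat.mod_eq_of_lt (by omega : 4 < K)]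
    simp [hs1, Ph.fb]
  · intro p hp
    rw [hscr]
    unfold cleanS
    rw [if_pos hp]
  · intro p hp
    rw [hscr]
    unfold cleanS
    rw [if_neg (by omega), if_neg (by omega)]
  · intro p
    exact run_omega_out M y (n0 + (p + 1)) (fun t ht => (h4 p t ht).2.1)

theorem phaseB (hK : 5 < K) {σ : Ordinal.{0}} {C C' : ℕ → Bool}
    (hg : Good K y C false true ((simM K en ins nxt).run y σ))
    (hF : ∀ q, ((simM K en ins nxt).run y σ).scr (K * q + 1) = C' q) :
    (∀ n : ℕ, Mid K C C' ((simM K en ins nxt).run y (σ + n))) ∧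
    Good K y C' true true ((simM K en ins nxt).run y (σ + ω)) := by
  set M := simM K en ins nxt with hM
  set c0 := M.run y σ with hc0
  have hd : decPh (C 0) false true = some .B := by simp [decPh]
  obtain ⟨n0, h1, h2⟩ := phase_split en ins nxt y hg hd
  rw [← hM] at h1 h2
  set s1 := Function.update (Function.update c0.scr 4 Ph.B.fb) 3 Ph.B.fa with hs1
  have hs1' : ∀ p, p ≠ 3 → p ≠ 4 → s1 p = c0.scr p := by
    intro p h3 h4
    simp [hs1, h3, h4]
  have h3 : ∀ t, M.step^[n0 + t] c0 = cfgB y s1 c0.out K t := by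
    intro t
    rw [h2]
    exact sweepB_iter en ins nxt y s1 c0.out (by omega) t
  have h4 : ∀ p t, n0 + (p + 1) ≤ t → (M.step^[t] c0).scr p =
      (if p % K = 2 then s1 (p - 1) else s1 p) ∧ (M.step^[t] c0).inp = y := by
    intro p t ht
    obtain ⟨t', rfl⟩ : ∃ t', t = n0 + t' := ⟨t - n0, by omega⟩
    rw [h3]
    refine ⟨?_, rfl⟩
    show (if p < t' ∧ p % K = 2 then s1 (p - 1) else s1 p) = _
    have : p < t' := by omega
    simp [this]
  have hscr : ∀ p, (M.run y (σ + ω)).scr p = (if p % K = 2 then s1 (p - 1) else s1 p) :=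
    fun p => run_omega_scr M y (n0 + (p + 1)) (fun t ht => (h4 p t ht).1)
  have hcl2 : ∀ q, s1 (K * q + 2) = C q := by
    intro q
    have := ne34 (K := K) (p := K * q + 2) (by omega) (by rw [two_mod (by omega)]; omega)
      (by rw [two_mod (by omega)]; omega)
    rw [hs1' _ this.1 this.2, hg.cls2]
  have hcl1 : ∀ q, s1 (K * q + 2 - 1) = C' q := by
    intro q
    have e1 : K * q + 2 - 1 = K * q + 1 := by omega
    rw [e1]
    have e2 : (K * q + 1) % K = 1 := mod_pos' (by omega)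
    have := ne34 (K := K) (p := K * q + 1) (by omega) (by rw [e2]; omega)
      (by rw [e2]; omega)
    rw [hs1' _ this.1 this.2, hF]
  refine ⟨?_, ⟨run_omega_state M y σ, run_omega_head M y σ, ?_, ?_, ?_, ?_⟩⟩
  · intro n
    rw [run_add_nat]
    rcases Nat.lt_or_ge n n0 with hn | hn
    · refine ⟨(h1 n hn).1, fun q => Or.inl ?_⟩
      have := ne34 (K := K) (p := K * q + 2) (by omega) (by rw [two_mod (by omega)]; omega)
        (by rw [two_mod (by omega)]; omega)
      rw [(h1 n hn).2 _ this.1 this.2, hg.cls2]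
    · obtain ⟨t', rfl⟩ : ∃ t', n = n0 + t' := ⟨n - n0, by omega⟩
      rw [h3]
      refine ⟨by simp [cfgB], fun q => ?_⟩
      show (if K * q + 2 < t' ∧ (K * q + 2) % K = 2 then s1 (K * q + 2 - 1)
        else s1 (K * q + 2)) = C q ∨ (if K * q + 2 < t' ∧ (K * q + 2) % K = 2 then
        s1 (K * q + 2 - 1) else s1 (K * q + 2)) = C' q
      rw [hcl1, hcl2]
      split_ifs
      · exact Or.inr rfl
      · exact Or.inl rfl
  · funext p
    exact run_omega_inp M y (n0 + (p + 1)) (fun t ht => by rw [(h4 p t ht).2])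
  · intro q
    rw [hscr, two_mod (by omega), if_pos rfl, hcl1]
  · rw [hscr, Nat.mod_eq_of_lt (by omega : 3 < K)]
    simp [hs1, Ph.fa]
  · rw [hscr, Nat.mod_eq_of_lt (by omega : 4 < K)]
    simp [hs1, Ph.fb]

theorem phaseA (hK : 5 < K) (hreg : ∀ l, 5 + (ins l).rg < K) {b : ℕ → ℕ}
    {φ : ℕ → ℕ → ℕ → ℕ} {sb sφ : Stmt}
    (hb : Computes sb (fun v : List.Vector ℕ 1 => b v.head) (fun _ => 0) 1 8)
    (hφ : Computes sφ (fun v : List.Vector ℕ 3 => φ (v.get 0) (v.get 1) (v.get 2))
      ![0, 3, 4] 5 8) (hE : Emb ins nxt (body sb sφ) en en) {σ : Ordinal.{0}} {C : ℕ → Bool}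
    (hg : Good K y C true false ((simM K en ins nxt).run y σ))
    (hc : Clean K ((simM K en ins nxt).run y σ)) :
    (∀ n : ℕ, Mid K C C ((simM K en ins nxt).run y (σ + n))) ∧
    Good K y C false true ((simM K en ins nxt).run y (σ + ω)) ∧
    ∀ q, ((simM K en ins nxt).run y (σ + ω)).scr (K * q + 1) =
      decide (φ q (num y (b q)) (num C (b q)) ≠ 0) := by
  set M := simM K en ins nxt with hM
  set c0 := M.run y σ with hc0
  have hd : decPh (C 0) true false = some .A := by simp [decPh]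
  obtain ⟨n0, h1, h2⟩ := phase_split en ins nxt y hg hd
  rw [← hM] at h1 h2
  set s1 := Function.update (Function.update c0.scr 4 Ph.A.fb) 3 Ph.A.fa with hs1
  have hs1' : ∀ p, p ≠ 3 → p ≠ 4 → s1 p = c0.scr p := by
    intro p h3 h4
    simp [hs1, h3, h4]
  have hmod : ∀ p, p % K ≠ 3 → p % K ≠ 4 → s1 p = c0.scr p := by
    intro p h3 h4
    have := ne34 (K := K) (p := p) (by omega) h3 h4
    exact hs1' p this.1 this.2
  have hX0 : ∀ p, p % K = 0 → s1 p = decide (p = 0) := by
    intro p hp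
    rw [hmod p (by omega) (by omega), hc.cls0 p hp]
  have hX2 : ∀ q, s1 (K * q + 2) = C q := by
    intro q
    have e2 := two_mod (K := K) (by omega) q
    rw [hmod _ (by omega) (by omega), hg.cls2]
  -- initial environment
  set cp0 : ℕ → Bool := fun q => s1 (K * q + 1) with hcp0
  set e0 : Env := mkE 0 0 0 0 0 0 0 0 cp0 with he0
  have hreg0 : ∀ t, e0.reg t = 0 := by
    intro t
    simp [he0, mkE]
  have henc : enc K s1 e0 = s1 := by
    funext p
    unfold enc
    by_cases h3 : p % K = 1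
    · rw [if_pos h3]
      show s1 (K * (p / K) + 1) = s1 p
      congr 1
      exact (eq_of_mod_div h3 rfl).symm
    · rw [if_neg h3]
      by_cases h4 : 5 ≤ p % K
      · rw [if_pos h4, hreg0, hmod p (by omega) (by omega), hc.cls5 p h4]
        simp
      · rw [if_neg h4]
  have hout : outE e0 = c0.out := by
    funext p
    rw [hc.out p]
    simp [outE, he0, mkE]
  -- the sequence of environments
  let fl : ℕ → L × Env := fun n => (fstep y C ins nxt)^[n] (en, e0)
  have hfl : ∀ n, fl (n + 1) = fstep y C ins nxt (fl n) :=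
    fun n => Function.iterate_succ_apply' _ _ _
  have hchain : ∀ n, RchP M.step (InsQ K y (enc K s1 (fl n).2) (enc K s1 (fl (n + 1)).2))
      (cfgA K y s1 (fl n).1 (fl n).2) (cfgA K y s1 (fl (n + 1)).1 (fl (n + 1)).2) := by
    intro n
    rw [hfl]
    exact instr_step en ins nxt y C s1 hX0 hX2 hreg (fl n).1 (fl n).2
  have h3 : ∀ t, M.step^[n0 + t] c0 = M.step^[t] (cfgA K y s1 (fl 0).1 (fl 0).2) := by
    intro t
    rw [h2]
    congr 1
    show _ = cfgA K y s1 en e0
    unfold cfgA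
    rw [henc, hout]
    rfl
  obtain ⟨hq1, hq2⟩ := RchP.seq (a := fun n => cfgA K y s1 (fl n).1 (fl n).2) hchain
  have hencX : ∀ (e : Env) p, p % K ≠ 1 → p % K < 5 → enc K s1 e p = s1 p := by
    intro e p h3 h4
    unfold enc
    rw [if_neg h3, if_neg (by omega)]
  have hlow : ∀ p, p % K ≠ 1 → p % K < 5 → ∀ t, (M.step^[n0 + t] c0).scr p = s1 p := by
    intro p h4 h5 t
    rw [h3]
    obtain ⟨n, _, _, h6⟩ := hq1 t
    rcases h6 with h6 | h6
    · rw [h6, hencX _ _ h4 h5]
    · rw [h6, hencX _ _ h4 h5]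
  have hlow' : ∀ p, p % K ≠ 1 → p % K < 5 → (M.run y (σ + ω)).scr p = s1 p := by
    intro p h4 h5
    refine run_omega_scr M y n0 (fun t ht => ?_)
    obtain ⟨t', rfl⟩ : ∃ t', t = n0 + t' := ⟨t - n0, by omega⟩
    exact hlow p h4 h5 t'
  have hm3 : 3 % K = 3 := Nat.mod_eq_of_lt (by omega)
  have hm4 : 4 % K = 4 := Nat.mod_eq_of_lt (by omega)
  refine ⟨?_, ⟨run_omega_state M y σ, run_omega_head M y σ, ?_, ?_, ?_, ?_⟩, ?_⟩
  · intro n
    rw [run_add_nat]
    rcases Nat.lt_or_ge n n0 with hn | hn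
    · refine ⟨(h1 n hn).1, fun q => Or.inl ?_⟩
      have e2 := two_mod (K := K) (by omega) q
      have := ne34 (K := K) (p := K * q + 2) (by omega) (by omega) (by omega)
      rw [(h1 n hn).2 _ this.1 this.2, hg.cls2]
    · obtain ⟨t', rfl⟩ : ∃ t', n = n0 + t' := ⟨n - n0, by omega⟩
      refine ⟨?_, fun q => Or.inl ?_⟩
      · rw [h3]
        obtain ⟨n, h4, _, _⟩ := hq1 t'
        exact h4
      · have e2 := two_mod (K := K) (by omega) q
        rw [hlow _ (by omega) (by omega), hX2]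
  · funext p
    refine run_omega_inp M y n0 (fun t ht => ?_)
    obtain ⟨t', rfl⟩ : ∃ t', t = n0 + t' := ⟨t - n0, by omega⟩
    rw [h3]
    obtain ⟨n, _, h5, _⟩ := hq1 t'
    rw [h5]
  · intro q
    have e2 := two_mod (K := K) (by omega) q
    rw [hlow' _ (by omega) (by omega), hX2]
  · rw [hlow' 3 (by omega) (by omega)]
    simp [hs1, Ph.fa]
  · rw [hlow' 4 (by omega) (by omega)]
    simp [hs1, Ph.fb]
  · intro q
    obtain ⟨N, hN⟩ := flat_run (y := y) (C := C) hb hφ hE cp0 q
    obtain ⟨T, hT⟩ := hq2 N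
    have e1 : (K * q + 1) % K = 1 := mod_pos' (by omega)
    have e2 : (K * q + 1) / K = q := div_pos' (by omega)
    have henc1 : ∀ n ≥ N, enc K s1 (fl n).2 (K * q + 1) =
        decide (φ q (num y (b q)) (num C (b q)) ≠ 0) := by
      intro n hn
      unfold enc
      rw [if_pos e1, e2]
      exact hN n hn
    refine run_omega_scr M y (n0 + T) (fun t ht => ?_)
    obtain ⟨t', rfl⟩ : ∃ t', t = n0 + t' := ⟨t - n0, by omega⟩
    rw [h3]
    obtain ⟨n, hn, _, _, h6⟩ := hT t' (by omega)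
    rcases h6 with h6 | h6
    · rw [h6]; exact henc1 n hn
    · rw [h6]; exact henc1 (n + 1) (by omega)

end phases

end Pool.Agent.H81.ITTM
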