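import Mathlib
import Pool.Agent.H81.ITTM.Phases
import Pool.Agent.H81.ITTM.PRF

/-!
# Every primitive recursive network is simulated by an infinite time Turing machine
-/

set_option autoImplicit false

namespace Pool.Agent.H81.ITTM

open Ordinal

variable {L : Type} {K : ℕ}

theorem lt_three {ρ : Ordinal.{0}} (h : ρ < ω + ω + ω) :
    (∃ n : ℕ, ρ = n) ∨ (∃ n : ℕ, ρ = ω + n) ∨ (∃ n : ℕ, ρ = ω + ω + n) := by
  rcases lt_or_ge ρ ω with h1 | h1
  · exact Or.inl (Ordinal.lt_omega0.1 h1)
  · rcases lt_or_ge ρ (ω + ω) with h2 | h2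
    · exact Or.inr (Or.inl (lt_add_omega h1 h2))
    · exact Or.inr (Or.inr (lt_add_omega h2 h))

theorem simδ_inp (en : L) (ins : L → Instr) (nxt : L → Bool → L) (s : St L K)
    (b : Bool × Bool × Bool) : (simδ en ins nxt s b).2.1.1 = b.1 := by
  cases s <;> simp only [simδ]
  case L4 c fa => rcases decPh c fa b.2.1 with _ | ph <;> rfl
  case F l r =>
    split_ifs
    · unfold actF; split <;> rfl
    · rfl
  case B l r =>
    split_ifs
    · unfold actB; split <;> rfl
    · rfl
    · rfl
  case T l e r => split_ifs <;> rfl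

theorem simM_inp (en : L) (ins : L → Instr) (nxt : L → Bool → L) (y : ℕ → Bool)
    (σ : Ordinal.{0}) : ((simM K en ins nxt).run y σ).inp = y := by
  induction σ using Ordinal.limitRecOn with
  | zero => rw [run_zero]; rfl
  | add_one σ ih =>
    rw [run_add_one]
    unfold Machine.step
    simp only
    have h := simδ_inp en ins nxt ((simM K en ins nxt).run y σ).state
      (((simM K en ins nxt).run y σ).inp ((simM K en ins nxt).run y σ).head,
      ((simM K en ins nxt).run y σ).scr ((simM K en ins nxt).run y σ).head,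
      ((simM K en ins nxt).run y σ).out ((simM K en ins nxt).run y σ).head)
    rw [show (simM K en ins nxt).δ = simδ en ins nxt from rfl, h]
    simp only [Function.update_eq_self]
    exact ih
  | limit o ho ih =>
    rw [run_limit _ _ ho]
    funext k
    show limsupBit o (fun γ _ => ((simM K en ins nxt).run y γ).inp k) = y k
    rw [Bool.eq_iff_iff, limsupBit_iff]
    exact (bool_limit_const (s := 0) ho.bot_lt (fun γ _ h => by rw [ih γ h])).symm

section sync

variable (en : L) (ins : L → Instr) (nxt : L → Bool → L) (y : ℕ → Bool)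

/-- One step of the network takes `ω · 3` stages of the machine. -/
theorem three_phases (hK : 5 < K) (hreg : ∀ l, 5 + (ins l).rg < K) {b : ℕ → ℕ}
    {φ : ℕ → ℕ → ℕ → ℕ} {sb sφ : Stmt}
    (hb : Computes sb (fun v : List.Vector ℕ 1 => b v.head) (fun _ => 0) 1 8)
    (hφ : Computes sφ (fun v : List.Vector ℕ 3 => φ (v.get 0) (v.get 1) (v.get 2))
      ![0, 3, 4] 5 8) (hE : Emb ins nxt (body sb sφ) en en) {σ : Ordinal.{0}} {C : ℕ → Bool}
    {f : Bool} (hg : Good K y C f f ((simM K en ins nxt).run y σ)) (hC : C 0 = false) :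
    Good K y (fun q => decide (φ q (num y (b q)) (num C (b q)) ≠ 0)) true true
      ((simM K en ins nxt).run y (σ + (ω + ω + ω))) ∧
    (∀ ρ < ω + ω + ω, Mid K C (fun q => decide (φ q (num y (b q)) (num C (b q)) ≠ 0))
      ((simM K en ins nxt).run y (σ + ρ))) ∧
    ((simM K en ins nxt).run y (σ + ω)).scr 3 = true ∧
    ((simM K en ins nxt).run y (σ + (ω + ω))).scr 4 = true := by
  have hd : decPh (C 0) f f = some .S := by
    rw [hC]
    cases f <;> simp [decPh]
  obtain ⟨s1, s2, s3⟩ := phaseS en ins nxt y hK hg hd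
  obtain ⟨a1, a2, a3⟩ := phaseA en ins nxt y hK hreg hb hφ hE s2 s3
  obtain ⟨b1, b2⟩ := phaseB en ins nxt y hK a2 a3
  have hw : ∀ c : Config (St L K), Mid K C C c →
      Mid K C (fun q => decide (φ q (num y (b q)) (num C (b q)) ≠ 0)) c := by
    intro c hc
    refine ⟨hc.1, fun q => ?_⟩
    rcases hc.2 q with h | h
    · exact Or.inl h
    · exact Or.inl h
  refine ⟨?_, ?_, s2.fa, ?_⟩
  · rw [← add_assoc, ← add_assoc]
    exact b2
  · intro ρ hρ
    rcases lt_three hρ with ⟨n, rfl⟩ | ⟨n, rfl⟩ | ⟨n, rfl⟩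
    · exact hw _ (s1 n)
    · rw [← add_assoc]
      exact hw _ (a1 n)
    · rw [← add_assoc, ← add_assoc]
      exact b1 n
  · rw [← add_assoc]
    exact a2.fb

variable (F : (ℕ → Bool) → (ℕ → Bool) → ℕ → Bool)

theorem sync (hK : 5 < K) (hreg : ∀ l, 5 + (ins l).rg < K) {b : ℕ → ℕ}
    {φ : ℕ → ℕ → ℕ → ℕ} {sb sφ : Stmt}
    (hb : Computes sb (fun v : List.Vector ℕ 1 => b v.head) (fun _ => 0) 1 8)
    (hφ : Computes sφ (fun v : List.Vector ℕ 3 => φ (v.get 0) (v.get 1) (v.get 2))
      ![0, 3, 4] 5 8) (hE : Emb ins nxt (body sb sφ) en en)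
    (hF : ∀ y C q, F y C q = decide (φ q (num y (b q)) (num C (b q)) ≠ 0)) (α : Ordinal.{0}) :
    (∀ β < α, it (F y) (fun _ => false) β 0 = false) →
    ∃ f, Good K y (it (F y) (fun _ => false) α) f f
      ((simM K en ins nxt).run y ((ω + ω + ω) * α)) := by
  have hF' : ∀ C, (fun q => decide (φ q (num y (b q)) (num C (b q)) ≠ 0)) = F y C := by
    intro C
    funext q
    rw [hF]
  have hW : (0 : Ordinal.{0}) < ω + ω + ω := lt_of_lt_of_le Ordinal.omega0_pos le_add_self
  induction α using Ordinal.limitRecOn with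
  | zero =>
    intro _
    refine ⟨false, ?_⟩
    rw [mul_zero, run_zero, it_zero]
    exact ⟨rfl, rfl, rfl, fun _ => rfl, rfl, rfl⟩
  | add_one α ih =>
    intro h
    obtain ⟨f, hg⟩ := ih (fun β hβ => h β (hβ.trans (lt_add_one α)))
    obtain ⟨h1, _⟩ := three_phases en ins nxt y hK hreg hb hφ hE hg (h α (lt_add_one α))
    rw [hF', ← it_add_one (F y), ← mul_add_one] at h1
    exact ⟨true, h1⟩
  | limit α hα ih =>
    intro h
    have hlim : Order.IsSuccLimit ((ω + ω + ω) * α) := Ordinal.isSuccLimit_mul_right hW hα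
    have hstep : ∀ β < α, (∀ ρ < ω + ω + ω, Mid K (it (F y) (fun _ => false) β)
        (F y (it (F y) (fun _ => false) β))
        ((simM K en ins nxt).run y ((ω + ω + ω) * β + ρ))) ∧
        ((simM K en ins nxt).run y ((ω + ω + ω) * β + ω)).scr 3 = true ∧
        ((simM K en ins nxt).run y ((ω + ω + ω) * β + (ω + ω))).scr 4 = true := by
      intro β hβ
      obtain ⟨f, hg⟩ := ih β hβ (fun β' hβ' => h β' (hβ'.trans hβ))
      have h1 := three_phases en ins nxt y hK hreg hb hφ hE hg (h β hβ)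
      rw [hF'] at h1
      exact h1.2
    have hgood : ∀ β < α, ∃ f, Good K y (it (F y) (fun _ => false) β) f f
        ((simM K en ins nxt).run y ((ω + ω + ω) * β)) :=
      fun β hβ => ih β hβ (fun β' hβ' => h β' (hβ'.trans hβ))
    have hcof : ∀ β < (ω + ω + ω) * α, ∃ β' < α, β ≤ (ω + ω + ω) * β' := by
      intro β hβ
      obtain ⟨β', h1, h2⟩ := (Ordinal.lt_mul_iff_of_isSuccLimit hα).1 hβ
      exact ⟨β', h1, h2.le⟩
    have hlt : ∀ β < α, ∀ ρ < ω + ω + ω, (ω + ω + ω) * β + ρ < (ω + ω + ω) * α := by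
      intro β hβ ρ hρ
      have h1 : (ω + ω + ω) * β + ρ < (ω + ω + ω) * (β + 1) := by
        rw [mul_add_one]
        gcongr
      refine h1.trans_le ?_
      gcongr
      rw [← Order.succ_eq_add_one]
      exact Order.succ_le_of_lt hβ
    have hω : (ω : Ordinal.{0}) < ω + ω + ω := by
      rw [add_assoc]
      conv_lhs => rw [← add_zero ω]
      gcongr
      exact lt_of_lt_of_le Ordinal.omega0_pos le_add_self
    have hωω : (ω + ω : Ordinal.{0}) < ω + ω + ω := by
      conv_lhs => rw [← add_zero (ω + ω)]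
      gcongr
      exact Ordinal.omega0_pos
    refine ⟨true, ?_, ?_, simM_inp en ins nxt y _, ?_, ?_, ?_⟩
    · rw [run_limit _ _ hlim]; rfl
    · rw [run_limit _ _ hlim]
    · intro q
      rw [run_limit _ _ hlim]
      show limsupBit _ (fun γ _ => ((simM K en ins nxt).run y γ).scr (K * q + 2)) = _
      rw [Bool.eq_iff_iff, limsupBit_iff, it_limit _ _ hα]
      constructor
      · intro h1 β hβ
        obtain ⟨γ, h2, h3, h4⟩ := h1 ((ω + ω + ω) * β) (by
          have := hlt β hβ 0 hW
          rwa [add_zero] at this)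
        have h5 := Ordinal.div_add_mod γ (ω + ω + ω)
        have hδ : γ / (ω + ω + ω) < α := (Ordinal.lt_mul_iff_div_lt hW.ne').1 h2
        have hβδ : β ≤ γ / (ω + ω + ω) := (Ordinal.mul_le_iff_le_div hW.ne').1 h3
        obtain ⟨h6, _⟩ := hstep _ hδ
        have h7 := (h6 (γ % (ω + ω + ω)) (Ordinal.mod_lt γ hW.ne')).2 q
        rw [h5] at h7
        rcases h7 with h7 | h7
        · exact ⟨_, hδ, hβδ, by rw [← h7]; exact h4⟩
        · refine ⟨γ / (ω + ω + ω) + 1, hα.add_one_lt hδ, hβδ.trans le_self_add, ?_⟩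
          rw [it_add_one, ← h7]
          exact h4
      · intro h1 β hβ
        obtain ⟨β', h2, h3⟩ := hcof β hβ
        obtain ⟨γ, h4, h5, h6⟩ := h1 β' h2
        obtain ⟨f, hg⟩ := hgood γ h4
        refine ⟨(ω + ω + ω) * γ, ?_, h3.trans (by gcongr), ?_⟩
        · have := hlt γ h4 0 hW
          rwa [add_zero] at this
        · rw [hg.cls2]; exact h6
    · rw [run_limit _ _ hlim]
      show limsupBit _ (fun γ _ => ((simM K en ins nxt).run y γ).scr 3) = _
      rw [limsupBit_iff]
      intro β hβ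
      obtain ⟨β', h2, h3⟩ := hcof β hβ
      obtain ⟨_, h6, _⟩ := hstep _ h2
      exact ⟨(ω + ω + ω) * β' + ω, hlt β' h2 ω hω, h3.trans le_self_add, h6⟩
    · rw [run_limit _ _ hlim]
      show limsupBit _ (fun γ _ => ((simM K en ins nxt).run y γ).scr 4) = _
      rw [limsupBit_iff]
      intro β hβ
      obtain ⟨β', h2, h3⟩ := hcof β hβ
      obtain ⟨_, _, h6⟩ := hstep _ h2
      exact ⟨(ω + ω + ω) * β' + (ω + ω), hlt β' h2 _ hωω, h3.trans le_self_add, h6⟩

end sync

theorem halts_iff_state {S : Type} (M : Machine S) (y : ℕ → Bool) :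
    M.Halts y ↔ ∃ σ, (M.run y σ).state = M.halt := by
  constructor
  · rintro ⟨σ, h, _⟩
    exact ⟨σ, h⟩
  · intro h
    let T : Set Ordinal.{0} := {σ | (M.run y σ).state = M.halt}
    obtain ⟨σ, hσ, hmin⟩ := WellFounded.has_min (wellFounded_lt (α := Ordinal.{0})) T h
    exact ⟨σ, hσ, fun τ hτ h2 => hmin τ h2 hτ⟩

theorem simM_halts_iff (en : L) (ins : L → Instr) (nxt : L → Bool → L)
    (F : (ℕ → Bool) → (ℕ → Bool) → ℕ → Bool) (hK : 5 < K) (hreg : ∀ l, 5 + (ins l).rg < K)
    {b : ℕ → ℕ} {φ : ℕ → ℕ → ℕ → ℕ} {sb sφ : Stmt}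
    (hb : Computes sb (fun v : List.Vector ℕ 1 => b v.head) (fun _ => 0) 1 8)
    (hφ : Computes sφ (fun v : List.Vector ℕ 3 => φ (v.get 0) (v.get 1) (v.get 2))
      ![0, 3, 4] 5 8) (hE : Emb ins nxt (body sb sφ) en en)
    (hF : ∀ y C q, F y C q = decide (φ q (num y (b q)) (num C (b q)) ≠ 0)) (y : ℕ → Bool) :
    (simM K en ins nxt).Halts y ↔ ∃ σ, it (F y) (fun _ => false) σ 0 = true := by
  have hW : (0 : Ordinal.{0}) < ω + ω + ω := lt_of_lt_of_le Ordinal.omega0_pos le_add_self
  constructor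
  · rintro ⟨σ, hσ, _⟩
    by_contra hcon
    push Not at hcon
    have hcon' : ∀ σ, it (F y) (fun _ => false) σ 0 = false := by
      intro σ
      simpa using hcon σ
    have h5 := Ordinal.div_add_mod σ (ω + ω + ω)
    obtain ⟨f, hg⟩ := sync en ins nxt y F hK hreg hb hφ hE hF (σ / (ω + ω + ω))
      (fun β _ => hcon' β)
    obtain ⟨_, h6, _⟩ := three_phases en ins nxt y hK hreg hb hφ hE hg (hcon' _)
    have h7 := (h6 (σ % (ω + ω + ω)) (Ordinal.mod_lt σ hW.ne')).1
    rw [h5] at h7
    exact h7 hσ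
  · intro h
    let T : Set Ordinal.{0} := {σ | it (F y) (fun _ => false) σ 0 = true}
    obtain ⟨α, hα, hmin⟩ := WellFounded.has_min (wellFounded_lt (α := Ordinal.{0})) T h
    obtain ⟨f, hg⟩ := sync en ins nxt y F hK hreg hb hφ hE hF α (fun β hβ => by
      rw [← Bool.not_eq_true]
      exact fun h2 => hmin β h2 hβ)
    rw [halts_iff_state]
    refine ⟨(ω + ω + ω) * α + (5 : ℕ), ?_⟩
    rw [run_add_nat]
    refine phase_halt en ins nxt y hg ?_
    have : it (F y) (fun _ => false) α 0 = true := hα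
    rw [this]
    cases f <;> simp [decPh]

/-! ### Transport to a finite set of states `Fin n` -/

def Machine.tr {S T : Type} (M : Machine S) (e : S ≃ T) : Machine T where
  start := e M.start
  limit := e M.limit
  halt := e M.halt
  δ := fun t b => (e (M.δ (e.symm t) b).1, (M.δ (e.symm t) b).2.1, (M.δ (e.symm t) b).2.2)

theorem run_tr_aux {S T : Type} (M : Machine S) (e : S ≃ T) (y : ℕ → Bool) (σ : Ordinal.{0}) :
    ((M.tr e).run y σ).state = e (M.run y σ).state ∧ ((M.tr e).run y σ).head = (M.run y σ).head ∧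
    ((M.tr e).run y σ).inp = (M.run y σ).inp ∧ ((M.tr e).run y σ).scr = (M.run y σ).scr ∧
    ((M.tr e).run y σ).out = (M.run y σ).out := by
  induction σ using Ordinal.limitRecOn with
  | zero =>
    rw [run_zero, run_zero]
    exact ⟨rfl, rfl, rfl, rfl, rfl⟩
  | add_one σ ih =>
    obtain ⟨h1, h2, h3, h4, h5⟩ := ih
    rw [run_add_one, run_add_one]
    have hδ : (M.tr e).δ ((M.tr e).run y σ).state
        (((M.tr e).run y σ).inp ((M.tr e).run y σ).head,
        ((M.tr e).run y σ).scr ((M.tr e).run y σ).head,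
        ((M.tr e).run y σ).out ((M.tr e).run y σ).head) =
        (e (M.δ (M.run y σ).state ((M.run y σ).inp (M.run y σ).head,
          (M.run y σ).scr (M.run y σ).head, (M.run y σ).out (M.run y σ).head)).1,
        (M.δ (M.run y σ).state ((M.run y σ).inp (M.run y σ).head,
          (M.run y σ).scr (M.run y σ).head, (M.run y σ).out (M.run y σ).head)).2) := by
      rw [h1, h2, h3, h4, h5]
      simp [Machine.tr]
    unfold Machine.step
    simp only
    rw [hδ, h2, h3, h4, h5]
    exact ⟨rfl, rfl, rfl, rfl, rfl⟩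
  | limit o ho ih =>
    have h2 : ∀ (f g : Ordinal.{0} → Bool), (∀ γ < o, f γ = g γ) →
        limsupBit o (fun γ _ => f γ) = limsupBit o (fun γ _ => g γ) := by
      intro f g hfg
      rw [Bool.eq_iff_iff, limsupBit_iff, limsupBit_iff]
      constructor
      · intro h β hβ
        obtain ⟨γ, h3, h4, h5⟩ := h β hβ
        exact ⟨γ, h3, h4, by rw [← hfg γ h3]; exact h5⟩
      · intro h β hβ
        obtain ⟨γ, h3, h4, h5⟩ := h β hβ
        exact ⟨γ, h3, h4, by rw [hfg γ h3]; exact h5⟩
    rw [run_limit _ _ ho, run_limit _ _ ho]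
    refine ⟨rfl, rfl, ?_, ?_, ?_⟩
    · funext k
      exact h2 _ _ (fun γ hγ => by rw [(ih γ hγ).2.2.1])
    · funext k
      exact h2 _ _ (fun γ hγ => by rw [(ih γ hγ).2.2.2.1])
    · funext k
      exact h2 _ _ (fun γ hγ => by rw [(ih γ hγ).2.2.2.2])

theorem halts_tr {S T : Type} (M : Machine S) (e : S ≃ T) (y : ℕ → Bool) :
    (M.tr e).Halts y ↔ M.Halts y := by
  rw [halts_iff_state, halts_iff_state]
  constructor
  · rintro ⟨σ, h⟩
    rw [(run_tr_aux M e y σ).1] at h
    exact ⟨σ, e.injective h⟩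
  · rintro ⟨σ, h⟩
    refine ⟨σ, ?_⟩
    rw [(run_tr_aux M e y σ).1, h]
    rfl

theorem exists_fin_machine {S : Type} [Finite S] (M : Machine S) :
    ∃ (n : ℕ) (P : Machine (Fin n)), ∀ y, P.Halts y ↔ M.Halts y := by
  obtain ⟨n, ⟨e⟩⟩ := Finite.exists_equiv_fin S
  exact ⟨n, M.tr e, halts_tr M e⟩

/-! ### From functionals to numerical functions -/

def dig (N m k : ℕ) : Bool := decide (N / 2 ^ (m - 1 - k) % 2 = 1)

theorem dig_num (O : ℕ → Bool) (m k : ℕ) (h : k < m) : dig (num O m) m k = O k := by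
  unfold dig
  induction m with
  | zero => omega
  | succ m ih =>
    rcases Nat.lt_or_ge k m with h1 | h1
    · have e1 : m + 1 - 1 - k = (m - 1 - k) + 1 := by omega
      rw [e1, pow_succ']
      rw [← Nat.div_div_eq_div_mul]
      have e2 : num O (m + 1) / 2 = num O m := by
        show (2 * num O m + (O m).toNat) / 2 = num O m
        rcases O m with _ | _ <;> (simp; try omega)
      rw [e2]
      exact ih h1
    · have e1 : k = m := by omega
      subst e1
      have e2 : k + 1 - 1 - k = 0 := by omega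
      rw [e2, pow_zero, Nat.div_one]
      show decide ((2 * num O k + (O k).toNat) % 2 = 1) = O k
      rcases O k with _ | _ <;> simp [Nat.add_mod]

theorem exists_numerical {F : (ℕ → Bool) → (ℕ → Bool) → ℕ → Bool}
    (hF : PRF (fun O (i : ℕ) => F (fun k => O (2 * k)) (fun k => O (2 * k + 1)) i)) :
    ∃ (b : ℕ → ℕ) (φ : ℕ → ℕ → ℕ → ℕ), Primrec b ∧
      Primrec (fun p : ℕ × ℕ × ℕ => φ p.1 p.2.1 p.2.2) ∧
      ∀ y C q, F y C q = decide (φ q (num y (b q)) (num C (b q)) ≠ 0) := by
  obtain ⟨b, ψ, hb, hψ, h⟩ := hF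
  let lst : ℕ → ℕ → ℕ → List Bool := fun m sy sC => (List.range m).map
    (fun k => if k % 2 = 0 then dig sy m (k / 2) else dig sC m (k / 2))
  refine ⟨b, fun q sy sC => (ψ q (lst (b q) sy sC)).toNat, hb, ?_, ?_⟩
  · have hdig : Primrec (fun p : ℕ × ℕ × ℕ => dig p.1 p.2.1 p.2.2) := by
      have hpow : Primrec₂ (fun a b : ℕ => a ^ b) := by
        refine ((Primrec.nat_rec' (f := fun p : ℕ × ℕ => p.2) (g := fun _ => 1)
          (h := fun p q => p.1 * q.2) Primrec.snd (Primrec.const 1) ?_).of_eq ?_)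
        · exact Primrec.nat_mul.comp (Primrec.fst.comp Primrec.fst)
            (Primrec.snd.comp Primrec.snd)
        · rintro ⟨a, n⟩
          show (Nat.rec 1 (fun _ IH => a * IH) n : ℕ) = a ^ n
          induction n with
          | zero => rfl
          | succ n ih => rw [pow_succ', ← ih]
      refine (Primrec.eq.comp (Primrec.nat_mod.comp (Primrec.nat_div.comp Primrec.fst
        (hpow.comp (Primrec.const 2) (Primrec.nat_sub.comp (Primrec.nat_sub.comp
          (Primrec.fst.comp Primrec.snd) (Primrec.const 1)) (Primrec.snd.comp Primrec.snd))))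
        (Primrec.const 2)) (Primrec.const 1)).decide
    have hlst : Primrec (fun p : ℕ × ℕ × ℕ => lst (b p.1) p.2.1 p.2.2) := by
      refine Primrec.list_map (f := fun p : ℕ × ℕ × ℕ => List.range (b p.1))
        (g := fun p k => if k % 2 = 0 then dig p.2.1 (b p.1) (k / 2)
          else dig p.2.2 (b p.1) (k / 2))
        (Primrec.list_range.comp (hb.comp Primrec.fst)) ?_
      refine Primrec.ite (Primrec.eq.comp (Primrec.nat_mod.comp Primrec.snd
        (Primrec.const 2)) (Primrec.const 0)) ?_ ?_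
      · refine hdig.comp (Primrec.pair (Primrec.fst.comp (Primrec.snd.comp Primrec.fst))
          (Primrec.pair (hb.comp (Primrec.fst.comp Primrec.fst))
            (Primrec.nat_div.comp Primrec.snd (Primrec.const 2))))
      · refine hdig.comp (Primrec.pair (Primrec.snd.comp (Primrec.snd.comp Primrec.fst))
          (Primrec.pair (hb.comp (Primrec.fst.comp Primrec.fst))
            (Primrec.nat_div.comp Primrec.snd (Primrec.const 2))))
    exact (Primrec.dom_finite Bool.toNat).comp (hψ.comp Primrec.fst hlst)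
  · intro y C q
    let O : ℕ → Bool := fun k => if k % 2 = 0 then y (k / 2) else C (k / 2)
    have h1 := h O q (b q) le_rfl
    have e1 : (fun k => O (2 * k)) = y := by
      funext k
      simp [O]
    have e2 : (fun k => O (2 * k + 1)) = C := by
      funext k
      simp only [O]
      rw [if_neg (by omega)]
      congr 1
      omega
    beta_reduce at h1
    rw [e1, e2] at h1
    have e3 : seg O (b q) = lst (b q) (num y (b q)) (num C (b q)) := by
      unfold seg
      apply List.map_congr_left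
      intro k hk
      rw [List.mem_range] at hk
      show (if k % 2 = 0 then y (k / 2) else C (k / 2)) = _
      rw [dig_num y _ _ (by omega), dig_num C _ _ (by omega)]
    rw [h1, e3]
    show ψ q _ = decide ((ψ q (lst (b q) (num y (b q)) (num C (b q)))).toNat ≠ 0)
    generalize ψ q (lst (b q) (num y (b q)) (num C (b q))) = v
    cases v <;> rfl

/-- **Simulation theorem.** Every primitive recursive network is simulated by a program. -/
theorem compile {F : (ℕ → Bool) → (ℕ → Bool) → ℕ → Bool}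
    (hF : PRF (fun O (i : ℕ) => F (fun k => O (2 * k)) (fun k => O (2 * k + 1)) i)) :
    ∃ (n : ℕ) (P : Machine (Fin n)), ∀ y : ℕ → Bool,
      P.Halts y ↔ ∃ σ, it (F y) (fun _ => false) σ 0 = true := by
  obtain ⟨b, φ, hb, hφ, hF'⟩ := exists_numerical hF
  have hb' : Nat.Primrec' (fun v : List.Vector ℕ 1 => b v.head) :=
    Nat.Primrec'.of_prim (hb.comp Primrec.vector_head)
  have hφ' : Nat.Primrec' (fun v : List.Vector ℕ 3 => φ (v.get 0) (v.get 1) (v.get 2)) := by
    refine Nat.Primrec'.of_prim ?_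
    exact hφ.comp (Primrec.pair (Primrec.vector_get.comp Primrec.id (Primrec.const 0))
      (Primrec.pair (Primrec.vector_get.comp Primrec.id (Primrec.const 1))
        (Primrec.vector_get.comp Primrec.id (Primrec.const 2))))
  obtain ⟨sb, hsb⟩ := exists_computes hb' (fun _ => 0) 1 8 (fun _ => by omega) (by omega)
    (fun _ => by omega)
  obtain ⟨sφ, hsφ⟩ := exists_computes hφ' ![0, 3, 4] 5 8 (by decide) (by omega) (by decide)
  obtain ⟨L, _, en, ins, nxt, hE⟩ := exists_flat (body sb sφ)
  obtain ⟨R, hR⟩ : ∃ R, ∀ l, (ins l).rg < R := by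
    refine ⟨(Finset.univ.sup fun l => (ins l).rg) + 1, fun l => ?_⟩
    have := Finset.le_sup (f := fun l => (ins l).rg) (Finset.mem_univ l)
    omega
  have : NeZero (6 + R) := ⟨by omega⟩
  obtain ⟨n, P, hP⟩ := exists_fin_machine (simM (6 + R) en ins nxt)
  refine ⟨n, P, fun y => ?_⟩
  rw [hP]
  exact simM_halts_iff en ins nxt F (by omega) (fun l => by have := hR l; omega) hsb hsφ hE
    hF' y

end Pool.Agent.H81.ITTM
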